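import Mathlib
import Pool.Agent.TH841.PT.Stm
import Pool.Agent.TH841.PT.CNTP
import Pool.Agent.H373R2.T7.Fund

/-!
# Sequences with a level of distribution, and the upper bound sieve for them
-/

set_option autoImplicit false

namespace Pool.Agent.N870.SQ

open Finset Polynomial Pool.Agent.W262.RK Pool.Agent.TH841.PT

/-- the integers `α 1, ..., α X` are equidistributed in the residue classes modulo all `m ≤ L`, with
the relative error `1 / L` -/
def Lev (X L : ℕ) (α : ℕ → ℤ) : Prop := ∀ m : ℕ, 1 ≤ m → m ≤ L → ∀ r : ℤ,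
  |(((Icc 1 X).filter (fun i : ℕ => (m : ℤ) ∣ α i - r)).card : ℝ) - X / m| ≤ X / L

/-- a property of the residues modulo `p` -/
def PerZ (Z : ℕ → ℤ → Prop) (z y : ℕ) : Prop :=
  ∀ p ∈ PS z y, ∀ a b : ℤ, (p : ℤ) ∣ a - b → (Z p a ↔ Z p b)

open Classical in
/-- the residues modulo `m ∏ p` with the given properties -/
noncomputable def RZ (Z : ℕ → ℤ → Prop) (m : ℕ) (r : ℤ) (T : Finset ℕ) : Finset ℕ :=
  (range (m * ∏ p ∈ T, p)).filter (fun x : ℕ => (m : ℤ) ∣ (x : ℤ) - r ∧ ∀ p ∈ T, Z p (x : ℤ))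

open Classical in
lemma card_RZ (Z : ℕ → ℤ → Prop) (m : ℕ) (hm : 1 ≤ m) (r : ℤ) (T : Finset ℕ)
    (hT : ∀ p ∈ T, p.Prime ∧ ¬ p ∣ m) (hZ : ∀ p ∈ T, ∀ a b : ℤ, (p : ℤ) ∣ a - b → (Z p a ↔ Z p b)) :
    (RZ Z m r T).card = ∏ p ∈ T, ((range p).filter (fun n : ℕ => Z p (n : ℤ))).card := by
  induction T using Finset.induction_on with
  | empty =>
    unfold RZ
    simp only [Finset.prod_empty, mul_one, Finset.notMem_empty, false_imp_iff, implies_true,
      and_true]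
    rw [Finset.card_eq_one]
    have hm0 : (0 : ℤ) < m := by exact_mod_cast hm
    have h0 := Int.emod_nonneg r hm0.ne'
    have h1 := Int.emod_lt_of_pos r hm0
    refine ⟨(r % m).toNat, ?_⟩
    ext x
    rw [mem_filter, mem_range, mem_singleton]
    constructor
    · rintro ⟨h2, h3⟩
      have h4 : (x : ℤ) % m = r % m :=
        Int.emod_eq_emod_iff_emod_sub_eq_zero.2 (Int.emod_eq_zero_of_dvd h3)
      rw [Int.emod_eq_of_lt (by positivity) (by exact_mod_cast h2)] at h4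
      omega
    · rintro rfl
      refine ⟨by omega, ?_⟩
      rw [Int.toNat_of_nonneg h0]
      exact ⟨-(r / m), by have := Int.emod_add_mul_ediv r m; linarith⟩
  | insert p T hpT ih =>
    have hpp := hT p (mem_insert_self _ _)
    have ih' := ih (fun q hq => hT q (mem_insert_of_mem hq)) (fun q hq => hZ q (mem_insert_of_mem hq))
    rw [Finset.prod_insert hpT, ← ih', mul_comm, ← Finset.card_product]
    set M := m * ∏ q ∈ T, q with hM
    have hcop : M.Coprime p := by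
      apply Nat.Coprime.mul_left
      · exact ((Nat.Prime.coprime_iff_not_dvd hpp.1).2 hpp.2).symm
      · apply Nat.Coprime.prod_left
        intro q hq
        have := hT q (mem_insert_of_mem hq)
        rw [Nat.coprime_primes this.1 hpp.1]
        rintro rfl
        exact hpT hq
    have hM0 : 0 < M := Nat.mul_pos hm (Finset.prod_pos fun q hq =>
      (hT q (mem_insert_of_mem hq)).1.pos)
    have hp0 := hpp.1.pos
    have hMp : m * ∏ q ∈ insert p T, q = M * p := by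
      rw [Finset.prod_insert hpT, hM]; ring
    have key : ∀ x : ℕ, (p : ℤ) ∣ ((x % p : ℕ) : ℤ) - (x : ℤ) := by
      intro x
      push_cast
      exact ⟨-((x : ℤ) / p), by have := Int.emod_add_mul_ediv (x : ℤ) p; linarith⟩
    have keyM : ∀ x : ℕ, (M : ℤ) ∣ ((x % M : ℕ) : ℤ) - (x : ℤ) := by
      intro x
      push_cast
      exact ⟨-((x : ℤ) / M), by have := Int.emod_add_mul_ediv (x : ℤ) M; linarith⟩
    have hmM : (m : ℤ) ∣ M := by rw [hM]; push_cast; exact Dvd.intro _ rfl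
    have hqM : ∀ q ∈ T, (q : ℤ) ∣ M := by
      intro q hq
      have : q ∣ M := (dvd_prod_of_mem _ hq).mul_left _
      exact_mod_cast this
    have hmem : ∀ x : ℕ, ((m : ℤ) ∣ (x : ℤ) - r ∧ ∀ q ∈ insert p T, Z q (x : ℤ)) ↔
        (((m : ℤ) ∣ ((x % M : ℕ) : ℤ) - r ∧ ∀ q ∈ T, Z q ((x % M : ℕ) : ℤ)) ∧
          Z p ((x % p : ℕ) : ℤ)) := by
      intro x
      rw [Finset.forall_mem_insert, hZ p (mem_insert_self _ _) _ _ (key x)]
      have h1 : (m : ℤ) ∣ ((x % M : ℕ) : ℤ) - r ↔ (m : ℤ) ∣ (x : ℤ) - r := by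
        have h2 := hmM.trans (keyM x)
        constructor
        · intro h
          have := dvd_sub h h2
          simpa using this
        · intro h
          have := dvd_add h h2
          rwa [show (x : ℤ) - r + (((x % M : ℕ) : ℤ) - x) = ((x % M : ℕ) : ℤ) - r by ring] at this
      have h3 : (∀ q ∈ T, Z q ((x % M : ℕ) : ℤ)) ↔ ∀ q ∈ T, Z q (x : ℤ) :=
        forall₂_congr fun q hq => hZ q (mem_insert_of_mem hq) _ _ ((hqM q hq).trans (keyM x))
      rw [h1, h3]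
      tauto
    refine Finset.card_bij (fun x _ => (x % M, x % p)) ?_ ?_ ?_
    · intro x hx
      unfold RZ at hx
      rw [mem_filter, hmem] at hx
      rw [mem_product, mem_filter]
      refine ⟨?_, mem_range.2 (Nat.mod_lt _ hp0), hx.2.2⟩
      unfold RZ
      rw [mem_filter]
      exact ⟨mem_range.2 (Nat.mod_lt _ hM0), hx.2.1⟩
    · intro x hx x' hx' h
      unfold RZ at hx hx'
      rw [mem_filter, mem_range, hMp] at hx hx'
      simp only [Prod.mk.injEq] at h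
      have h1 : x ≡ x' [MOD M * p] := (Nat.modEq_and_modEq_iff_modEq_mul hcop).1 ⟨h.1, h.2⟩
      have h2 : x % (M * p) = x' % (M * p) := h1
      rwa [Nat.mod_eq_of_lt hx.1, Nat.mod_eq_of_lt hx'.1] at h2
    · rintro ⟨a, b⟩ hab
      rw [mem_product, mem_filter] at hab
      simp only at hab
      have ha := hab.1
      unfold RZ at ha
      rw [mem_filter, mem_range] at ha
      have hb := mem_range.1 hab.2.1
      obtain ⟨k, hk1, hk2⟩ := Nat.chineseRemainder hcop a b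
      have e1 : k % (M * p) % M = a := by
        rw [Nat.mod_mul_right_mod]
        have : k % M = a % M := hk1
        rw [this, Nat.mod_eq_of_lt ha.1]
      have e2 : k % (M * p) % p = b := by
        rw [Nat.mod_mul_left_mod]
        have : k % p = b % p := hk2
        rw [this, Nat.mod_eq_of_lt hb]
      refine ⟨k % (M * p), ?_, by rw [e1, e2]⟩
      unfold RZ
      rw [mem_filter, mem_range, hMp, hmem, e1, e2]
      exact ⟨Nat.mod_lt _ (Nat.mul_pos hM0 hp0), ha.2, hab.2.2⟩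

open Classical in
/-- the number of the members of the sequence with given residues -/
lemma count_T {X L : ℕ} {α : ℕ → ℤ} (hα : Lev X L α) (Z : ℕ → ℤ → Prop) (m : ℕ) (hm : 1 ≤ m)
    (r : ℤ) (T : Finset ℕ) (hT : ∀ p ∈ T, p.Prime ∧ ¬ p ∣ m)
    (hZ : ∀ p ∈ T, ∀ a b : ℤ, (p : ℤ) ∣ a - b → (Z p a ↔ Z p b)) (ν : ℕ → ℕ)
    (hν : ∀ p ∈ T, ((range p).filter (fun n : ℕ => Z p (n : ℤ))).card = ν p)
    (hL : m * ∏ p ∈ T, p ≤ L) :
    |(((Icc 1 X).filter (fun i : ℕ => (m : ℤ) ∣ α i - r ∧ ∀ p ∈ T, Z p (α i))).card : ℝ) -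
      X / m * ∏ p ∈ T, (ν p : ℝ) / p| ≤ (∏ p ∈ T, (ν p : ℝ)) * (X / L) := by
  set M := m * ∏ q ∈ T, q with hM
  have hM0 : 0 < M := Nat.mul_pos hm (Finset.prod_pos fun q hq => (hT q hq).1.pos)
  have hM0' : (0 : ℤ) < M := by exact_mod_cast hM0
  have hmM : (m : ℤ) ∣ M := by rw [hM]; push_cast; exact Dvd.intro _ rfl
  have hqM : ∀ q ∈ T, (q : ℤ) ∣ M := by
    intro q hq
    have : q ∣ M := (dvd_prod_of_mem _ hq).mul_left _
    exact_mod_cast this
  have hmap : ∀ i ∈ (Icc 1 X).filter (fun i : ℕ => (m : ℤ) ∣ α i - r ∧ ∀ p ∈ T, Z p (α i)),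
      ((α i) % M).toNat ∈ RZ Z m r T := by
    intro i hi
    rw [mem_filter] at hi
    have h0 := Int.emod_nonneg (α i) hM0'.ne'
    have h1 := Int.emod_lt_of_pos (α i) hM0'
    have h2 : (M : ℤ) ∣ (α i) % M - α i :=
      ⟨-(α i / M), by have := Int.emod_add_mul_ediv (α i) M; linarith⟩
    unfold RZ
    rw [mem_filter, mem_range, Int.toNat_of_nonneg h0]
    refine ⟨by omega, ?_, fun p hp => (hZ p hp _ _ ((hqM p hp).trans h2)).2 (hi.2.2 p hp)⟩
    have := dvd_add hi.2.1 (hmM.trans h2)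
    rwa [show α i - r + (α i % M - α i) = α i % M - r by ring] at this
  have hcard : ((Icc 1 X).filter (fun i : ℕ => (m : ℤ) ∣ α i - r ∧ ∀ p ∈ T, Z p (α i))).card =
      ∑ x ∈ RZ Z m r T, ((Icc 1 X).filter (fun i : ℕ => (M : ℤ) ∣ α i - (x : ℤ))).card := by
    rw [card_eq_sum_card_fiberwise hmap]
    refine sum_congr rfl fun x hx => ?_
    congr 1
    ext i
    unfold RZ at hx
    rw [mem_filter, mem_range] at hx
    rw [mem_filter, mem_filter, mem_filter]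
    have h0 := Int.emod_nonneg (α i) hM0'.ne'
    constructor
    · rintro ⟨⟨h1, _⟩, h2⟩
      refine ⟨h1, ?_⟩
      have h3 : ((x : ℕ) : ℤ) = α i % M := by omega
      rw [h3]
      exact ⟨α i / M, by have := Int.emod_add_mul_ediv (α i) M; linarith⟩
    · rintro ⟨h1, h2⟩
      refine ⟨⟨h1, ?_, fun p hp => (hZ p hp _ _ ((hqM p hp).trans h2)).2 (hx.2.2 p hp)⟩, ?_⟩
      · have := dvd_add (hmM.trans h2) hx.2.1
        rwa [show α i - (x : ℤ) + ((x : ℤ) - r) = α i - r by ring] at this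
      · have h3 : α i % M = (x : ℤ) % M := Int.emod_eq_emod_iff_emod_sub_eq_zero.2
          (Int.emod_eq_zero_of_dvd h2)
        rw [h3, Int.emod_eq_of_lt (by positivity) (by exact_mod_cast hx.1)]
        simp
  have hRZ := card_RZ Z m hm r T hT hZ
  have hR : ((RZ Z m r T).card : ℝ) = ∏ p ∈ T, (ν p : ℝ) := by
    rw [hRZ, Nat.cast_prod]
    exact prod_congr rfl fun p hp => by rw [hν p hp]
  have hmain : X / m * ∏ p ∈ T, (ν p : ℝ) / p = ∑ x ∈ RZ Z m r T, (X : ℝ) / M := by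
    rw [sum_const, nsmul_eq_mul, hR, prod_div_distrib, hM]
    push_cast
    have h1 : (m : ℝ) ≠ 0 := by positivity
    have h2 : (∏ p ∈ T, (p : ℝ)) ≠ 0 := by
      rw [prod_ne_zero_iff]
      intro p hp
      have := (hT p hp).1.pos
      positivity
    field_simp
  rw [hcard, hmain, Nat.cast_sum, ← sum_sub_distrib]
  refine (abs_sum_le_sum_abs _ _).trans ?_
  have hle : ∀ x ∈ RZ Z m r T, |(((Icc 1 X).filter (fun i : ℕ => (M : ℤ) ∣ α i - (x : ℤ))).card : ℝ) -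
      X / M| ≤ X / L := fun x _ => hα M hM0 hL (x : ℤ)
  refine (sum_le_sum hle).trans (le_of_eq ?_)
  rw [sum_const, nsmul_eq_mul, hR]

open Classical in
/-- SVA: the upper bound sieve for a sequence with a level of distribution -/
def SVA : Prop := ∀ c z : ℕ, 2 * c + 2 ≤ z → ∃ (C : ℝ) (K y0 : ℕ), 0 ≤ C ∧ 1 ≤ K ∧
  ∀ (X L y : ℕ) (α : ℕ → ℤ), Lev X L α → y0 ≤ y → z < y → y ^ K ≤ L →
  ∀ (Z : ℕ → ℤ → Prop) (ν : ℕ → ℕ), PerZ Z z y →
  (∀ p ∈ PS z y, ((range p).filter (fun n : ℕ => Z p (n : ℤ))).card = ν p ∧ ν p ≤ c) →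
  ∀ (m : ℕ) (r : ℤ), 1 ≤ m → m ^ 4 ≤ L →
    (((Icc 1 X).filter (fun i : ℕ => (m : ℤ) ∣ α i - r ∧
      ∀ p ∈ PS z y, ¬ p ∣ m → ¬ Z p (α i))).card : ℝ) ≤
      C * (X / m) * Real.exp (-∑ p ∈ (PS z y).filter (fun p => ¬ p ∣ m), (ν p : ℝ) / p)

set_option maxHeartbeats 1000000 in
theorem sva : SVA := by
  classical
  intro c z hz
  obtain ⟨C0, hC0, hF⟩ := Pool.Agent.H20R2.fLem c
  set z1 := max z C0 with hz1
  refine ⟨2 * Real.exp (c * (1 + Real.log z1)) + 4 * Real.exp c, 2 * (4 * C0 ^ 2 + 1 + c), 3,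
    by positivity, by omega,
    fun X L y α hα hy hzy hyL Z ν hZ hν m r hm1 hmL => ?_⟩
  have hy3 : 3 ≤ y := hy
  set J := Pool.Agent.H373R2.T7.JJ y with hJ
  have hyJ : y < 2 ^ 2 ^ J := Pool.Agent.H373R2.T7.JJ_lt y
  have hJy : 2 ^ 2 ^ J ≤ y ^ 2 := Pool.Agent.H373R2.T7.JJ_le y (by omega)
  have hJs : J + 2 ≤ 2 * y := Pool.Agent.H373R2.T7.JJ_small y hy3
  set P : Finset ℕ := (PS z1 y).filter (fun p => ¬ p ∣ m) with hP
  have hPS : ∀ p ∈ P, p ∈ PS z y := by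
    intro p hp
    rw [hP, mem_filter, mem_PS] at hp
    exact mem_PS.2 ⟨⟨lt_of_le_of_lt (le_max_left _ _) hp.1.1.1, hp.1.1.2⟩, hp.1.2⟩
  have hPp : ∀ p ∈ P, p.Prime ∧ z1 < p ∧ p ≤ 2 ^ 2 ^ J := by
    intro p hp
    rw [hP, mem_filter, mem_PS] at hp
    exact ⟨hp.1.2, hp.1.1.1, hp.1.1.2.trans hyJ.le⟩
  have hPm : ∀ p ∈ P, ¬ p ∣ m := fun p hp => (mem_filter.1 hp).2
  have hνc : ∀ p ∈ P, (ν p : ℝ) ≤ c := fun p hp => by exact_mod_cast (hν p (hPS p hp)).2
  have hcp : ∀ p ∈ P, c < p := by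
    intro p hp
    have h1 := (mem_PS.1 (hPS p hp)).1.1
    omega
  set D : ℕ := (2 ^ 2 ^ J) ^ (C0 * C0) with hD
  have hDy : D ≤ y ^ (2 * C0 ^ 2) := by
    calc D ≤ (y ^ 2) ^ (C0 * C0) := Nat.pow_le_pow_left hJy _
      _ = y ^ (2 * C0 ^ 2) := by rw [← pow_mul]; congr 1; ring
  have hy1 : 1 ≤ y := by omega
  -- the inequality between m, y and L
  have hmyL : m * y ^ (4 * C0 ^ 2 + 1 + c) ≤ L := by
    have h1 : (m * y ^ (4 * C0 ^ 2 + 1 + c)) ^ 4 ≤ L ^ 4 := by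
      have hL1 : 1 ≤ L := le_trans (Nat.one_le_pow _ _ hm1) hmL
      calc (m * y ^ (4 * C0 ^ 2 + 1 + c)) ^ 4
          = m ^ 4 * (y ^ (2 * (4 * C0 ^ 2 + 1 + c))) ^ 2 := by ring
        _ ≤ L * L ^ 2 := Nat.mul_le_mul hmL (Nat.pow_le_pow_left hyL 2)
        _ = L ^ 3 := by ring
        _ ≤ L ^ 4 := Nat.pow_le_pow_right hL1 (by norm_num)
    exact (Nat.pow_le_pow_iff_left (by norm_num)).1 h1
  have hL1 : 1 ≤ L := le_trans (Nat.one_le_pow _ _ hm1) hmL
  have hLr : (0 : ℝ) < L := by exact_mod_cast hL1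
  have hmr : (0 : ℝ) < m := by exact_mod_cast hm1
  have hprodT : ∀ T ⊆ P, (∏ p ∈ T, p) ≤ D → m * ∏ p ∈ T, p ≤ L := by
    intro T _ hTD
    refine le_trans (Nat.mul_le_mul_left m (hTD.trans hDy)) (le_trans ?_ hmyL)
    exact Nat.mul_le_mul_left m (Nat.pow_le_pow_right hy1 (by nlinarith))
  have hg : ∀ p ∈ P, 0 ≤ (ν p : ℝ) / p ∧ (ν p : ℝ) / p ≤ c / ((p : ℝ) - 1) := by
    intro p hp
    have h2 : (2 : ℝ) ≤ p := by exact_mod_cast (hPp p hp).1.two_le
    refine ⟨by positivity, ?_⟩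
    calc (ν p : ℝ) / p ≤ c / p := div_le_div_of_nonneg_right (hνc p hp) (by linarith)
      _ ≤ c / ((p : ℝ) - 1) := div_le_div_of_nonneg_left (Nat.cast_nonneg _) (by linarith)
          (by linarith)
  have hfl := hF C0 J z1 P (fun p => (ν p : ℝ) / p) le_rfl (le_max_right _ _) hPp hg
    ((Icc 1 X).filter (fun i : ℕ => (m : ℤ) ∣ α i - r)) (fun _ => 1) (fun p i => Z p (α i))
    ((X : ℝ) / m) (fun T => (∏ p ∈ T, (ν p : ℝ)) * (X / L)) (fun _ _ => zero_le_one)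
    (by positivity) (by
      intro T hT hTD
      have h1 := count_T hα Z m hm1 r T (fun p hp => ⟨(hPp p (hT hp)).1, hPm p (hT hp)⟩)
        (fun p hp => hZ p (hPS p (hT hp))) ν (fun p hp => (hν p (hPS p (hT hp))).1)
        (hprodT T hT hTD)
      rw [filter_filter, sum_const, nsmul_eq_mul, mul_one]
      exact h1)
  rw [filter_filter, sum_const, nsmul_eq_mul, mul_one] at hfl
  -- the set
  have hsub : (((Icc 1 X).filter (fun i : ℕ => (m : ℤ) ∣ α i - r ∧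
      ∀ p ∈ PS z y, ¬ p ∣ m → ¬ Z p (α i))).card : ℝ) ≤
      (((Icc 1 X).filter (fun i : ℕ => (m : ℤ) ∣ α i - r ∧ ∀ p ∈ P, ¬ Z p (α i))).card : ℝ) := by
    rw [Nat.cast_le]
    apply card_le_card
    intro i hi
    rw [mem_filter] at hi ⊢
    exact ⟨hi.1, hi.2.1, fun p hp => hi.2.2 p (hPS p hp) (hPm p hp)⟩
  obtain ⟨A, hA⟩ : ∃ A : ℝ, A = ∏ p ∈ P, (1 - (ν p : ℝ) / p) := ⟨_, rfl⟩
  obtain ⟨S, hS⟩ : ∃ S : ℝ, S = ∑ p ∈ (PS z y).filter (fun p => ¬ p ∣ m), (ν p : ℝ) / p :=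
    ⟨_, rfl⟩
  have hA0 : 0 ≤ A := by
    rw [hA]
    refine prod_nonneg fun p hp => ?_
    have h1 := hcp p hp
    have h2 : (ν p : ℝ) ≤ p := (hνc p hp).trans (by exact_mod_cast h1.le)
    have hp0 : (0 : ℝ) < p := by exact_mod_cast (hPp p hp).1.pos
    rw [sub_nonneg, div_le_one hp0]
    exact h2
  -- the main product
  have hAS : A ≤ Real.exp (c * (1 + Real.log z1)) * Real.exp (-S) := by
    have h1 : A ≤ Real.exp (-∑ p ∈ P, (ν p : ℝ) / p) := by
      rw [hA, ← sum_neg_distrib, Real.exp_sum]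
      refine prod_le_prod (fun p hp => ?_) fun p _ => ?_
      · have h1 := hcp p hp
        have h2 : (ν p : ℝ) ≤ p := (hνc p hp).trans (by exact_mod_cast h1.le)
        have hp0 : (0 : ℝ) < p := by exact_mod_cast (hPp p hp).1.pos
        rw [sub_nonneg, div_le_one hp0]
        exact h2
      · have := Real.add_one_le_exp (-((ν p : ℝ) / p))
        linarith
    refine h1.trans ?_
    rw [← Real.exp_add]
    apply Real.exp_le_exp.2
    have h2 : S ≤ ∑ p ∈ P, (ν p : ℝ) / p + c * (1 + Real.log z1) := by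
      have h3 : (PS z y).filter (fun p => ¬ p ∣ m) ⊆
          P ∪ Pool.Agent.H373R2.T7.pz z1 ∩ (PS z y) := by
        intro p hp
        rw [mem_filter] at hp
        rw [mem_union, mem_inter]
        by_cases h4 : z1 < p
        · left
          rw [hP, mem_filter]
          exact ⟨mem_PS.2 ⟨⟨h4, (mem_PS.1 hp.1).1.2⟩, (mem_PS.1 hp.1).2⟩, hp.2⟩
        · right
          exact ⟨Pool.Agent.H373R2.T7.mem_pz.2 ⟨by omega, (mem_PS.1 hp.1).2⟩, hp.1⟩
      rw [hS]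
      refine (sum_le_sum_of_subset_of_nonneg h3 fun _ _ _ => by positivity).trans ?_
      have h5 := sum_union_inter (s₁ := P) (s₂ := Pool.Agent.H373R2.T7.pz z1 ∩ (PS z y))
        (f := fun p => (ν p : ℝ) / p)
      have h6 : 0 ≤ ∑ p ∈ P ∩ (Pool.Agent.H373R2.T7.pz z1 ∩ (PS z y)), (ν p : ℝ) / p :=
        sum_nonneg fun _ _ => by positivity
      refine (show _ ≤ ∑ p ∈ P, (ν p : ℝ) / p +
        ∑ p ∈ Pool.Agent.H373R2.T7.pz z1 ∩ (PS z y), (ν p : ℝ) / p by linarith).trans ?_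
      refine add_le_add le_rfl ?_
      calc ∑ p ∈ Pool.Agent.H373R2.T7.pz z1 ∩ (PS z y), (ν p : ℝ) / p
          ≤ ∑ p ∈ Pool.Agent.H373R2.T7.pz z1 ∩ (PS z y), (c : ℝ) * (1 / p) := by
            refine sum_le_sum fun p hp => ?_
            rw [mul_one_div]
            have h3 : (ν p : ℝ) ≤ c := by exact_mod_cast (hν p (mem_inter.1 hp).2).2
            gcongr
        _ ≤ ∑ p ∈ Pool.Agent.H373R2.T7.pz z1, (c : ℝ) * (1 / p) :=
            sum_le_sum_of_subset_of_nonneg inter_subset_left fun _ _ _ => by positivity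
        _ ≤ c * (1 + Real.log z1) := by
            rw [← mul_sum]
            exact mul_le_mul_of_nonneg_left (Pool.Agent.H373R2.T7.sum_pz_le z1) (Nat.cast_nonneg c)
    linarith
  have hyr : (3 : ℝ) ≤ y := by exact_mod_cast hy3
  have hSle : S ≤ c * (1 + Real.log y) := by
    have h1 : S ≤ ∑ p ∈ Pool.Agent.H373R2.T7.pz y, (c : ℝ) * (1 / p) := by
      rw [hS]
      have h2 : ∑ p ∈ (PS z y).filter (fun p => ¬ p ∣ m), (ν p : ℝ) / p ≤
          ∑ p ∈ (PS z y).filter (fun p => ¬ p ∣ m), (c : ℝ) * (1 / p) := by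
        refine sum_le_sum fun p hp => ?_
        rw [mul_one_div]
        have h3 : (ν p : ℝ) ≤ c := by exact_mod_cast (hν p (mem_filter.1 hp).1).2
        gcongr
      refine h2.trans (sum_le_sum_of_subset_of_nonneg ?_ fun _ _ _ => by positivity)
      intro p hp
      rw [mem_filter, mem_PS] at hp
      exact Pool.Agent.H373R2.T7.mem_pz.2 ⟨hp.1.1.2, hp.1.2⟩
    rw [← mul_sum] at h1
    exact h1.trans (mul_le_mul_of_nonneg_left (Pool.Agent.H373R2.T7.sum_pz_le y)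
      (Nat.cast_nonneg c))
  have hexp : 1 ≤ Real.exp c * (y : ℝ) ^ c * Real.exp (-S) := by
    have h1 : (y : ℝ) ^ c = Real.exp (c * Real.log y) := by
      rw [mul_comm, Real.exp_mul, Real.exp_log (by linarith), Real.rpow_natCast]
    rw [h1, ← Real.exp_add, ← Real.exp_add]
    apply Real.one_le_exp
    linarith
  -- the sum of the errors
  have hE : ∑ T ∈ P.powerset.filter (fun T : Finset ℕ => ∏ p ∈ T, p ≤ D),
      (∏ p ∈ T, (ν p : ℝ)) * ((X : ℝ) / L) ≤ 2 * (D : ℝ) ^ 2 * (X / L) := by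
    have hD1 : 1 ≤ D := Nat.one_le_pow _ _ (by positivity)
    have h1 : ∀ T ∈ P.powerset.filter (fun T : Finset ℕ => ∏ p ∈ T, p ≤ D),
        (∏ p ∈ T, (ν p : ℝ)) * ((X : ℝ) / L) ≤ D * (X / L) := by
      intro T hT
      rw [mem_filter, mem_powerset] at hT
      refine mul_le_mul_of_nonneg_right ?_ (by positivity)
      calc ∏ p ∈ T, (ν p : ℝ) ≤ ∏ p ∈ T, (p : ℝ) := by
            refine prod_le_prod (fun _ _ => Nat.cast_nonneg _) fun p hp => ?_
            exact (hνc p (hT.1 hp)).trans (by exact_mod_cast (hcp p (hT.1 hp)).le)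
        _ = ((∏ p ∈ T, p : ℕ) : ℝ) := by push_cast; rfl
        _ ≤ D := by exact_mod_cast hT.2
    refine (sum_le_sum h1).trans ?_
    rw [sum_const, nsmul_eq_mul]
    have h2 : (P.powerset.filter (fun T : Finset ℕ => ∏ p ∈ T, p ≤ D)).card ≤ D + 1 := by
      rw [← card_range (D + 1)]
      apply card_le_card_of_injOn (fun T => ∏ p ∈ T, p)
      · intro T hT
        rw [mem_coe, mem_filter] at hT
        rw [mem_coe, mem_range]
        simp only
        omega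
      · intro T hT T' hT' h
        rw [mem_coe, mem_filter, mem_powerset] at hT hT'
        have h3 : ∀ U : Finset ℕ, U ⊆ P → (∏ p ∈ U, p).primeFactors = U := by
          intro U hU
          exact Nat.primeFactors_prod fun p hp => (hPp p (hU hp)).1
        rw [← h3 T hT.1, ← h3 T' hT'.1]
        exact congrArg Nat.primeFactors h
    have h3 : (((P.powerset.filter (fun T : Finset ℕ => ∏ p ∈ T, p ≤ D)).card : ℕ) : ℝ) ≤
        2 * D := by
      have h4 : (P.powerset.filter (fun T : Finset ℕ => ∏ p ∈ T, p ≤ D)).card ≤ 2 * D := by omega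
      exact_mod_cast h4
    calc _ ≤ 2 * (D : ℝ) * (D * (X / L)) := mul_le_mul_of_nonneg_right h3 (by positivity)
      _ = _ := by ring
  have herr : ((J : ℝ) + 2) * (2 * (D : ℝ) ^ 2 * (X / L)) ≤
      4 * Real.exp c * (X / m) * Real.exp (-S) := by
    have h1 : ((J : ℝ) + 2) ≤ 2 * y := by exact_mod_cast hJs
    have h2 : (D : ℝ) ≤ (y : ℝ) ^ (2 * C0 ^ 2) := by exact_mod_cast hDy
    have h3 : (D : ℝ) ^ 2 ≤ (y : ℝ) ^ (4 * C0 ^ 2) := by
      calc (D : ℝ) ^ 2 ≤ ((y : ℝ) ^ (2 * C0 ^ 2)) ^ 2 := pow_le_pow_left₀ (Nat.cast_nonneg _) h2 2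
        _ = (y : ℝ) ^ (4 * C0 ^ 2) := by rw [← pow_mul]; congr 1; ring
    have h4 : (m : ℝ) * (y : ℝ) ^ (4 * C0 ^ 2 + 1 + c) ≤ L := by exact_mod_cast hmyL
    have h5 : (X : ℝ) / L * (m * (y : ℝ) ^ (4 * C0 ^ 2 + 1 + c)) ≤ X := by
      calc (X : ℝ) / L * (m * (y : ℝ) ^ (4 * C0 ^ 2 + 1 + c)) ≤ X / L * L :=
            mul_le_mul_of_nonneg_left h4 (by positivity)
        _ = X := by field_simp
    have h6 : (X : ℝ) / L * (y : ℝ) ^ (4 * C0 ^ 2 + 1) * (y : ℝ) ^ c ≤ X / m := by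
      rw [le_div_iff₀ hmr]
      calc _ = (X : ℝ) / L * (m * (y : ℝ) ^ (4 * C0 ^ 2 + 1 + c)) := by
            rw [pow_add _ (4 * C0 ^ 2 + 1) c]; ring
        _ ≤ X := h5
    calc ((J : ℝ) + 2) * (2 * (D : ℝ) ^ 2 * (X / L))
        ≤ (2 * y) * (2 * (y : ℝ) ^ (4 * C0 ^ 2) * (X / L)) := by gcongr
      _ = 4 * ((X : ℝ) / L * (y : ℝ) ^ (4 * C0 ^ 2 + 1)) := by rw [pow_succ]; ring
      _ ≤ 4 * ((X : ℝ) / L * (y : ℝ) ^ (4 * C0 ^ 2 + 1)) *
          (Real.exp c * (y : ℝ) ^ c * Real.exp (-S)) :=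
          le_mul_of_one_le_right (by positivity) hexp
      _ = 4 * Real.exp c * ((X : ℝ) / L * (y : ℝ) ^ (4 * C0 ^ 2 + 1) * (y : ℝ) ^ c) *
          Real.exp (-S) := by ring
      _ ≤ 4 * Real.exp c * (X / m) * Real.exp (-S) := by gcongr
  rw [← hA] at hfl
  have h7 := (abs_le.1 hfl).2
  have h8 : ((1 : ℝ) / 2) ^ C0 ≤ 1 := pow_le_one₀ (by norm_num) (by norm_num)
  have h9 : ((1 : ℝ) / 2) ^ C0 * ((X : ℝ) / m * A) ≤ (X : ℝ) / m * A :=
    mul_le_of_le_one_left (by positivity) h8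
  have h10 : ((J : ℝ) + 2) * ∑ T ∈ P.powerset.filter (fun T : Finset ℕ => ∏ p ∈ T, p ≤ D),
      (∏ p ∈ T, (ν p : ℝ)) * ((X : ℝ) / L) ≤ ((J : ℝ) + 2) * (2 * (D : ℝ) ^ 2 * (X / L)) :=
    mul_le_mul_of_nonneg_left hE (by positivity)
  have h11 : (X : ℝ) / m * A ≤ X / m * (Real.exp (c * (1 + Real.log z1)) * Real.exp (-S)) :=
    mul_le_mul_of_nonneg_left hAS (by positivity)
  rw [← hS]
  refine hsub.trans ?_
  have : (2 * Real.exp (c * (1 + Real.log z1)) + 4 * Real.exp c) * ((X : ℝ) / m) *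
      Real.exp (-S) = 2 * (X / m * (Real.exp (c * (1 + Real.log z1)) * Real.exp (-S))) +
        4 * Real.exp c * (X / m) * Real.exp (-S) := by ring
  rw [this]
  linarith

end Pool.Agent.N870.SQ
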