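import Mathlib
import Pool.Agent.TH841.PT.CNTH
import Pool.Agent.N870.SQ.Sv

/-!
# The counting lemma for the values of a polynomial at the members of a sequence
(adaptation of `Pool.Agent.TH841.PT.CNTHf.cnth_of`)
-/

set_option autoImplicit false

namespace Pool.Agent.N870.SQ

open Finset Polynomial Pool.Agent.W262.RK Pool.Agent.TH841.PT

open Pool.Agent.W307.RT (S1 S2)
open Pool.Agent.H474R2.PG (rho)
open Pool.Agent.TH841.PT.CNTPf (eval_dvd_iff card_translate lift_unique Good ra wa ra_mem ra_congr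
  wa_congr congr_of exp_le_div mem_flt dvd_S1 dvd_S2 cop_sv cop_su)
open Pool.Agent.TH841.PT.CNTHf

/-- the indices `t` with given small prime factors of `D(α t)`, given types of the roots and given
signs (relative to the signs `σ`) at the primes of `T`, such that `G(α t)` has no prime factors in
`(z, y]` -/
noncomputable def SetA {Θ : Type} (D G : ℤ[X]) (τ : ℕ → ℤ → Θ) (σ : ℕ → ℤ → ℤ) (z y : ℕ)
    (α : ℕ → ℤ) (X s v u : ℕ) (E : ℕ → Θ) (T E' : Finset ℕ) : Finset ℕ := by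
  classical
  exact (Icc 1 X).filter (fun t : ℕ =>
    S1 z y (fun _ : Unit => D.eval (α t)) () = s ∧
    S2 z y (fun _ : Unit => D.eval (α t)) () = v ∧
    (u : ℤ) ∣ D.eval (α t) ∧
    (∀ p : ℕ, p.Prime → p ∣ s * v * u → τ p (α t) = E p) ∧
    (∀ p ∈ T, (jacobiSym (D.eval (α t) / p) p = σ p (α t) ↔ p ∈ E')) ∧
    ∀ p ∈ PS z y, ¬ (p : ℤ) ∣ G.eval (α t))

/-- CNTA: as `CNTH`, for sequences with a level of distribution. -/
def CNTA : Prop := ∀ c z : ℕ, 2 * c + 2 ≤ z → ∃ (C : ℝ) (K y0 : ℕ), 0 ≤ C ∧ 1 ≤ K ∧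
  ∀ D G : ℤ[X], GoodD D z c → Good2 D G z c → ∀ (Θ : Type) (τ : ℕ → ℤ → Θ) (σ : ℕ → ℤ → ℤ),
  (∀ p : ℕ, p.Prime → z < p → ∀ t : ℤ, τ p (t + p) = τ p t) →
  (∀ p : ℕ, p.Prime → z < p → ∀ t : ℤ, σ p (t + p) = σ p t ∧ (σ p t = 1 ∨ σ p t = -1)) →
  ∀ (α : ℕ → ℤ) (X L y Y : ℕ), Lev X L α → y0 ≤ y → z < y → y ^ K ≤ L →
  ∀ s v u : ℕ, s ∣ PP z y → v ∣ PP z y → u ∣ PP y Y → (s * v * u) ^ 8 ≤ L →
  ∀ (E : ℕ → Θ) (T E' : Finset ℕ), T ⊆ s.primeFactors →
    ((SetA D G τ σ z y α X s v u E T E').card : ℝ) ≤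
      C * X * (1 / 2) ^ T.card *
        (∏ p ∈ s.primeFactors, (rhoT D τ p (E p) : ℝ) / ((p : ℝ) - c)) *
        ((∏ p ∈ v.primeFactors, (rhoT D τ p (E p) : ℝ) / ((p : ℝ) - c)) / v) *
        ((∏ p ∈ u.primeFactors, (rhoT D τ p (E p) : ℝ)) / u) *
        Real.exp (-Sp (fun p => rho D p) z y) * Real.exp (-Sp (fun p => rho G p) z y)

theorem cnta : CNTA := by
  classical
  intro c z hcz
  obtain ⟨C, K, y0, hC, hK, hSV⟩ := sva c z hcz
  refine ⟨C, K, y0, hC, hK, ?_⟩
  intro D G hG hG2 Θ τ σ hτ hσ α X L y Y hα hy0 hzy hX s v u hs0 hv0 hu0 hsvu E T E' hTs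
  have hs : s ∈ (PP z y).divisors := Nat.mem_divisors.2 ⟨hs0, PP_ne_zero z y⟩
  have hv : v ∈ (PP z y).divisors := Nat.mem_divisors.2 ⟨hv0, PP_ne_zero z y⟩
  have hu : u ∈ (PP y Y).divisors := Nat.mem_divisors.2 ⟨hu0, PP_ne_zero y Y⟩
  have hz2 : 2 ≤ z := by omega
  set A := SetA D G τ σ z y α X s v u E T E' with hA
  have hgood : ∀ t ∈ A, t ∈ Icc 1 X ∧ Good D 0 z y s v u (α t) ∧
      (∀ p : ℕ, p.Prime → p ∣ s * v * u → τ p (0 + α t) = E p) ∧
      (∀ p ∈ T, (jacobiSym (D.eval (0 + α t) / p) p = σ p (0 + α t) ↔ p ∈ E')) ∧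
      ∀ p ∈ PS z y, ¬ (p : ℤ) ∣ G.eval (0 + α t) := by
    intro t ht
    rw [hA] at ht
    unfold SetA at ht
    have ht2 := mem_filter.1 ht
    simp only [zero_add]
    refine ⟨ht2.1, ⟨?_, ?_, ?_⟩, ht2.2.2.2.2⟩
    · simp only [zero_add]
      exact ht2.2.1
    · simp only [zero_add]
      exact ht2.2.2.1
    · simp only [zero_add]
      exact ht2.2.2.2.1
  have hρ : ∀ p, p.Prime → z < p → rho D p + rho G p ≤ c := fun p hp hz => (hG2 p hp hz).1
  have hpc : ∀ {d p : ℕ}, d ∈ (PP z y).divisors → p ∈ d.primeFactors →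
      (0 : ℝ) < (p : ℝ) - c ∧ c < p := by
    intro d p hd hp
    have h1 := (dv_prime hd (Nat.prime_of_mem_primeFactors hp) (Nat.dvd_of_mem_primeFactors hp)).1
    have h2 : c < p := by omega
    have h3 : (c : ℝ) < p := by exact_mod_cast h2
    exact ⟨by linarith, h2⟩
  have hgp : ∀ {d : ℕ}, d ∈ (PP z y).divisors →
      0 ≤ ∏ p ∈ d.primeFactors, (rhoT D τ p (E p) : ℝ) / ((p : ℝ) - c) := by
    intro d hd
    exact prod_nonneg fun p hp => div_nonneg (Nat.cast_nonneg _) (hpc hd hp).1.le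
  rcases A.eq_empty_or_nonempty with hTe | ⟨t0, ht0⟩
  · rw [hTe, card_empty, Nat.cast_zero]
    have h1 := hgp hs
    have h2 := hgp hv
    positivity
  have g0 := (hgood t0 ht0).2.1
  have hsv := cop_sv hs hv g0
  have hsu : s.Coprime u := cop_su hs hu
  have hvu : v.Coprime u := cop_su hv hu
  have hs1 := dv_pos hs
  have hv1 := dv_pos hv
  have hu1 := dv_pos hu
  set m := s ^ 2 * v ^ 2 * u with hm
  have hm1 : 1 ≤ m := Nat.succ_le_of_lt (by positivity)
  have hm4 : m ^ 4 ≤ L := by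
    refine le_trans ?_ hsvu
    have h1 : m ≤ (s * v * u) ^ 2 := by
      rw [hm]
      calc s ^ 2 * v ^ 2 * u ≤ s ^ 2 * v ^ 2 * (u * u) :=
            Nat.mul_le_mul_left _ (Nat.le_mul_of_pos_left u hu1)
        _ = (s * v * u) ^ 2 := by ring
    calc m ^ 4 ≤ ((s * v * u) ^ 2) ^ 4 := Nat.pow_le_pow_left h1 4
      _ = (s * v * u) ^ 8 := by rw [← pow_mul]
  -- the sieve system
  have hSVm := hSV X L y α hα hy0 hzy hX
    (fun p a => (p : ℤ) ∣ D.eval (0 + a) ∨ (p : ℤ) ∣ G.eval (0 + a))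
    (fun p => rho D p + rho G p)
    (by
      intro p hp a b hab
      have hcg : (p : ℤ) ∣ (0 + a) - (0 + b) := by simpa using hab
      exact or_congr (eval_dvd_iff D hcg) (eval_dvd_iff G hcg))
    (by
      intro p hp
      refine ⟨?_, hρ p (mem_PS.1 hp).2 (mem_PS.1 hp).1.1⟩
      have h1 := card_translate D 0 (mem_PS.1 hp).2.pos
      have h2 := card_translate G 0 (mem_PS.1 hp).2.pos
      have h3 : ((range p).filter (fun n : ℕ => (p : ℤ) ∣ D.eval (0 + (n : ℤ)) ∨
          (p : ℤ) ∣ G.eval (0 + (n : ℤ)))).card = rho D p + rho G p := by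
        rw [filter_or, card_union_of_disjoint, h1, h2]
        rw [disjoint_filter]
        intro n _ h4 h5
        exact (hG2 p (mem_PS.1 hp).2 (mem_PS.1 hp).1.1).2 _ ⟨h4, h5⟩
      convert h3)
    m
  set W : ℝ := Real.exp (-∑ p ∈ (PS z y).filter (fun p => ¬ p ∣ m),
    ((rho D p + rho G p : ℕ) : ℝ) / p) with hW
  set B : ℝ := C * (X / m) * W with hB
  have hB0 : 0 ≤ B := by positivity
  -- the map
  let P0 := (s * v * u).primeFactors
  let Phi : ℕ → (P0 → Σ _ : ℕ, ℕ) := fun t => fun p => ⟨ra (α t) p, wb D 0 s (α t) p⟩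
  let Tg : Finset (P0 → Σ _ : ℕ, ℕ) :=
    Fintype.piFinset (fun p : P0 => QT D τ σ 0 E s T E' p)
  have hsvu0 : s * v * u ≠ 0 := by positivity
  have hzp : ∀ p : ℕ, p.Prime → p ∣ s * v * u → z < p := by
    intro p hp hpd
    rcases hp.dvd_mul.1 hpd with h1 | h1
    · rcases hp.dvd_mul.1 h1 with h2 | h2
      · exact (dv_prime hs hp h2).1
      · exact (dv_prime hv hp h2).1
    · exact hzy.trans (dv_prime hu hp h1).1
  have hroot : ∀ t ∈ A, ∀ p : ℕ, p.Prime → p ∣ s * v * u → (p : ℤ) ∣ D.eval (0 + α t) := by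
    intro t ht p hp hpd
    have g := (hgood t ht).2.1
    rcases hp.dvd_mul.1 hpd with h1 | h1
    · rcases hp.dvd_mul.1 h1 with h2 | h2
      · exact (g.fs hp h2).2.1
      · exact (dvd_pow_self (p : ℤ) two_ne_zero).trans (g.fv hp h2).2
    · exact (Int.natCast_dvd_natCast.2 h1).trans g.hu
  have hmaps : ∀ t ∈ A, Phi t ∈ Tg := by
    intro t ht
    obtain ⟨-, g, hty, hsg, -⟩ := hgood t ht
    rw [Fintype.mem_piFinset]
    intro p
    have hp := Nat.prime_of_mem_primeFactors p.2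
    have hpd := Nat.dvd_of_mem_primeFactors p.2
    have hz := hzp p hp hpd
    exact mem_QT g hTs hp (hroot t ht p hp hpd) (hty p hp hpd) (hτ p hp hz)
      (fun t => (hσ p hp hz t).1) (fun t => (hσ p hp hz t).2) (fun hpT => hsg p hpT)
  have hfib : ∀ φ, ((A.filter (fun t : ℕ => Phi t = φ)).card : ℝ) ≤ B := by
    intro φ
    rcases (A.filter (fun t : ℕ => Phi t = φ)).eq_empty_or_nonempty with he | ⟨r, hr⟩
    · rw [he, card_empty, Nat.cast_zero]
      exact hB0
    · refine le_trans ?_ (hSVm (α r) hm1 hm4)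
      rw [Nat.cast_le]
      apply card_le_card
      intro t ht
      rw [mem_filter] at ht hr
      obtain ⟨htX, g, -, -, hGt⟩ := hgood t ht.1
      have g' := (hgood r hr.1).2.1
      have heq : Phi t = Phi r := ht.2.trans hr.2.symm
      have heq2 : ∀ p : ℕ, p.Prime → p ∣ s * v * u → ra (α t) p = ra (α r) p ∧
          wb D 0 s (α t) p = wb D 0 s (α r) p := by
        intro p hp hpd
        have h1 := congrFun heq ⟨p, Nat.mem_primeFactors.2 ⟨hp, hpd, hsvu0⟩⟩
        have h2 : (⟨ra (α t) p, wb D 0 s (α t) p⟩ : Σ _ : ℕ, ℕ) =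
          ⟨ra (α r) p, wb D 0 s (α r) p⟩ := h1
        rw [Sigma.mk.injEq] at h2
        exact ⟨h2.1, eq_of_heq h2.2⟩
      refine mem_flt htX ⟨?_, ?_⟩
      · have h1 := congr_of hG hs hv hu g g'
          (fun p hp hpd => (heq2 p hp hpd).1)
          (fun p hp hps => by
            have := (heq2 p hp ((hps.mul_right v).mul_right u)).2
            unfold wb at this
            rw [if_pos hps, if_pos hps] at this
            exact this)
        rw [← hm] at h1
        exact h1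
      · intro p hpP hpm hpf
        rcases hpf with hpf | hpf
        · have hp := (mem_PS.1 hpP).2
          apply hpm
          rw [hm]
          by_cases h2 : (p : ℤ) ^ 2 ∣ D.eval (0 + α t)
          · have h3 : p ∣ v := by
              rw [← g.hv]
              exact (dvd_S2 hp).2 ⟨hpP, h2⟩
            exact ((h3.pow two_ne_zero).mul_left _).mul_right _
          · have h3 : p ∣ s := by
              rw [← g.hs]
              exact (dvd_S1 hp).2 ⟨hpP, hpf, h2⟩
            exact ((h3.pow two_ne_zero).mul_right _).mul_right _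
        · exact hGt p hpP hpf
  have hcard : (A.card : ℝ) ≤ (Tg.card : ℝ) * B := by
    rw [card_eq_sum_card_fiberwise (f := Phi) (t := Tg) hmaps]
    rw [Nat.cast_sum]
    refine (sum_le_sum fun φ _ => hfib φ).trans ?_
    rw [sum_const, nsmul_eq_mul]
  have d1 : Disjoint s.primeFactors v.primeFactors := hsv.disjoint_primeFactors
  have d2 : Disjoint (s.primeFactors ∪ v.primeFactors) u.primeFactors := by
    rw [disjoint_union_left]
    exact ⟨hsu.disjoint_primeFactors, hvu.disjoint_primeFactors⟩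
  -- the number of values of the map
  have hTg : (Tg.card : ℝ) ≤ ((∏ p ∈ s.primeFactors, (rhoT D τ p (E p) : ℝ)) *
      ((1 / 2) ^ T.card * (s : ℝ))) *
      (∏ p ∈ v.primeFactors, (rhoT D τ p (E p) : ℝ)) *
      (∏ p ∈ u.primeFactors, (rhoT D τ p (E p) : ℝ)) := by
    have h1 : Tg.card = ∏ p ∈ P0, (QT D τ σ 0 E s T E' p).card := by
      rw [Fintype.card_piFinset]
      exact prod_coe_sort P0 (fun p => (QT D τ σ 0 E s T E' p).card)
    have h2 : P0 = (s.primeFactors ∪ v.primeFactors) ∪ u.primeFactors := by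
      change (s * v * u).primeFactors = _
      rw [Nat.primeFactors_mul (by positivity) hu1.ne', Nat.primeFactors_mul hs1.ne' hv1.ne']
    have h3 : (Tg.card : ℝ) ≤ ∏ p ∈ P0, ((rhoT D τ p (E p) : ℝ) *
        (if p ∈ T then 1 / 2 * (p : ℝ) else if p ∣ s then (p : ℝ) else 1)) := by
      rw [h1, Nat.cast_prod]
      refine prod_le_prod (fun _ _ => Nat.cast_nonneg _) fun p hp => ?_
      have hpp := Nat.prime_of_mem_primeFactors hp
      have hpd := Nat.dvd_of_mem_primeFactors hp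
      have hz := hzp p hpp hpd
      exact card_QT hpp (by omega) (hτ p hpp hz) (fun t => (hσ p hpp hz t).2)
    refine h3.trans (le_of_eq ?_)
    rw [h2, prod_union d2, prod_union d1]
    have h4 : ∏ p ∈ s.primeFactors, ((rhoT D τ p (E p) : ℝ) *
        (if p ∈ T then 1 / 2 * (p : ℝ) else if p ∣ s then (p : ℝ) else 1)) =
        (∏ p ∈ s.primeFactors, (rhoT D τ p (E p) : ℝ)) * ((1 / 2) ^ T.card * (s : ℝ)) := by
      rw [prod_mul_distrib]
      congr 1
      have h5 : ∏ p ∈ s.primeFactors,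
          (if p ∈ T then 1 / 2 * (p : ℝ) else if p ∣ s then (p : ℝ) else 1) =
          ∏ p ∈ s.primeFactors, ((if p ∈ T then (1 / 2 : ℝ) else 1) * (p : ℝ)) := by
        refine prod_congr rfl fun p hp => ?_
        rw [if_pos (Nat.dvd_of_mem_primeFactors hp)]
        split_ifs
        · rfl
        · rw [one_mul]
      rw [h5, prod_mul_distrib, prod_ite_mem, inter_eq_right.2 hTs, prod_const,
        ← Nat.cast_prod, Nat.prod_primeFactors_of_squarefree (dv_squarefree hs)]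
    have h6 : ∀ d : ℕ, Disjoint s.primeFactors d.primeFactors → s.Coprime d →
        ∏ p ∈ d.primeFactors, ((rhoT D τ p (E p) : ℝ) *
        (if p ∈ T then 1 / 2 * (p : ℝ) else if p ∣ s then (p : ℝ) else 1)) =
        ∏ p ∈ d.primeFactors, (rhoT D τ p (E p) : ℝ) := by
      intro d hd _
      refine prod_congr rfl fun p hp => ?_
      have hps : p ∉ s.primeFactors := fun h => disjoint_left.1 hd h hp
      have hps2 : ¬ p ∣ s := fun h =>
        hps (Nat.mem_primeFactors.2 ⟨Nat.prime_of_mem_primeFactors hp, h, hs1.ne'⟩)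
      rw [if_neg (fun h => hps (hTs h)), if_neg hps2, mul_one]
    rw [h4, h6 v d1 hsv, h6 u hsu.disjoint_primeFactors hsu]
  -- the exponential
  have hWle : W ≤ (Real.exp (-Sp (fun p => (rho D p : ℝ)) z y) *
      Real.exp (-Sp (fun p => (rho G p : ℝ)) z y)) *
      ((∏ p ∈ s.primeFactors, (p : ℝ) / ((p : ℝ) - c)) *
        ∏ p ∈ v.primeFactors, (p : ℝ) / ((p : ℝ) - c)) := by
    have h1 : (PS z y).filter (fun p => p ∣ m) = s.primeFactors ∪ v.primeFactors := by
      ext p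
      rw [mem_filter, mem_union]
      constructor
      · rintro ⟨hP, hpm⟩
        have hp := (mem_PS.1 hP).2
        rcases hp.dvd_mul.1 hpm with h1 | h1
        · rcases hp.dvd_mul.1 h1 with h2 | h2
          · exact Or.inl (Nat.mem_primeFactors.2 ⟨hp, hp.dvd_of_dvd_pow h2, hs1.ne'⟩)
          · exact Or.inr (Nat.mem_primeFactors.2 ⟨hp, hp.dvd_of_dvd_pow h2, hv1.ne'⟩)
        · exfalso
          have h2 := (dv_prime hu hp h1).1
          have h3 := (mem_PS.1 hP).1.2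
          omega
      · rintro (hp | hp)
        · have hpp := Nat.prime_of_mem_primeFactors hp
          have hd := Nat.dvd_of_mem_primeFactors hp
          exact ⟨mem_PS.2 ⟨dv_prime hs hpp hd, hpp⟩,
            ((hd.pow two_ne_zero).mul_right _).mul_right _⟩
        · have hpp := Nat.prime_of_mem_primeFactors hp
          have hd := Nat.dvd_of_mem_primeFactors hp
          exact ⟨mem_PS.2 ⟨dv_prime hv hpp hd, hpp⟩,
            ((hd.pow two_ne_zero).mul_left _).mul_right _⟩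
    have h2 : Sp (fun p => (rho D p : ℝ)) z y + Sp (fun p => (rho G p : ℝ)) z y =
        ∑ p ∈ (PS z y).filter (fun p => p ∣ m), ((rho D p + rho G p : ℕ) : ℝ) / p +
        ∑ p ∈ (PS z y).filter (fun p => ¬ p ∣ m), ((rho D p + rho G p : ℕ) : ℝ) / p := by
      rw [sum_filter_add_sum_filter_not]
      unfold Sp
      rw [← sum_add_distrib]
      refine sum_congr rfl fun p _ => ?_
      push_cast
      ring
    have h3 : ∀ {d : ℕ}, d ∈ (PP z y).divisors →
        Real.exp (∑ p ∈ d.primeFactors, ((rho D p + rho G p : ℕ) : ℝ) / p) ≤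
          ∏ p ∈ d.primeFactors, (p : ℝ) / ((p : ℝ) - c) := by
      intro d hd
      rw [Real.exp_sum]
      refine prod_le_prod (fun _ _ => (Real.exp_pos _).le) fun p hp => ?_
      have hpp := Nat.prime_of_mem_primeFactors hp
      have hzp := (dv_prime hd hpp (Nat.dvd_of_mem_primeFactors hp)).1
      exact exp_le_div (Nat.cast_nonneg _) (by exact_mod_cast hρ p hpp hzp) (hpc hd hp).2
    have h4 := mul_le_mul (h3 hs) (h3 hv) (Real.exp_pos _).le
      (prod_nonneg fun p hp => div_nonneg (Nat.cast_nonneg _) (hpc hs hp).1.le)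
    rw [← Real.exp_add] at h4
    have h5 : -∑ p ∈ (PS z y).filter (fun p => ¬ p ∣ m), ((rho D p + rho G p : ℕ) : ℝ) / p =
        (-Sp (fun p => (rho D p : ℝ)) z y + -Sp (fun p => (rho G p : ℝ)) z y) +
        (∑ p ∈ s.primeFactors, ((rho D p + rho G p : ℕ) : ℝ) / p +
         ∑ p ∈ v.primeFactors, ((rho D p + rho G p : ℕ) : ℝ) / p) := by
      have h6 : ∑ p ∈ (PS z y).filter (fun p => p ∣ m), ((rho D p + rho G p : ℕ) : ℝ) / p =
          ∑ p ∈ s.primeFactors, ((rho D p + rho G p : ℕ) : ℝ) / p +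
         ∑ p ∈ v.primeFactors, ((rho D p + rho G p : ℕ) : ℝ) / p := by
        rw [h1, sum_union d1]
      linarith
    rw [hW, h5, Real.exp_add, Real.exp_add (-Sp (fun p => (rho D p : ℝ)) z y)]
    exact mul_le_mul_of_nonneg_left h4 (by positivity)
  -- conclusion
  have hRs : 0 ≤ ∏ p ∈ s.primeFactors, (rhoT D τ p (E p) : ℝ) :=
    prod_nonneg fun _ _ => Nat.cast_nonneg _
  have hRv : 0 ≤ ∏ p ∈ v.primeFactors, (rhoT D τ p (E p) : ℝ) :=
    prod_nonneg fun _ _ => Nat.cast_nonneg _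
  have hRu : 0 ≤ ∏ p ∈ u.primeFactors, (rhoT D τ p (E p) : ℝ) :=
    prod_nonneg fun _ _ => Nat.cast_nonneg _
  have hfin : (Tg.card : ℝ) * B ≤
      (((∏ p ∈ s.primeFactors, (rhoT D τ p (E p) : ℝ)) *
      ((1 / 2) ^ T.card * (s : ℝ))) *
      (∏ p ∈ v.primeFactors, (rhoT D τ p (E p) : ℝ)) *
      (∏ p ∈ u.primeFactors, (rhoT D τ p (E p) : ℝ))) * (C * (X / m) *
      ((Real.exp (-Sp (fun p => (rho D p : ℝ)) z y) *
      Real.exp (-Sp (fun p => (rho G p : ℝ)) z y)) *
      ((∏ p ∈ s.primeFactors, (p : ℝ) / ((p : ℝ) - c)) *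
        ∏ p ∈ v.primeFactors, (p : ℝ) / ((p : ℝ) - c)))) := by
    apply mul_le_mul hTg _ hB0 (by positivity)
    rw [hB]
    exact mul_le_mul_of_nonneg_left hWle (by positivity)
  refine hcard.trans (hfin.trans (le_of_eq ?_))
  have hkey : ∀ {d : ℕ}, d ∈ (PP z y).divisors →
      (∏ p ∈ d.primeFactors, (rhoT D τ p (E p) : ℝ)) *
        ∏ p ∈ d.primeFactors, (p : ℝ) / ((p : ℝ) - c) =
        (d : ℝ) * ∏ p ∈ d.primeFactors, (rhoT D τ p (E p) : ℝ) / ((p : ℝ) - c) := by
    intro d hd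
    have h1 : (d : ℝ) = ∏ p ∈ d.primeFactors, (p : ℝ) := by
      rw [← Nat.cast_prod, Nat.prod_primeFactors_of_squarefree (dv_squarefree hd)]
    conv_rhs => rw [h1]
    rw [← prod_mul_distrib, ← prod_mul_distrib]
    refine prod_congr rfl fun p _ => ?_
    ring
  have ks := hkey hs
  have kv := hkey hv
  have hs' : (s : ℝ) ≠ 0 := by exact_mod_cast hs1.ne'
  have hv' : (v : ℝ) ≠ 0 := by exact_mod_cast hv1.ne'
  have hu' : (u : ℝ) ≠ 0 := by exact_mod_cast hu1.ne'
  have hmr : (m : ℝ) = (s : ℝ) ^ 2 * (v : ℝ) ^ 2 * u := by rw [hm]; push_cast; ring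
  rw [hmr]
  have e1 : ∀ A1 A2 B1 B2 Q H V V' : ℝ, ((A1 * (H * (s : ℝ))) * A2 * Q) *
      (C * (X / ((s : ℝ) ^ 2 * (v : ℝ) ^ 2 * u)) * ((V * V') * (B1 * B2))) =
      ((A1 * B1) * (A2 * B2)) * (Q * H * C * X * V * V' / ((s : ℝ) * (v : ℝ) ^ 2 * u)) := by
    intro A1 A2 B1 B2 Q H V V'
    field_simp
  rw [e1, ks, kv]
  field_simp


end Pool.Agent.N870.SQ
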