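import Mathlib
import Pool.Agent.N870.RG.Fix
import Pool.Agent.N870.SQ.Avg

/-!
# All moments for a fixed curve over varying fields along a sequence with a level of distribution

Seat helper870.
-/

set_option autoImplicit false

namespace Pool.Agent.N870.SQ

open Finset Polynomial Filter Pool.Agent.TH841.PT

open Pool.Agent.TH841.TR.N870 (Rgh)

open Pool.Agent.TH841.PT.N870 (exists_lin)

open Pool.Agent.W307.SE (SN SelR SN_nonneg)

variable {r : ℕ}

/-- the sum of `S` over the members of the sequence with the property `Q` is at most `K` -/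
def LeA (S : ℤ → ℝ) (Q : ℤ → Prop) (α : ℕ → ℤ) (X : ℕ) (K : ℝ) : Prop :=
  ∀ T : Finset ℕ, T ⊆ Icc 1 X → (∀ t ∈ T, Q (α t)) → ∑ t ∈ T, S (α t) ≤ K

lemma LeA.mono {S : ℤ → ℝ} {Q Q' : ℤ → Prop} {α : ℕ → ℤ} {X : ℕ} {K K' : ℝ}
    (h : LeA S Q α X K) (hQ : ∀ t, Q' t → Q t) (hK : K ≤ K') : LeA S Q' α X K' :=
  fun T hT hT' => (h T hT fun t ht => hQ _ (hT' t ht)).trans hK

/-- a sequence with the level of distribution `L`, with values of size at most `L ^ B` -/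
structure Adm (B X L : ℕ) (α : ℕ → ℤ) : Prop where
  two : 2 ≤ L
  lev : Lev X L α
  bd : ∀ t ∈ Icc 1 X, (α t).natAbs ≤ L ^ B

lemma Lev.mono {X L L' : ℕ} {α : ℕ → ℤ} (h : Lev X L α) (h1 : 1 ≤ L') (h2 : L' ≤ L) :
    Lev X L' α := by
  intro m hm hmL r
  refine (h m hm (hmL.trans h2) r).trans ?_
  have h3 : (0 : ℝ) < L' := by exact_mod_cast h1
  have h4 : (L' : ℝ) ≤ L := by exact_mod_cast h2
  exact div_le_div_of_nonneg_left (Nat.cast_nonneg _) h3 h4

/-- the choice of a smaller level -/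
lemma level {δ : ℝ} (hδ : 0 < δ) (B : ℕ) : ∃ B' : ℕ, ∀ (X L : ℕ) (α : ℕ → ℤ), Adm B X L α →
    2 ≤ (L : ℝ) ^ (min δ (1 / 2)) → ∃ L' : ℕ, Adm B' X L' α ∧ (L' : ℝ) ≤ ((L : ℝ) ^ δ) ^ 2 ∧
      min δ (1 / 2) * Real.log L ≤ Real.log L' := by
  set d : ℝ := min δ (1 / 2) with hd
  have hd0 : 0 < d := lt_min hδ (by norm_num)
  have hd2 : d ≤ 1 / 2 := min_le_right _ _
  have hdδ : d ≤ δ := min_le_left _ _
  set B' : ℕ := ⌈(B : ℝ) / d⌉₊ with hB'
  have hBd : (B : ℝ) ≤ d * B' := by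
    have : (B : ℝ) / d ≤ B' := Nat.le_ceil _
    rw [div_le_iff₀ hd0] at this
    linarith
  refine ⟨B', fun X L α hA hge => ?_⟩
  have hL0 : (0 : ℝ) < L := by exact_mod_cast (by have := hA.two; omega : 0 < L)
  have hL1 : (1 : ℝ) ≤ L := by exact_mod_cast (by have := hA.two; omega : 1 ≤ L)
  set x : ℝ := (L : ℝ) ^ d with hx
  have hxx : (L : ℝ) ^ (2 * d) = x ^ 2 := by
    rw [hx, ← Real.rpow_natCast, ← Real.rpow_mul hL0.le]
    congr 1
    push_cast
    ring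
  set L' : ℕ := ⌊(L : ℝ) ^ (2 * d)⌋₊ with hL'
  have h1 : (L' : ℝ) ≤ x ^ 2 := by
    rw [← hxx]
    exact Nat.floor_le (Real.rpow_nonneg hL0.le _)
  have h2 : x ^ 2 < (L' : ℝ) + 1 := by
    rw [← hxx]
    exact Nat.lt_floor_add_one _
  have h3 : x ≤ L' := by nlinarith
  have h4 : (L' : ℝ) ≤ L := by
    refine h1.trans ?_
    rw [← hxx]
    calc (L : ℝ) ^ (2 * d) ≤ (L : ℝ) ^ (1 : ℝ) :=
          Real.rpow_le_rpow_of_exponent_le hL1 (by linarith)
      _ = L := Real.rpow_one _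
  have h4' : L' ≤ L := by exact_mod_cast h4
  have h5 : 2 ≤ L' := by
    have : (2 : ℝ) ≤ L' := hge.trans h3
    exact_mod_cast this
  have hLB : L ^ B ≤ L' ^ B' := by
    have : (L : ℝ) ^ B ≤ (L' : ℝ) ^ B' := by
      calc (L : ℝ) ^ B = (L : ℝ) ^ ((B : ℕ) : ℝ) := (Real.rpow_natCast _ _).symm
        _ ≤ (L : ℝ) ^ (d * B') := Real.rpow_le_rpow_of_exponent_le hL1 hBd
        _ = x ^ B' := by rw [hx, ← Real.rpow_natCast, ← Real.rpow_mul hL0.le]
        _ ≤ (L' : ℝ) ^ B' := pow_le_pow_left₀ (by linarith) h3 B'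
    exact_mod_cast this
  refine ⟨L', ⟨h5, hA.lev.mono (by omega) h4', fun t ht => (hA.bd t ht).trans hLB⟩, ?_, ?_⟩
  · refine h1.trans (pow_le_pow_left₀ (by positivity) ?_ 2)
    exact Real.rpow_le_rpow_of_exponent_le hL1 hdδ
  · rw [← Real.log_rpow hL0]
    exact Real.log_le_log (by linarith) h3

/-- from sifted to rough arguments -/
lemma rough_of_sftA (S : ℤ → ℝ) (Qp : ℤ → Prop) (G : Fin r → ℤ[X])
    (h1 : ∀ B : ℕ, ∃ z₀ : ℕ, ∀ z, z₀ ≤ z → ∃ C : ℝ, 0 ≤ C ∧ ∀ (X L : ℕ) (α : ℕ → ℤ),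
      Adm B X L α → LeA S (fun t => Qp t ∧ Sft (∏ i, G i) z L t) α X
        (C * (X / (Real.log L) ^ r)))
    (h2 : ∀ B : ℕ, ∃ C : ℝ, 0 ≤ C ∧ ∀ (X L : ℕ) (α : ℕ → ℤ), Adm B X L α → LeA S Qp α X (C * X))
    (B : ℕ) (δ : ℝ) (hδ : 0 < δ) (z : ℕ) :
    ∃ C : ℝ, 0 ≤ C ∧ ∀ (X L : ℕ) (α : ℕ → ℤ), Adm B X L α →
      LeA S (fun t => Qp t ∧ Rgh (∏ i, G i) z ((L : ℝ) ^ δ) t) α X
        (C * (X / (Real.log L) ^ r)) := by
  obtain ⟨B', hB'⟩ := level hδ B
  obtain ⟨z₀, hz₀⟩ := h1 B'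
  obtain ⟨C1, hC10, hC1⟩ := hz₀ (max z z₀) (le_max_right _ _)
  obtain ⟨C2, hC20, hC2⟩ := h2 B
  have hd0 : 0 < min δ (1 / 2) := lt_min hδ (by norm_num)
  refine ⟨C1 * (1 / min δ (1 / 2)) ^ r + C2 * (1 / min δ (1 / 2)) ^ r, by positivity,
    fun X L α hA => ?_⟩
  have hL0 : (0 : ℝ) < L := by exact_mod_cast (by have := hA.two; omega : 0 < L)
  have hL1 : (1 : ℝ) < L := by exact_mod_cast (by have := hA.two; omega : 1 < L)
  have hlL : 0 < Real.log L := Real.log_pos hL1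
  have hlLr : 0 < (Real.log L) ^ r := pow_pos hlL r
  rcases lt_or_ge ((L : ℝ) ^ (min δ (1 / 2))) 2 with hlt | hge
  · have h2 : Real.log L ≤ 1 / min δ (1 / 2) := by
      rw [le_div_iff₀ hd0]
      have h2 : Real.log ((L : ℝ) ^ (min δ (1 / 2))) ≤ Real.log 2 :=
        Real.log_le_log (Real.rpow_pos_of_pos hL0 _) hlt.le
      rw [Real.log_rpow hL0] at h2
      have := Real.log_two_lt_d9
      linarith
    refine (hC2 X L α hA).mono (fun t ht => ht.1) ?_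
    have h4 : (Real.log L) ^ r ≤ (1 / min δ (1 / 2)) ^ r := pow_le_pow_left₀ hlL.le h2 r
    have h5 : C2 * X ≤ C2 * (1 / min δ (1 / 2)) ^ r * (X / (Real.log L) ^ r) := by
      rw [mul_assoc, mul_div_assoc']
      refine mul_le_mul_of_nonneg_left ?_ hC20
      rw [le_div_iff₀ hlLr]
      nlinarith [Nat.cast_nonneg (α := ℝ) X]
    have h6 : 0 ≤ C1 * (1 / min δ (1 / 2)) ^ r * (X / (Real.log L) ^ r) := by positivity
    rw [add_mul]
    linarith
  · obtain ⟨L', hA', hsq, hlog⟩ := hB' X L α hA hge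
    refine (hC1 X L' α hA').mono (fun t ht => ⟨ht.1, fun p hp hzp hp2 => ht.2 p hp
      (lt_of_le_of_lt (le_max_left _ _) hzp) ?_⟩) ?_
    · have g1 : ((p : ℝ)) ^ 2 ≤ ((L : ℝ) ^ δ) ^ 2 := by
        refine le_trans ?_ hsq
        exact_mod_cast hp2
      exact (pow_le_pow_iff_left₀ (Nat.cast_nonneg _) (by positivity) (by norm_num)).1 g1
    · have hd1 : 0 < min δ (1 / 2) * Real.log L := mul_pos hd0 hlL
      have h7 : (X : ℝ) / (Real.log L') ^ r ≤ (1 / min δ (1 / 2)) ^ r *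
          (X / (Real.log L) ^ r) := by
        calc (X : ℝ) / (Real.log L') ^ r ≤ X / (min δ (1 / 2) * Real.log L) ^ r :=
              div_le_div_of_nonneg_left (Nat.cast_nonneg _) (pow_pos hd1 r)
                (pow_le_pow_left₀ hd1.le hlog r)
          _ = _ := by
            generalize min δ (1 / 2) = d at hd0
            rw [mul_pow, div_pow, one_pow]
            field_simp
      have h6 : 0 ≤ C2 * (1 / min δ (1 / 2)) ^ r * (X / (Real.log L) ^ r) := by positivity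
      calc C1 * ((X : ℝ) / (Real.log L') ^ r) ≤ C1 * ((1 / min δ (1 / 2)) ^ r *
          (X / (Real.log L) ^ r)) := mul_le_mul_of_nonneg_left h7 hC10
        _ ≤ _ := by
          rw [add_mul]
          linarith

/-- the moments over sifted arguments -/
theorem hdA_sft {G : Fin r → ℤ[X]} (hG : Irr G) (a : Fin 3 → ℤ) (ha : ∀ k, a k ≠ 0)
    (ha2 : a 0 - a 1 = a 2) (D H : ℤ[X]) (hD : 0 < D.natDegree)
    (hDG : Squarefree (mQ (D * ∏ i, G i))) (zH : ℕ)
    (hH : ∀ p : ℕ, p.Prime → zH < p → ∀ t : ℤ, (p : ℤ) ∣ H.eval t → (p : ℤ) ∣ (∏ i, G i).eval t)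
    (k B : ℕ) :
    ∃ z₀ : ℕ, ∀ z, z₀ ≤ z → ∃ C : ℝ, 0 ≤ C ∧ ∀ (X L : ℕ) (α : ℕ → ℤ), Adm B X L α →
      LeA (fun t => SN (a 0 * (H * D).eval t) (a 1 * (H * D).eval t) ^ k)
        (fun t => (H * D).eval t ≠ 0 ∧ Sft (∏ i, G i) z L t) α X
        (C * (X / (Real.log L) ^ r)) := by
  set k' := k + 2 * (D * ∏ i, G i).natDegree with hk'
  have hk2 : 2 * (D * ∏ i, G i).natDegree ≤ 4 ^ k' := by
    have h1 : k' < 4 ^ k' := Nat.lt_pow_self (by norm_num)
    omega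
  obtain ⟨z1, hz1⟩ := avgA SN_nonneg (Pool.Agent.W307.SE.r4 Pool.Agent.TH639.SL.sel4b) antx
    RSPf.rsp RVU.rvp RVU.rup GDPf.gdp Pool.Agent.W925.RS.subbk makp a D (∏ i, G i) H k' B ha ha2
    hDG hD hk2 zH hH
  obtain ⟨z2, hz2⟩ := exp_prod GDPf.gdp hG
  refine ⟨z1 + z2, fun z hz => ?_⟩
  obtain ⟨C1, hC1⟩ := hz1 z (by omega)
  obtain ⟨C2, hC20, hC2⟩ := hz2 z (by omega)
  refine ⟨|C1| * C2, by positivity, fun X L α hA T hT hT' => ?_⟩
  have hge : ∀ t, (H * D).eval t ≠ 0 → 1 ≤ SN (a 0 * (H * D).eval t) (a 1 * (H * D).eval t) := by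
    intro t ht
    refine one_le_SN (mul_ne_zero (ha 0) ht) (mul_ne_zero (ha 1) ht) ?_
    intro h0
    have h1 : (a 0 - a 1) * (H * D).eval t = 0 := by
      rw [sub_mul, h0, sub_self]
    rw [ha2] at h1
    exact mul_ne_zero (ha 2) ht h1
  have h1 : ∑ t ∈ T, SN (a 0 * (H * D).eval (α t)) (a 1 * (H * D).eval (α t)) ^ k ≤
      ∑ t ∈ T, SN (a 0 * (H * D).eval (α t)) (a 1 * (H * D).eval (α t)) ^ k' := by
    refine sum_le_sum fun t ht => ?_
    exact pow_le_pow_right₀ (hge (α t) (hT' t ht).1) (by omega)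
  refine h1.trans ((hC1 X L α (by have := hA.two; omega) hA.lev hA.bd T hT hT').trans ?_)
  calc C1 * (X * Real.exp (-Sp (fun p => (Pool.Agent.H474R2.PG.rho (∏ i, G i) p : ℝ)) z L))
      ≤ |C1| * (X * Real.exp (-Sp (fun p =>
        (Pool.Agent.H474R2.PG.rho (∏ i, G i) p : ℝ)) z L)) :=
        mul_le_mul_of_nonneg_right (le_abs_self _) (by positivity)
    _ ≤ |C1| * (X * (C2 / (Real.log L) ^ r)) :=
        mul_le_mul_of_nonneg_left (mul_le_mul_of_nonneg_left (hC2 L hA.two)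
          (Nat.cast_nonneg _)) (abs_nonneg _)
    _ = _ := by ring

lemma irr_zero : Irr (fun i : Fin 0 => (i.elim0 : ℤ[X])) :=
  ⟨fun j => j.elim0, fun j => j.elim0, fun j => j.elim0⟩

/-- all the moments, squarefree polynomials -/
theorem snA_sq (a : Fin 3 → ℤ) (ha : ∀ k, a k ≠ 0) (ha2 : a 0 - a 1 = a 2) (P : ℤ[X])
    (hP : Squarefree (mQ P)) (k B : ℕ) :
    ∃ C : ℝ, 0 ≤ C ∧ ∀ (X L : ℕ) (α : ℕ → ℤ), Adm B X L α →
      LeA (fun t => SN (a 0 * P.eval t) (a 1 * P.eval t) ^ k) (fun t => P.eval t ≠ 0) α X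
        (C * X) := by
  by_cases hd : 0 < P.natDegree
  · obtain ⟨z₀, hz₀⟩ := hdA_sft irr_zero a ha ha2 P 1 hd (by simpa using hP) 0
      (fun p hp _ t hdv => by
        rw [eval_one] at hdv
        exact absurd hdv (Nat.prime_iff_prime_int.1 hp).not_dvd_one) k B
    obtain ⟨C, hC0, hC⟩ := hz₀ z₀ le_rfl
    refine ⟨C, hC0, fun X L α hA => ?_⟩
    have h1 := hC X L α hA
    simp only [one_mul, pow_zero, div_one] at h1
    refine h1.mono (fun t ht => ⟨ht, fun p hp _ _ hdv => ?_⟩) le_rfl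
    simp only [univ_eq_empty, prod_empty, eval_one] at hdv
    exact (Nat.prime_iff_prime_int.1 hp).not_dvd_one hdv
  · obtain ⟨c, hc⟩ : ∃ c : ℤ, P = C c :=
      ⟨P.coeff 0, Polynomial.eq_C_of_natDegree_eq_zero (by omega)⟩
    have h0 : 0 ≤ SN (a 0 * c) (a 1 * c) ^ k := pow_nonneg (SN_nonneg _ _) _
    refine ⟨SN (a 0 * c) (a 1 * c) ^ k, h0, fun X L α hA T hT hT' => ?_⟩
    rw [hc]
    simp only [eval_C]
    rw [sum_const, nsmul_eq_mul, mul_comm]
    refine mul_le_mul_of_nonneg_left ?_ h0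
    have := card_le_card hT
    rw [Nat.card_Icc, Nat.add_sub_cancel] at this
    exact_mod_cast this

/-- the moments at rough arguments -/
theorem hdA_rough {G : Fin r → ℤ[X]} (hG : Irr G) (a : Fin 3 → ℤ) (ha : ∀ k, a k ≠ 0)
    (ha2 : a 0 - a 1 = a 2) (D H : ℤ[X]) (hD : 0 < D.natDegree)
    (hDG : Squarefree (mQ (D * ∏ i, G i))) (hHD : Squarefree (mQ (H * D))) (zH : ℕ)
    (hH : ∀ p : ℕ, p.Prime → zH < p → ∀ t : ℤ, (p : ℤ) ∣ H.eval t → (p : ℤ) ∣ (∏ i, G i).eval t)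
    (k B : ℕ) (δ : ℝ) (hδ : 0 < δ) (z : ℕ) :
    ∃ C : ℝ, 0 ≤ C ∧ ∀ (X L : ℕ) (α : ℕ → ℤ), Adm B X L α →
      LeA (fun t => SN (a 0 * (H * D).eval t) (a 1 * (H * D).eval t) ^ k)
        (fun t => (H * D).eval t ≠ 0 ∧ Rgh (∏ i, G i) z ((L : ℝ) ^ δ) t) α X
        (C * (X / (Real.log L) ^ r)) :=
  rough_of_sftA (fun t => SN (a 0 * (H * D).eval t) (a 1 * (H * D).eval t) ^ k)
    (fun t => (H * D).eval t ≠ 0) G
    (fun B => hdA_sft hG a ha ha2 D H hD hDG zH hH k B)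
    (fun B => snA_sq a ha ha2 (H * D) hHD k B) B δ hδ z

lemma pow_log_le (r : ℕ) : ∃ K : ℝ, 0 ≤ K ∧ ∀ L : ℕ, 2 ≤ L → 1 / (L : ℝ) ≤ K / (Real.log L) ^ r := by
  refine ⟨(r.factorial : ℝ), by positivity, fun L hL => ?_⟩
  have hL0 : (0 : ℝ) < L := by exact_mod_cast (by omega : 0 < L)
  have hL1 : (1 : ℝ) < L := by exact_mod_cast (by omega : 1 < L)
  have hl : 0 < Real.log L := Real.log_pos hL1
  rw [div_le_div_iff₀ hL0 (pow_pos hl r), one_mul]
  have h1 := Real.pow_div_factorial_le_exp (Real.log L) hl.le r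
  rw [Real.exp_log hL0, div_le_iff₀ (by positivity)] at h1
  linarith

/-- the number of the rough arguments -/
theorem countA {G : Fin r → ℤ[X]} (hG : Irr G) (B : ℕ) (δ : ℝ) (hδ : 0 < δ) (z : ℕ) :
    ∃ C : ℝ, 0 ≤ C ∧ ∀ (X L : ℕ) (α : ℕ → ℤ), Adm B X L α →
      LeA (fun _ => 1) (fun t => Rgh (∏ i, G i) z ((L : ℝ) ^ δ) t) α X
        (C * (X / (Real.log L) ^ r)) := by
  classical
  obtain ⟨m, hm1, hm2⟩ := exists_lin hG
  obtain ⟨C, hC0, hC⟩ := hdA_rough hG ![2, 1, 1] (by intro k; fin_cases k <;> simp)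
      (by simp) (X - C m) 1 (by rw [natDegree_X_sub_C]; exact one_pos) hm1 hm2 0
      (fun p hp _ t hd => by
        rw [eval_one] at hd
        exact absurd hd (Nat.prime_iff_prime_int.1 hp).not_dvd_one) 1 B δ hδ z
  obtain ⟨K, hK0, hK⟩ := pow_log_le r
  refine ⟨C + 2 * K, by positivity, fun X L α hA T hT hT' => ?_⟩
  have hL2 := hA.two
  have hne : ∀ t : ℤ, t ≠ m → (1 * (Polynomial.X - Polynomial.C m) : ℤ[X]).eval t ≠ 0 := by
    intro t ht
    rw [one_mul, eval_sub, eval_X, eval_C]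
    exact sub_ne_zero.2 ht
  have h1 := hC X L α hA (T.filter (fun i => α i ≠ m)) ((filter_subset _ _).trans hT)
    (fun i hi => ⟨hne _ (mem_filter.1 hi).2, hT' i (mem_filter.1 hi).1⟩)
  have h2 : (((T.filter (fun i => α i ≠ m)).card : ℝ)) ≤ C * (X / (Real.log L) ^ r) := by
    refine le_trans ?_ h1
    have h4 : ((T.filter (fun i => α i ≠ m)).card : ℝ) =
        ∑ t ∈ T.filter (fun i => α i ≠ m), (1 : ℝ) := by simp
    rw [h4]
    refine sum_le_sum fun t ht => ?_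
    have hn := hne (α t) (mem_filter.1 ht).2
    beta_reduce
    rw [pow_one]
    refine one_le_SN (mul_ne_zero (by simp) hn) (mul_ne_zero (by simp) hn) ?_
    intro h0
    have : (2 : ℤ) * (1 * (Polynomial.X - Polynomial.C m) : ℤ[X]).eval (α t) =
      1 * (1 * (Polynomial.X - Polynomial.C m) : ℤ[X]).eval (α t) := h0
    apply hn
    linarith
  have h3 : (((T.filter (fun i => ¬ α i ≠ m)).card : ℝ)) ≤ 2 * (X * (1 / (L : ℝ))) := by
    have e1 := hA.lev L (by omega) le_rfl m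
    have e2 := (abs_le.1 e1).2
    have e3 : (((T.filter (fun i => ¬ α i ≠ m)).card : ℝ)) ≤
        (((Icc 1 X).filter (fun i : ℕ => (L : ℤ) ∣ α i - m)).card : ℝ) := by
      have : (T.filter (fun i => ¬ α i ≠ m)).card ≤
          ((Icc 1 X).filter (fun i : ℕ => (L : ℤ) ∣ α i - m)).card := by
        refine card_le_card fun i hi => ?_
        rw [mem_filter] at hi ⊢
        refine ⟨hT hi.1, ?_⟩
        rw [not_not.1 hi.2, sub_self]
        exact dvd_zero _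
      exact_mod_cast this
    have e4 : (X : ℝ) * (1 / (L : ℝ)) = X / L := by ring
    rw [e4]
    linarith
  have h5 : (T.card : ℝ) = ((T.filter (fun i => α i ≠ m)).card : ℝ) +
      ((T.filter (fun i => ¬ α i ≠ m)).card : ℝ) := by
    exact_mod_cast (card_filter_add_card_filter_not (fun i => α i ≠ m)).symm
  have h6 : (X : ℝ) * (1 / (L : ℝ)) ≤ X * (K / (Real.log L) ^ r) :=
    mul_le_mul_of_nonneg_left (hK L hL2) (Nat.cast_nonneg _)
  rw [sum_const, nsmul_eq_mul, mul_one, h5]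
  calc _ ≤ C * (X / (Real.log L) ^ r) + 2 * (X * (K / (Real.log L) ^ r)) := by linarith
    _ = _ := by ring

/-- few large primes divide a number of bounded size -/
lemma card_big (n : ℕ) (hn : n ≠ 0) (y : ℝ) (hy : 1 < y) (K : ℝ) (hK : (n : ℝ) ≤ y ^ K) :
    (((n.primeFactors.filter (fun p : ℕ => y < p)).card : ℝ)) ≤ K := by
  have h1 : ∏ p ∈ n.primeFactors.filter (fun p : ℕ => y < p), p ≤ n := by
    refine Nat.le_of_dvd (Nat.pos_of_ne_zero hn) ?_
    exact (Finset.prod_dvd_prod_of_subset _ _ _ (filter_subset _ _)).trans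
      (Nat.prod_primeFactors_dvd n)
  have h2 : y ^ ((n.primeFactors.filter (fun p : ℕ => y < p)).card) ≤ (n : ℝ) := by
    calc y ^ ((n.primeFactors.filter (fun p : ℕ => y < p)).card)
        = ∏ p ∈ n.primeFactors.filter (fun p : ℕ => y < p), y := by rw [prod_const]
      _ ≤ ∏ p ∈ n.primeFactors.filter (fun p : ℕ => y < p), (p : ℝ) :=
        prod_le_prod (fun _ _ => by linarith) fun p hp => (mem_filter.1 hp).2.le
      _ ≤ n := by
        rw [← Nat.cast_prod]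
        exact_mod_cast h1
  have h3 : y ^ (((n.primeFactors.filter (fun p : ℕ => y < p)).card : ℝ)) ≤ y ^ K := by
    rw [Real.rpow_natCast]
    exact h2.trans hK
  exact (Real.rpow_le_rpow_left_iff hy).1 h3

/-- the primes dividing a value at a rough argument -/
lemma card_rgh (f G : ℤ[X]) (hfG : ∀ (t : ℤ) (p : ℕ), (p : ℤ) ∣ f.eval t → (p : ℤ) ∣ G.eval t)
    (B : ℕ) (δ : ℝ) (hδ : 0 < δ) (z : ℕ) :
    ∃ W : ℕ, ∀ (L : ℕ) (t : ℤ), 2 ≤ L → t.natAbs ≤ L ^ B → f.eval t ≠ 0 →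
      Rgh G z ((L : ℝ) ^ δ) t → (f.eval t).natAbs.primeFactors.card ≤ W := by
  classical
  obtain ⟨K, hK⟩ := eval_le f
  set E : ℕ := K + B * f.natDegree with hE
  refine ⟨(z + 1) + ⌈(E : ℝ) / δ⌉₊, fun L t hL ht hne hr => ?_⟩
  have hL0 : (0 : ℝ) < L := by exact_mod_cast (by omega : 0 < L)
  have hL1 : (1 : ℝ) < L := by exact_mod_cast (by omega : 1 < L)
  have hsize : (f.eval t).natAbs ≤ L ^ E := by
    calc (f.eval t).natAbs ≤ K * (L ^ B) ^ f.natDegree := hK t (L ^ B) (Nat.one_le_pow _ _ (by omega)) ht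
      _ ≤ 2 ^ K * (L ^ B) ^ f.natDegree := Nat.mul_le_mul_right _ (Nat.lt_two_pow_self).le
      _ ≤ L ^ K * (L ^ B) ^ f.natDegree := Nat.mul_le_mul_right _ (Nat.pow_le_pow_left hL K)
      _ = L ^ E := by rw [hE, pow_add, pow_mul]
  have hy : 1 < (L : ℝ) ^ δ := Real.one_lt_rpow hL1 hδ
  have h1 := card_big (f.eval t).natAbs (Int.natAbs_ne_zero.2 hne) _ hy ((E : ℝ) / δ) (by
    rw [← Real.rpow_mul hL0.le, mul_div_cancel₀ _ hδ.ne', Real.rpow_natCast]
    exact_mod_cast hsize)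
  have h2 : ((f.eval t).natAbs.primeFactors.filter (fun p : ℕ => (L : ℝ) ^ δ < p)).card ≤
      ⌈(E : ℝ) / δ⌉₊ := by
    have := h1.trans (Nat.le_ceil _)
    exact_mod_cast this
  have h3 : (f.eval t).natAbs.primeFactors ⊆ range (z + 1) ∪
      (f.eval t).natAbs.primeFactors.filter (fun p : ℕ => (L : ℝ) ^ δ < p) := by
    intro p hp
    rw [mem_union, mem_range, mem_filter]
    by_cases hpz : z < p
    · right
      refine ⟨hp, ?_⟩
      by_contra hcon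
      exact hr p (Nat.prime_of_mem_primeFactors hp) hpz (not_lt.1 hcon)
        (hfG t p (Int.natCast_dvd.2 (Nat.dvd_of_mem_primeFactors hp)))
    · left
      omega
  refine (card_le_card h3).trans ((card_union_le _ _).trans ?_)
  rw [card_range]
  omega

/-- the moments at rough arguments, squarefree polynomials -/
theorem snA {G : Fin r → ℤ[X]} (hG : Irr G) (a : Fin 3 → ℤ) (ha : ∀ k, a k ≠ 0)
    (ha2 : a 0 - a 1 = a 2) (P : ℤ[X]) (hP : Squarefree (P.map (Int.castRingHom ℚ)))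
    (B : ℕ) (δ : ℝ) (hδ : 0 < δ) (z : ℕ) (j : ℕ) :
    ∃ C : ℝ, 0 ≤ C ∧ ∀ (X L : ℕ) (α : ℕ → ℤ), Adm B X L α →
      LeA (fun t => SN (a 0 * P.eval t) (a 1 * P.eval t) ^ j)
        (fun t => P.eval t ≠ 0 ∧ Rgh (∏ i, G i) z ((L : ℝ) ^ δ) t) α X
        (C * (X / (Real.log L) ^ r)) := by
  classical
  obtain ⟨S, c, hc, hPc, hS⟩ := exists_irr P hP
  set S1 : Finset ℤ[X] := S.filter (fun f => ∃ i, Associated f (G i)) with hS1
  set S2 : Finset ℤ[X] := S.filter (fun f => ¬ ∃ i, Associated f (G i)) with hS2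
  set H : ℤ[X] := C c * ∏ f ∈ S1, f with hH
  set D : ℤ[X] := ∏ f ∈ S2, f with hD
  have hPHD : P = H * D := by
    rw [hPc, hH, hD, mul_assoc]
    congr 1
    exact (prod_filter_mul_prod_filter_not S _ _).symm
  have hprim : ∀ f ∈ S, f.IsPrimitive := fun f hf => (hS f hf).1.isPrimitive (hS f hf).2.ne'
  have hirrQ : ∀ f ∈ S, Irreducible (mQ f) := fun f hf =>
    ((hprim f hf).irreducible_iff_irreducible_map_fraction_map (K := ℚ)).1 (hS f hf).1
  have hsqD : Squarefree (mQ D) := by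
    have h1 : mQ P = mQ H * mQ D := by rw [hPHD, mQ, Polynomial.map_mul]
    exact Squarefree.squarefree_of_dvd (Dvd.intro_left _ h1.symm) hP
  have hassoc : ∀ f ∈ S1, ∃ i, f = G i ∨ f = -G i := by
    intro f hf
    obtain ⟨i, hi⟩ := (mem_filter.1 hf).2
    refine ⟨i, ?_⟩
    obtain ⟨u, hu⟩ := hi.symm
    obtain ⟨w, hw, hw'⟩ := Polynomial.isUnit_iff.1 u.isUnit
    rcases Int.isUnit_iff.1 hw with h1 | h1
    · left
      rw [← hu, ← hw', h1]
      simp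
    · right
      rw [← hu, ← hw', h1]
      simp
  have hdvd : ∀ f ∈ S1, ∀ (t : ℤ) (p : ℕ), (p : ℤ) ∣ f.eval t → (p : ℤ) ∣ (∏ i, G i).eval t := by
    intro f hf t p hd
    obtain ⟨i, hi⟩ := hassoc f hf
    rw [eval_prod]
    refine Dvd.dvd.trans ?_ (dvd_prod_of_mem _ (mem_univ i))
    rcases hi with hi | hi
    · rwa [hi] at hd
    · rwa [hi, eval_neg, dvd_neg] at hd
  rcases Nat.eq_zero_or_pos D.natDegree with h0 | hpos
  · -- the values have few prime factors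
    have hS20 : S2 = ∅ := by
      by_contra hne
      obtain ⟨f, hf⟩ := nonempty_iff_ne_empty.2 hne
      have h1 : D ≠ 0 := prod_ne_zero_iff.2 fun g hg => (hS g (mem_filter.1 hg).1).1.ne_zero
      have h2 : f.natDegree ≤ D.natDegree := natDegree_le_of_dvd (dvd_prod_of_mem _ hf) h1
      have h3 := (hS f (mem_filter.1 hf).1).2
      omega
    have hD1 : D = 1 := by rw [hD, hS20, prod_empty]
    obtain ⟨C1, hC10, hC1⟩ := countA hG B δ hδ z
    choose! Wf hWf using fun (f : ℤ[X]) (hf : f ∈ S1) => card_rgh f (∏ i, G i) (hdvd f hf) B δ hδ z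
    set W : ℕ := (2 * a 0 * a 1 * a 2 * c).natAbs.primeFactors.card + ∑ f ∈ S1, Wf f + 2 with hW
    refine ⟨((4 : ℝ) ^ W) ^ j * C1, by positivity, fun X L α hA T hT hT' => ?_⟩
    have hb : ∀ t : ℤ, t.natAbs ≤ L ^ B → P.eval t ≠ 0 → Rgh (∏ i, G i) z ((L : ℝ) ^ δ) t →
        SN (a 0 * P.eval t) (a 1 * P.eval t) ≤ 4 ^ W := by
      intro t htB ht hpr
      have hne3 : (a 0 - a 1) * P.eval t ≠ 0 := by
        rw [ha2]
        exact mul_ne_zero (ha 2) ht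
      have hne : a 0 * P.eval t ≠ a 1 * P.eval t := by
        intro h1
        apply hne3
        rw [sub_mul, h1, sub_self]
      refine (SN_le (mul_ne_zero (ha 0) ht) (mul_ne_zero (ha 1) ht) hne).trans ?_
      refine pow_le_pow_right₀ (by norm_num) ?_
      rw [hW]
      refine Nat.add_le_add_right ?_ 2
      have hPe : P.eval t = c * ∏ f ∈ S1, f.eval t := by
        rw [hPHD, hD1, mul_one, hH, eval_mul, eval_C, eval_prod]
      have hsub : (2 * (a 0 * P.eval t) * (a 1 * P.eval t) *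
          (a 0 * P.eval t - a 1 * P.eval t)).natAbs.primeFactors ⊆
          (2 * a 0 * a 1 * a 2 * c).natAbs.primeFactors ∪
            S1.biUnion (fun f => (f.eval t).natAbs.primeFactors) := by
        intro p hp
        have hpp := Nat.prime_of_mem_primeFactors hp
        have hpd := Int.natCast_dvd.2 (Nat.dvd_of_mem_primeFactors hp)
        have hpi := Nat.prime_iff_prime_int.1 hpp
        rw [← sub_mul, ha2] at hpd
        have hne0 : (2 * a 0 * a 1 * a 2 * c) ≠ 0 :=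
          mul_ne_zero (mul_ne_zero (mul_ne_zero (mul_ne_zero two_ne_zero (ha 0)) (ha 1)) (ha 2)) hc
        have hcon : (p : ℤ) ∣ 2 * a 0 * a 1 * a 2 * c ∨ (p : ℤ) ∣ ∏ f ∈ S1, f.eval t := by
          have h1 : (p : ℤ) ∣ (2 * a 0 * a 1 * a 2 * c) * ((c * c) * (∏ f ∈ S1, f.eval t) ^ 3) := by
            rw [hPe] at hpd
            refine hpd.trans (dvd_of_eq ?_)
            ring
          rcases hpi.dvd_mul.1 h1 with h2 | h2
          · exact Or.inl h2
          rcases hpi.dvd_mul.1 h2 with h3 | h3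
          · rcases hpi.dvd_mul.1 h3 with h4 | h4
            · exact Or.inl (h4.mul_left _)
            · exact Or.inl (h4.mul_left _)
          · exact Or.inr (hpi.dvd_of_dvd_pow h3)
        rw [mem_union]
        rcases hcon with h1 | h1
        · left
          rw [Nat.mem_primeFactors]
          exact ⟨hpp, Int.natCast_dvd.1 h1, Int.natAbs_ne_zero.2 hne0⟩
        · right
          obtain ⟨f, hf, hfd⟩ := (hpi.dvd_finsetProd_iff _).1 h1
          rw [mem_biUnion]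
          refine ⟨f, hf, ?_⟩
          rw [Nat.mem_primeFactors]
          refine ⟨hpp, Int.natCast_dvd.1 hfd, Int.natAbs_ne_zero.2 ?_⟩
          rw [hPe] at ht
          exact prod_ne_zero_iff.1 (right_ne_zero_of_mul ht) f hf
      refine (card_le_card hsub).trans ((card_union_le _ _).trans ?_)
      refine Nat.add_le_add_left (card_biUnion_le.trans (sum_le_sum fun f hf => ?_)) _
      refine hWf f hf L t hA.two htB ?_ hpr
      rw [hPe] at ht
      exact prod_ne_zero_iff.1 (right_ne_zero_of_mul ht) f hf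
    calc ∑ t ∈ T, SN (a 0 * P.eval (α t)) (a 1 * P.eval (α t)) ^ j
        ≤ ∑ t ∈ T, ((4 : ℝ) ^ W) ^ j := by
          refine sum_le_sum fun t ht => ?_
          exact pow_le_pow_left₀ (SN_nonneg _ _)
            (hb (α t) (hA.bd t (hT ht)) (hT' t ht).1 (hT' t ht).2) j
      _ = ((4 : ℝ) ^ W) ^ j * ∑ t ∈ T, (1 : ℝ) := by
          rw [sum_const, sum_const, nsmul_eq_mul, nsmul_eq_mul, mul_one, mul_comm]
      _ ≤ ((4 : ℝ) ^ W) ^ j * (C1 * (X / (Real.log L) ^ r)) := by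
          refine mul_le_mul_of_nonneg_left ?_ (by positivity)
          exact hC1 X L α hA T hT fun t ht => (hT' t ht).2
      _ = _ := by ring
  · -- the main case
    have hsq1 : Squarefree (mQ (D * ∏ i, G i)) := by
      unfold mQ
      rw [Polynomial.map_mul]
      refine (squarefree_mul_iff).2 ⟨?_, hsqD, hG.sqf⟩
      rw [hD, Polynomial.map_prod, Polynomial.map_prod]
      refine (IsCoprime.prod_left fun f hf => IsCoprime.prod_right fun i _ => ?_).isRelPrime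
      have hf' := mem_filter.1 hf
      refine ((hirrQ f hf'.1).coprime_iff_not_dvd).2 fun hd => hf'.2 ⟨i, ?_⟩
      have h1 : f ∣ G i :=
        (IsPrimitive.Int.dvd_iff_map_cast_dvd_map_cast f (G i) (hprim f hf'.1)).2 hd
      exact (hS f hf'.1).1.associated_of_dvd (hG.irr i) h1
    have hH' : ∀ p : ℕ, p.Prime → c.natAbs < p → ∀ t : ℤ, (p : ℤ) ∣ H.eval t →
        (p : ℤ) ∣ (∏ i, G i).eval t := by
      intro p hp hz t hd
      have hpi := Nat.prime_iff_prime_int.1 hp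
      rw [hH, eval_mul, eval_C, eval_prod] at hd
      rcases hpi.dvd_mul.1 hd with h1 | h1
      · exfalso
        have := Nat.le_of_dvd (Int.natAbs_pos.2 hc) (Int.natCast_dvd.1 h1)
        omega
      · obtain ⟨f, hf, hfd⟩ := (hpi.dvd_finsetProd_iff _).1 h1
        exact hdvd f hf t p hfd
    obtain ⟨C, hC0, hC⟩ := hdA_rough hG a ha ha2 D H hpos hsq1 (by rw [← hPHD]; exact hP) c.natAbs
        hH' j B δ hδ z
    rw [hPHD]
    exact ⟨C, hC0, hC⟩

/-- all the moments of the 2-Selmer groups of the twists by the values of a polynomial, at the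
rough values of the sequence -/
theorem selA {G : Fin r → ℤ[X]} (hG : Irr G) {A B' e1 e2 e3 : ℤ}
    (hE : 4 * A ^ 3 + 27 * B' ^ 2 ≠ 0)
    (he : ∀ x : ℤ, x ^ 3 + A * x + B' = (x - e1) * (x - e2) * (x - e3)) (D : ℤ[X]) (hD : D ≠ 0)
    (B : ℕ) (δ : ℝ) (hδ : 0 < δ) (z : ℕ) (j : ℕ) :
    ∃ C : ℝ, 0 ≤ C ∧ ∀ (X L : ℕ) (α : ℕ → ℤ), Adm B X L α →
      LeA (fun t => ((SelR ((D.eval t) ^ 2 * A) ((D.eval t) ^ 3 * B')).ncard : ℝ) ^ j)
        (fun t => D.eval t ≠ 0 ∧ Rgh (∏ i, G i) z ((L : ℝ) ^ δ) t) α X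
        (C * (X / (Real.log L) ^ r)) := by
  obtain ⟨D₁, D₂, hfac, hsq⟩ := exists_fac D hD
  obtain ⟨h12, h13, h23⟩ := Pool.Agent.TH639.SL.disc_ne hE he
  obtain ⟨C, hC0, hC⟩ := snA hG ![e2 - e1, e3 - e1, e2 - e3] (by
      intro i
      fin_cases i
      · exact h12
      · exact h13
      · exact h23)
    (by
      change (e2 - e1) - (e3 - e1) = e2 - e3
      ring) D₁ hsq B δ hδ z j
  refine ⟨C, hC0, fun X L α hA T hT hT' => le_trans ?_ (hC X L α hA T hT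
    fun t ht => ⟨fun h0 => (hT' t ht).1 ?_, (hT' t ht).2⟩)⟩
  · refine sum_le_sum fun t ht => ?_
    refine pow_le_pow_left₀ (Nat.cast_nonneg _) ?_ j
    have := (Pool.Agent.TH841.NF.sel_tw2 hE he (c := 1) (P := D₁.eval (α t))
      (w := D₂.eval (α t)) (hT' t ht).1 (by rw [one_mul, hfac, eval_mul, eval_pow])).2
    rwa [mul_one, mul_one] at this
  · beta_reduce at h0 ⊢
    rw [hfac, eval_mul, h0, zero_mul]

section

open Pool.Agent.TH841.NF (EF Gen)

open Pool.Agent.TH841.NF.D (HasDiv crk rk)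

open Classical in
/-- the twists by `D₀(α_i)` over the fields `ℚ(√D₁(α_i), ..., √D_s(α_i))` -/
theorem mqA {G : Fin r → ℤ[X]} (hG : Irr G) {A B' e₁ e₂ e₃ : ℤ}
    (hE : 4 * A ^ 3 + 27 * B' ^ 2 ≠ 0)
    (he : ∀ x : ℤ, x ^ 3 + A * x + B' = (x - e₁) * (x - e₂) * (x - e₃))
    (s : ℕ) (D₀ : ℤ[X]) (hD₀ : D₀ ≠ 0) (D : Fin s → ℤ[X]) (hD : ∀ i, D i ≠ 0)
    (B : ℕ) (δ : ℝ) (hδ : 0 < δ) (z : ℕ) (j : ℕ) :
    ∃ C : ℝ, 0 ≤ C ∧ ∀ (X L : ℕ) (α : ℕ → ℤ), Adm B X L α → ∀ P : Finset ℕ, P ⊆ Icc 1 X →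
      (∀ i ∈ P, (D₀.eval (α i) ≠ 0 ∧ ∀ l, (D l).eval (α i) ≠ 0) ∧
        Rgh (∏ i, G i) z ((L : ℝ) ^ δ) (α i)) →
      ∀ (F : ℕ → Type) [∀ i, Field (F i)] [∀ i, NumberField (F i)],
      (∀ i ∈ P, Gen (F i) (fun l => (D l).eval (α i))) →
      ∀ W : ∀ i, WeierstrassCurve (F i),
      (∀ i, W i = EF ((D₀.eval (α i)) ^ 2 * A) ((D₀.eval (α i)) ^ 3 * B') (F i)) →
      (∀ i ∈ P, BddAbove {q | HasDiv (W i) q}) ∧
      ∑ i ∈ P, ((2 : ℝ) ^ (rk (W i) + crk (W i))) ^ j ≤ C * (X / (Real.log L) ^ r) ∧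
      ∀ n : ℕ, ((P.filter (fun i => n ≤ rk (W i) + crk (W i))).card : ℝ) ≤
        C * (X / (Real.log L) ^ r) / 2 ^ (j * n) := by
  have hne : ∀ T : Finset (Fin s), D₀ * ∏ i ∈ T, D i ≠ 0 := fun T =>
    mul_ne_zero hD₀ (prod_ne_zero_iff.2 fun i _ => hD i)
  choose C hC0 hC using fun T : Finset (Fin s) => selA hG hE he (D₀ * ∏ i ∈ T, D i)
    (hne T) B δ hδ z (Fintype.card (Finset (Fin s)) * j)
  refine ⟨∑ T, C T, sum_nonneg fun T _ => hC0 T,
    fun X L α hA P hPX hPmem F _ _ hF W hW => ?_⟩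
  have hev : ∀ (T : Finset (Fin s)) (t : ℤ), (D₀ * ∏ i ∈ T, D i).eval t =
      D₀.eval t * ∏ i ∈ T, (D i).eval t := by
    intro T t
    rw [eval_mul, eval_prod]
  refine Pool.Agent.TH841.NF.famN _ F W (fun i => ∏ T : Finset (Fin s),
    ((SelR (((D₀ * ∏ i ∈ T, D i).eval (α i)) ^ 2 * A)
      (((D₀ * ∏ i ∈ T, D i).eval (α i)) ^ 3 * B')).ncard : ℝ)) j _ ?_ ?_
  · intro t ht q hq
    have ht' := (hPmem t ht).1
    rw [hW t] at hq ⊢
    have hne' : ∀ T : Finset (Fin s), (D₀ * ∏ i ∈ T, D i).eval (α t) ≠ 0 := by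
      intro T
      rw [hev]
      exact mul_ne_zero ht'.1 (prod_ne_zero_iff.2 fun i _ => ht'.2 i)
    have e2 : ∀ T : Finset (Fin s), (∏ i ∈ T, (D i).eval (α t)) ^ 2 *
        (D₀.eval (α t) ^ 2 * A) = ((D₀ * ∏ i ∈ T, D i).eval (α t)) ^ 2 * A := by
      intro T
      rw [hev]
      ring
    have e3 : ∀ T : Finset (Fin s), (∏ i ∈ T, (D i).eval (α t)) ^ 3 *
        (D₀.eval (α t) ^ 3 * B') = ((D₀ * ∏ i ∈ T, D i).eval (α t)) ^ 3 * B' := by
      intro T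
      rw [hev]
      ring
    refine Pool.Agent.TH841.NF.one_field (d := fun i => (D i).eval (α t)) (hF t ht)
      (fun i => ht'.2 i) (Pool.Agent.TH639.SL.disc_tw ht'.1 hE) _ ?_ ?_ hq
    · intro T
      rw [e2, e3]
      exact Pool.Agent.TH841.SH.bd_selR (Pool.Agent.TH639.SL.disc_tw (hne' T) hE)
        (Pool.Agent.TH639.SL.roots_tw he _) (Pool.Agent.TH639.SL.sel_tw hE he (hne' T)).1
    · intro T
      rw [e2, e3]
      exact Pool.Agent.W307.RG.fin_tw hE he (hne' T)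
  · have h5 : ∑ t ∈ P, (∏ T : Finset (Fin s),
        ((SelR (((D₀ * ∏ i ∈ T, D i).eval (α t)) ^ 2 * A)
        (((D₀ * ∏ i ∈ T, D i).eval (α t)) ^ 3 * B')).ncard : ℝ)) ^ j ≤
        ∑ T, C T * (X / (Real.log L) ^ r) := by
      refine (sum_le_sum fun t _ => Pool.Agent.TH841.NF.prod_pow_le _
        (fun T => Nat.cast_nonneg _) j).trans ?_
      rw [sum_comm]
      refine sum_le_sum fun T _ => ?_
      refine hC T X L α hA P hPX fun t ht => ⟨?_, ?_⟩
      · rw [hev]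
        exact mul_ne_zero (hPmem t ht).1.1 (prod_ne_zero_iff.2 fun i _ => (hPmem t ht).1.2 i)
      · exact (hPmem t ht).2
    refine h5.trans ?_
    rw [← sum_mul]

end

end Pool.Agent.N870.SQ
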