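import Mathlib
import Pool.Agent.N870.SQ.Fix

/-!
# Sequences with a level of distribution: the lower bound sieve

Seat helper870.
-/

set_option autoImplicit false

namespace Pool.Agent.N870.SQ

open Finset Polynomial Pool.Agent.W262.RK Pool.Agent.TH841.PT

open Pool.Agent.H474R2.PG (rho)

set_option maxHeartbeats 1000000 in
open Classical in
/-- the lower bound of the fundamental lemma -/
theorem svlow (c : ℕ) : ∃ C0 K : ℕ, 1 ≤ C0 ∧ 1 ≤ K ∧ ∀ (z1 X L y : ℕ) (α : ℕ → ℤ), C0 ≤ z1 →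
    2 * c + 2 ≤ z1 → Lev X L α → 3 ≤ y → ∀ (Z : ℕ → ℤ → Prop) (ν : ℕ → ℕ), PerZ Z z1 y →
    (∀ p ∈ PS z1 y, ((range p).filter (fun n : ℕ => Z p (n : ℤ))).card = ν p ∧ ν p ≤ c) →
    ∀ (m : ℕ) (r : ℤ), 1 ≤ m → (∀ p ∈ PS z1 y, ¬ p ∣ m) → m * y ^ K ≤ L →
    1 / 2 * ((X : ℝ) / m * ∏ p ∈ PS z1 y, (1 - (ν p : ℝ) / p)) -
      4 * ((X : ℝ) / L * (y : ℝ) ^ K) ≤
    (((Icc 1 X).filter (fun i : ℕ => (m : ℤ) ∣ α i - r ∧
      ∀ p ∈ PS z1 y, ¬ Z p (α i))).card : ℝ) := by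
  obtain ⟨C0, hC0, hF⟩ := Pool.Agent.H20R2.fLem c
  refine ⟨C0, 4 * C0 ^ 2 + 1, hC0, by omega,
    fun z1 X L y α hz1 hcz hα hy3 Z ν hZ hν m r hm1 hmP hmyL => ?_⟩
  set J := Pool.Agent.H373R2.T7.JJ y with hJ
  have hyJ : y < 2 ^ 2 ^ J := Pool.Agent.H373R2.T7.JJ_lt y
  have hJy : 2 ^ 2 ^ J ≤ y ^ 2 := Pool.Agent.H373R2.T7.JJ_le y (by omega)
  have hJs : J + 2 ≤ 2 * y := Pool.Agent.H373R2.T7.JJ_small y hy3
  set P : Finset ℕ := PS z1 y with hP
  have hPp : ∀ p ∈ P, p.Prime ∧ z1 < p ∧ p ≤ 2 ^ 2 ^ J := by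
    intro p hp
    rw [hP, mem_PS] at hp
    exact ⟨hp.2, hp.1.1, hp.1.2.trans hyJ.le⟩
  have hνc : ∀ p ∈ P, (ν p : ℝ) ≤ c := fun p hp => by exact_mod_cast (hν p hp).2
  have hcp : ∀ p ∈ P, c < p := by
    intro p hp
    have h1 := (mem_PS.1 hp).1.1
    omega
  set D : ℕ := (2 ^ 2 ^ J) ^ (C0 * C0) with hD
  have hDy : D ≤ y ^ (2 * C0 ^ 2) := by
    calc D ≤ (y ^ 2) ^ (C0 * C0) := Nat.pow_le_pow_left hJy _
      _ = y ^ (2 * C0 ^ 2) := by rw [← pow_mul]; congr 1; ring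
  have hy1 : 1 ≤ y := by omega
  have hL1 : 1 ≤ L := le_trans (Nat.mul_pos hm1 (Nat.pow_pos (by omega))) hmyL
  have hLr : (0 : ℝ) < L := by exact_mod_cast hL1
  have hmr : (0 : ℝ) < m := by exact_mod_cast hm1
  have hprodT : ∀ T ⊆ P, (∏ p ∈ T, p) ≤ D → m * ∏ p ∈ T, p ≤ L := by
    intro T _ hTD
    refine le_trans (Nat.mul_le_mul_left m (hTD.trans hDy)) (le_trans ?_ hmyL)
    exact Nat.mul_le_mul_left m (Nat.pow_le_pow_right hy1 (by nlinarith))
  have hg : ∀ p ∈ P, 0 ≤ (ν p : ℝ) / p ∧ (ν p : ℝ) / p ≤ c / ((p : ℝ) - 1) := by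
    intro p hp
    have h2 : (2 : ℝ) ≤ p := by exact_mod_cast (hPp p hp).1.two_le
    refine ⟨by positivity, ?_⟩
    calc (ν p : ℝ) / p ≤ c / p := div_le_div_of_nonneg_right (hνc p hp) (by linarith)
      _ ≤ c / ((p : ℝ) - 1) := div_le_div_of_nonneg_left (Nat.cast_nonneg _) (by linarith)
          (by linarith)
  have hfl := hF C0 J z1 P (fun p => (ν p : ℝ) / p) le_rfl hz1 hPp hg
    ((Icc 1 X).filter (fun i : ℕ => (m : ℤ) ∣ α i - r)) (fun _ => 1) (fun p i => Z p (α i))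
    ((X : ℝ) / m) (fun T => (∏ p ∈ T, (ν p : ℝ)) * (X / L)) (fun _ _ => zero_le_one)
    (by positivity) (by
      intro T hT hTD
      have h1 := count_T hα Z m hm1 r T (fun p hp => ⟨(hPp p (hT hp)).1, hmP p (hT hp)⟩)
        (fun p hp => hZ p (hT hp)) ν (fun p hp => (hν p (hT hp)).1)
        (hprodT T hT hTD)
      rw [filter_filter, sum_const, nsmul_eq_mul, mul_one]
      exact h1)
  rw [filter_filter, sum_const, nsmul_eq_mul, mul_one] at hfl
  obtain ⟨A, hA⟩ : ∃ A : ℝ, A = ∏ p ∈ P, (1 - (ν p : ℝ) / p) := ⟨_, rfl⟩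
  have hA0 : 0 ≤ A := by
    rw [hA]
    refine prod_nonneg fun p hp => ?_
    have h1 := hcp p hp
    have h2 : (ν p : ℝ) ≤ p := (hνc p hp).trans (by exact_mod_cast h1.le)
    have hp0 : (0 : ℝ) < p := by exact_mod_cast (hPp p hp).1.pos
    rw [sub_nonneg, div_le_one hp0]
    exact h2
  -- the sum of the errors
  have hE : ∑ T ∈ P.powerset.filter (fun T : Finset ℕ => ∏ p ∈ T, p ≤ D),
      (∏ p ∈ T, (ν p : ℝ)) * ((X : ℝ) / L) ≤ 2 * (D : ℝ) ^ 2 * (X / L) := by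
    have hD1 : 1 ≤ D := Nat.one_le_pow _ _ (by positivity)
    have h1 : ∀ T ∈ P.powerset.filter (fun T : Finset ℕ => ∏ p ∈ T, p ≤ D),
        (∏ p ∈ T, (ν p : ℝ)) * ((X : ℝ) / L) ≤ D * (X / L) := by
      intro T hT
      rw [mem_filter, mem_powerset] at hT
      refine mul_le_mul_of_nonneg_right ?_ (by positivity)
      calc ∏ p ∈ T, (ν p : ℝ) ≤ ∏ p ∈ T, (p : ℝ) := by
            refine prod_le_prod (fun _ _ => Nat.cast_nonneg _) fun p hp => ?_
            exact (hνc p (hT.1 hp)).trans (by exact_mod_cast (hcp p (hT.1 hp)).le)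
        _ = ((∏ p ∈ T, p : ℕ) : ℝ) := by push_cast; rfl
        _ ≤ D := by exact_mod_cast hT.2
    refine (sum_le_sum h1).trans ?_
    rw [sum_const, nsmul_eq_mul]
    have h2 : (P.powerset.filter (fun T : Finset ℕ => ∏ p ∈ T, p ≤ D)).card ≤ D + 1 := by
      rw [← card_range (D + 1)]
      apply card_le_card_of_injOn (fun T => ∏ p ∈ T, p)
      · intro T hT
        rw [mem_coe, mem_filter] at hT
        rw [mem_coe, mem_range]
        simp only
        omega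
      · intro T hT T' hT' h
        rw [mem_coe, mem_filter, mem_powerset] at hT hT'
        have h3 : ∀ U : Finset ℕ, U ⊆ P → (∏ p ∈ U, p).primeFactors = U := by
          intro U hU
          exact Nat.primeFactors_prod fun p hp => (hPp p (hU hp)).1
        rw [← h3 T hT.1, ← h3 T' hT'.1]
        exact congrArg Nat.primeFactors h
    have h3 : (((P.powerset.filter (fun T : Finset ℕ => ∏ p ∈ T, p ≤ D)).card : ℕ) : ℝ) ≤
        2 * D := by
      have h4 : (P.powerset.filter (fun T : Finset ℕ => ∏ p ∈ T, p ≤ D)).card ≤ 2 * D := by omega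
      exact_mod_cast h4
    calc _ ≤ 2 * (D : ℝ) * (D * (X / L)) := mul_le_mul_of_nonneg_right h3 (by positivity)
      _ = _ := by ring
  have herr : ((J : ℝ) + 2) * (2 * (D : ℝ) ^ 2 * (X / L)) ≤
      4 * ((X : ℝ) / L * (y : ℝ) ^ (4 * C0 ^ 2 + 1)) := by
    have h1 : ((J : ℝ) + 2) ≤ 2 * y := by exact_mod_cast hJs
    have h2 : (D : ℝ) ≤ (y : ℝ) ^ (2 * C0 ^ 2) := by exact_mod_cast hDy
    have h3 : (D : ℝ) ^ 2 ≤ (y : ℝ) ^ (4 * C0 ^ 2) := by
      calc (D : ℝ) ^ 2 ≤ ((y : ℝ) ^ (2 * C0 ^ 2)) ^ 2 := pow_le_pow_left₀ (Nat.cast_nonneg _) h2 2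
        _ = (y : ℝ) ^ (4 * C0 ^ 2) := by rw [← pow_mul]; congr 1; ring
    calc ((J : ℝ) + 2) * (2 * (D : ℝ) ^ 2 * (X / L))
        ≤ (2 * y) * (2 * (y : ℝ) ^ (4 * C0 ^ 2) * (X / L)) := by gcongr
      _ = 4 * ((X : ℝ) / L * (y : ℝ) ^ (4 * C0 ^ 2 + 1)) := by rw [pow_succ]; ring
  rw [← hA] at hfl ⊢
  have h7 := (abs_le.1 hfl).1
  have h8 : ((1 : ℝ) / 2) ^ C0 ≤ 1 / 2 := by
    calc ((1 : ℝ) / 2) ^ C0 ≤ ((1 : ℝ) / 2) ^ 1 :=
          pow_le_pow_of_le_one (by norm_num) (by norm_num) hC0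
      _ = 1 / 2 := pow_one _
  have h9 : ((1 : ℝ) / 2) ^ C0 * ((X : ℝ) / m * A) ≤ 1 / 2 * ((X : ℝ) / m * A) :=
    mul_le_mul_of_nonneg_right h8 (by positivity)
  have h10 : ((J : ℝ) + 2) * ∑ T ∈ P.powerset.filter (fun T : Finset ℕ => ∏ p ∈ T, p ≤ D),
      (∏ p ∈ T, (ν p : ℝ)) * ((X : ℝ) / L) ≤ ((J : ℝ) + 2) * (2 * (D : ℝ) ^ 2 * (X / L)) :=
    mul_le_mul_of_nonneg_left hE (by positivity)
  linarith

/-- the product over the primes, from below -/
lemma prod_low {c z y : ℕ} {ν : ℕ → ℝ} (h0 : ∀ p ∈ PS z y, 0 ≤ ν p ∧ ν p ≤ c)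
    (hz : 2 * c + 2 ≤ z) :
    Real.exp (-(∑ p ∈ PS z y, ν p / p) - 4 * (c : ℝ) ^ 2) ≤ ∏ p ∈ PS z y, (1 - ν p / p) := by
  have hx : ∀ p ∈ PS z y, 0 ≤ ν p / (p : ℝ) ∧ ν p / (p : ℝ) ≤ 1 / 2 := by
    intro p hp
    have h1 := (mem_PS.1 hp).1.1
    have hp0 : (0 : ℝ) < p := by exact_mod_cast (by omega : 0 < p)
    refine ⟨div_nonneg (h0 p hp).1 hp0.le, ?_⟩
    rw [div_le_div_iff₀ hp0 (by norm_num), one_mul]
    have h2 : (2 * c + 2 : ℝ) < p := by exact_mod_cast (lt_of_le_of_lt hz h1)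
    have := (h0 p hp).2
    linarith
  have h1 : ∀ p ∈ PS z y, Real.exp (-(ν p / (p : ℝ)) - 2 * (ν p / (p : ℝ)) ^ 2) ≤
      1 - ν p / (p : ℝ) := by
    intro p hp
    obtain ⟨h2, h3⟩ := hx p hp
    set x := ν p / (p : ℝ) with hxd
    have h4 : 0 < 1 - x := by linarith
    have h5 := Real.one_sub_inv_le_log_of_pos h4
    have h6 : -x - 2 * x ^ 2 ≤ 1 - (1 - x)⁻¹ := by
      have h7 : 1 - (1 - x)⁻¹ = -x / (1 - x) := by
        field_simp
        ring
      rw [h7, le_div_iff₀ h4]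
      nlinarith [mul_nonneg h2 h2, mul_nonneg (mul_nonneg h2 h2) (by linarith : 0 ≤ 1 - 2 * x)]
    calc Real.exp (-x - 2 * x ^ 2) ≤ Real.exp (Real.log (1 - x)) :=
          Real.exp_le_exp.2 (h6.trans h5)
      _ = 1 - x := Real.exp_log h4
  have h2 : ∏ p ∈ PS z y, Real.exp (-(ν p / (p : ℝ)) - 2 * (ν p / (p : ℝ)) ^ 2) ≤
      ∏ p ∈ PS z y, (1 - ν p / p) := prod_le_prod (fun _ _ => (Real.exp_pos _).le) h1
  refine le_trans ?_ h2
  rw [← Real.exp_sum]
  apply Real.exp_le_exp.2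
  rw [sum_sub_distrib, sum_neg_distrib]
  have h3 : ∑ p ∈ PS z y, 2 * (ν p / (p : ℝ)) ^ 2 ≤ 4 * (c : ℝ) ^ 2 := by
    have h4 : ∀ p ∈ PS z y, 2 * (ν p / (p : ℝ)) ^ 2 ≤ 2 * (c : ℝ) ^ 2 * (1 / (p : ℝ) ^ 2) := by
      intro p hp
      rw [div_pow]
      have h5 : ν p ^ 2 ≤ (c : ℝ) ^ 2 := pow_le_pow_left₀ (h0 p hp).1 (h0 p hp).2 2
      have h6 := div_le_div_of_nonneg_right h5 (sq_nonneg (p : ℝ))
      calc 2 * (ν p ^ 2 / (p : ℝ) ^ 2) ≤ 2 * ((c : ℝ) ^ 2 / (p : ℝ) ^ 2) := by linarith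
        _ = _ := by ring
    refine (sum_le_sum h4).trans ?_
    rw [← mul_sum]
    have h5 : ∑ p ∈ PS z y, 1 / (p : ℝ) ^ 2 ≤ 1 := by
      have h6 : PS z y ⊆ Ioc 1 y := by
        intro p hp
        have := mem_PS.1 hp
        rw [mem_Ioc]
        omega
      have h7 : ∀ n : ℕ, 1 ≤ n → ∑ p ∈ Ioc 1 n, 1 / (p : ℝ) ^ 2 ≤ 1 - 1 / (n : ℝ) := by
        intro n hn
        induction n, hn using Nat.le_induction with
        | base => simp
        | succ n hn ih =>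
          have h8 : Ioc 1 (n + 1) = insert (n + 1) (Ioc 1 n) := by
            ext k
            simp only [mem_Ioc, mem_insert]
            omega
          rw [h8, sum_insert (by simp)]
          have hn0 : (0 : ℝ) < n := by exact_mod_cast hn
          have h9 : 1 / ((n + 1 : ℕ) : ℝ) ^ 2 ≤ 1 / n - 1 / ((n + 1 : ℕ) : ℝ) := by
            push_cast
            rw [div_sub_div _ _ hn0.ne' (by positivity), div_le_div_iff₀ (by positivity)
              (by positivity)]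
            nlinarith
          linarith
      rcases Nat.lt_or_ge y 1 with hy | hy
      · have : Ioc 1 y = ∅ := by
          rw [Ioc_eq_empty_iff]
          omega
        rw [this, subset_empty] at h6
        rw [h6]
        simp
      · refine (sum_le_sum_of_subset_of_nonneg h6 fun _ _ _ => by positivity).trans ?_
        have h8 : (0 : ℝ) ≤ 1 / (y : ℝ) := by positivity
        linarith [h7 y hy]
    nlinarith [sq_nonneg (c : ℝ)]
  linarith

section

variable {r : ℕ}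

/-- a residue class in which no `G_i` is divisible by a prime at most `z` -/
lemma exists_class (H : ℤ[X]) (hadm : ∀ p : ℕ, p.Prime → ∃ m : ℕ, ¬ (p : ℤ) ∣ H.eval (m : ℤ))
    (z : ℕ) : ∃ m : ℕ, 1 ≤ m ∧ (∀ p : ℕ, p.Prime → (p ∣ m ↔ p ≤ z)) ∧ ∃ a : ℤ,
      ∀ t : ℤ, (m : ℤ) ∣ t - a → ∀ p : ℕ, p.Prime → p ≤ z → ¬ (p : ℤ) ∣ H.eval t := by
  classical
  induction z with
  | zero =>
    refine ⟨1, le_rfl, fun p hp => ⟨fun h => absurd (Nat.dvd_one.1 h) hp.one_lt.ne', fun h =>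
      absurd h (by have := hp.pos; omega)⟩, 0, fun t _ p hp h => ?_⟩
    have := hp.pos
    omega
  | succ z ih =>
    obtain ⟨m, hm, hmp, a, ha⟩ := ih
    by_cases hp : (z + 1).Prime
    · obtain ⟨b, hb⟩ := hadm (z + 1) hp
      have hndvd : ¬ (z + 1) ∣ m := by
        rw [hmp _ hp]
        omega
      have hcop : IsCoprime (m : ℤ) ((z + 1 : ℕ) : ℤ) := by
        rw [Nat.isCoprime_iff_coprime]
        exact ((Nat.Prime.coprime_iff_not_dvd hp).2 hndvd).symm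
      obtain ⟨u, v, huv⟩ := hcop
      refine ⟨m * (z + 1), Nat.mul_pos hm (by omega), fun p hpp => ?_,
        a * (v * ((z + 1 : ℕ) : ℤ)) + b * (u * m), fun t ht p hpp hpz => ?_⟩
      · constructor
        · intro h
          rcases (Nat.Prime.dvd_mul hpp).1 h with h1 | h1
          · have := (hmp p hpp).1 h1
            omega
          · exact Nat.le_of_dvd (by omega) h1
        · intro h
          rcases Nat.lt_or_ge p (z + 1) with h1 | h1
          · exact ((hmp p hpp).2 (by omega)).mul_right _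
          · have : p = z + 1 := by omega
            rw [this]
            exact dvd_mul_left _ _
      · have e1 : ((m : ℕ) : ℤ) ∣ t - a := by
          have h1 : (m : ℤ) ∣ t - (a * (v * ((z + 1 : ℕ) : ℤ)) + b * (u * m)) := by
            refine Dvd.dvd.trans ?_ ht
            push_cast
            exact Dvd.intro _ rfl
          have h2 : t - a = (t - (a * (v * ((z + 1 : ℕ) : ℤ)) + b * (u * m))) +
              m * (u * (b - a)) := by
            have : v * ((z + 1 : ℕ) : ℤ) = 1 - u * m := by linarith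
            rw [this]
            ring
          rw [h2]
          exact dvd_add h1 (dvd_mul_right _ _)
        have e2 : ((z + 1 : ℕ) : ℤ) ∣ t - b := by
          have h1 : ((z + 1 : ℕ) : ℤ) ∣ t - (a * (v * ((z + 1 : ℕ) : ℤ)) + b * (u * m)) := by
            refine Dvd.dvd.trans ?_ ht
            push_cast
            exact Dvd.intro_left _ rfl
          have h2 : t - b = (t - (a * (v * ((z + 1 : ℕ) : ℤ)) + b * (u * m))) +
              ((z + 1 : ℕ) : ℤ) * (v * (a - b)) := by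
            have : u * m = 1 - v * ((z + 1 : ℕ) : ℤ) := by linarith
            rw [this]
            ring
          rw [h2]
          exact dvd_add h1 (dvd_mul_right _ _)
        rcases Nat.lt_or_ge p (z + 1) with h1 | h1
        · exact ha t e1 p hpp (by omega)
        · have : p = z + 1 := by omega
          rw [this]
          intro h2
          apply hb
          have h3 := (e2.trans (sub_dvd_eval_sub t b H))
          have := dvd_sub h2 h3
          simpa using this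
    · refine ⟨m, hm, fun p hpp => ?_, a, fun t ht p hpp hpz => ha t ht p hpp ?_⟩
      · rw [hmp p hpp]
        constructor
        · intro h
          omega
        · intro h
          rcases Nat.lt_or_ge p (z + 1) with h1 | h1
          · omega
          · exact absurd hpp (by rw [show p = z + 1 by omega]; exact hp)
      · rcases Nat.lt_or_ge p (z + 1) with h1 | h1
        · omega
        · exact absurd hpp (by rw [show p = z + 1 by omega]; exact hp)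

/-- the product over the primes, from below -/
lemma exp_low {G : Fin r → ℤ[X]} (hG : Irr G) : ∃ z0 : ℕ, ∀ z, z0 ≤ z → ∃ κ : ℝ, 0 < κ ∧
    ∀ y : ℕ, z < y → κ / (Real.log y) ^ r ≤
      Real.exp (-Sp (fun p => (rho (∏ i, G i) p : ℝ)) z y) := by
  obtain ⟨z0, hz0⟩ := exists_Gp GDPf.gdp hG (a := fun _ => 1) (fun _ => one_ne_zero) _ le_rfl
  refine ⟨z0 + 3, fun z hz => ?_⟩
  have hgp := hz0 z (by omega)
  choose Cm hCm0 hCm using fun j => mert (hG.irr j) (hG.deg j) (z := z) (by omega)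
  refine ⟨Real.exp (-∑ i, Cm i), Real.exp_pos _, fun y hy => ?_⟩
  have hy3 : (3 : ℝ) ≤ y := by exact_mod_cast (by omega : 3 ≤ y)
  have hly : 0 < Real.log y := Real.log_pos (by linarith)
  have h3 : ∑ j, Sp (fun p => (rho (G j) p : ℝ)) z y =
      Sp (fun p => (rho (∏ j, G j) p : ℝ)) z y := by
    unfold Sp
    rw [sum_comm]
    refine sum_congr rfl fun p hp => ?_
    have hp' := mem_filter.1 hp
    beta_reduce
    rw [rho_prod hgp hp'.2 (mem_Ioc.1 hp'.1).1, ← sum_div]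
    push_cast
    rfl
  have h4 : Sp (fun p => (rho (∏ j, G j) p : ℝ)) z y ≤
      (r : ℝ) * Real.log (Real.log y) + ∑ i, Cm i := by
    rw [← h3]
    have h5 : ∀ j, Sp (fun p => (rho (G j) p : ℝ)) z y ≤ Real.log (Real.log y) + Cm j := by
      intro j
      have := (abs_le.1 (hCm j y hy)).2
      linarith
    have h6 := sum_le_sum fun j (_ : j ∈ univ) => h5 j
    rw [sum_add_distrib, sum_const, card_univ, Fintype.card_fin, nsmul_eq_mul] at h6
    exact h6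
  have h6 : Real.exp (-((r : ℝ) * Real.log (Real.log y))) = 1 / Real.log y ^ r := by
    rw [Real.exp_neg, Real.exp_nat_mul, Real.exp_log hly, one_div]
  calc Real.exp (-∑ i, Cm i) / Real.log y ^ r
      = Real.exp (-∑ i, Cm i) * Real.exp (-((r : ℝ) * Real.log (Real.log y))) := by
        rw [h6]; ring
    _ = Real.exp (-((r : ℝ) * Real.log (Real.log y) + ∑ i, Cm i)) := by
        rw [← Real.exp_add]
        congr 1
        ring
    _ ≤ _ := Real.exp_le_exp.2 (by linarith)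

open Classical in
/-- **the members of a sequence with a level of distribution at which the `G_i` have no small prime
factor, lower bound** -/
theorem lowA {G : Fin r → ℤ[X]} (hG : Irr G)
    (hadm : ∀ p : ℕ, p.Prime → ∃ m : ℕ, ∀ i, ¬ (p : ℤ) ∣ (G i).eval (m : ℤ)) :
    ∃ δ : ℝ, 0 < δ ∧ ∃ κ : ℝ, 0 < κ ∧ ∃ L₀ : ℕ, 3 ≤ L₀ ∧ ∀ (X L : ℕ) (α : ℕ → ℤ), Lev X L α →
      L₀ ≤ L → κ * (X / (Real.log L) ^ r) ≤
        (((Icc 1 X).filter (fun i : ℕ => ∀ p : ℕ, p.Prime → (p : ℝ) ≤ (L : ℝ) ^ δ →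
          ¬ (p : ℤ) ∣ (∏ j, G j).eval (α i))).card : ℝ) := by
  obtain ⟨H, hH⟩ : ∃ H : ℤ[X], H = ∏ j, G j := ⟨_, rfl⟩
  obtain ⟨c, hc⟩ : ∃ c : ℕ, c = H.natDegree := ⟨_, rfl⟩
  obtain ⟨zg, hzg⟩ := GDPf.gdp H (by rw [hH]; exact hG.sqf)
  obtain ⟨C0, K, hC0, hK, hsv⟩ := svlow c
  obtain ⟨ze, hze⟩ := exp_low hG
  obtain ⟨z1, hz1⟩ : ∃ z1 : ℕ, z1 = C0 + (2 * c + 2) + zg + ze + 3 := ⟨_, rfl⟩
  obtain ⟨κ0, hκ0, hκ0'⟩ := hze z1 (by omega)
  have hadm' : ∀ p : ℕ, p.Prime → ∃ m : ℕ, ¬ (p : ℤ) ∣ H.eval (m : ℤ) := by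
    intro p hp
    obtain ⟨m, hm⟩ := hadm p hp
    refine ⟨m, fun h => ?_⟩
    rw [hH, eval_prod] at h
    obtain ⟨i, _, hi⟩ := ((Nat.prime_iff_prime_int.1 hp).dvd_finsetProd_iff _).1 h
    exact hm i hi
  obtain ⟨m, hm1, hmp, a, ha⟩ := exists_class H hadm' z1
  have hmr : (0 : ℝ) < m := by exact_mod_cast hm1
  obtain ⟨δ, hδ⟩ : ∃ δ : ℝ, δ = 1 / (2 * (K + 1) : ℝ) := ⟨_, rfl⟩
  have hδ0 : 0 < δ := by rw [hδ]; positivity
  obtain ⟨κ1, hκ1⟩ : ∃ κ1 : ℝ, κ1 = 1 / 2 * (κ0 * Real.exp (-4 * (c : ℝ) ^ 2) / m) := ⟨_, rfl⟩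
  have hκ10 : 0 < κ1 := by rw [hκ1]; positivity
  -- the size of the level
  have hev : ∀ᶠ L : ℕ in Filter.atTop, (z1 : ℝ) + 4 ≤ (L : ℝ) ^ δ ∧
      (m : ℝ) ≤ (L : ℝ) ^ ((1 : ℝ) / 2) ∧
      8 / κ1 * (Real.log L) ^ r ≤ (L : ℝ) ^ ((1 : ℝ) / 2) ∧ (3 : ℝ) ≤ L := by
    have h1 := (tendsto_rpow_atTop hδ0).comp (tendsto_natCast_atTop_atTop (R := ℝ))
    have h2 := (tendsto_rpow_atTop (by norm_num : (0 : ℝ) < 1 / 2)).comp
      (tendsto_natCast_atTop_atTop (R := ℝ))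
    have h3 := (isLittleO_log_rpow_rpow_atTop (r : ℝ) (by norm_num : (0 : ℝ) < 1 / 2)).bound
      (show (0 : ℝ) < κ1 / 8 by positivity)
    have h4 := (tendsto_natCast_atTop_atTop (R := ℝ)).eventually h3
    filter_upwards [h1.eventually_ge_atTop ((z1 : ℝ) + 4), h2.eventually_ge_atTop (m : ℝ), h4,
      (tendsto_natCast_atTop_atTop (R := ℝ)).eventually_ge_atTop 3] with L g1 g2 g3 g4
    refine ⟨g1, g2, ?_, g4⟩
    have hL0 : (0 : ℝ) < L := by linarith
    have hl0 : 0 ≤ Real.log L := Real.log_nonneg (by linarith)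
    rw [Real.norm_of_nonneg (Real.rpow_nonneg hl0 _), Real.norm_of_nonneg (Real.rpow_nonneg hL0.le _),
      Real.rpow_natCast] at g3
    calc 8 / κ1 * (Real.log L) ^ r ≤ 8 / κ1 * (κ1 / 8 * (L : ℝ) ^ ((1 : ℝ) / 2)) :=
          mul_le_mul_of_nonneg_left g3 (by positivity)
      _ = _ := by field_simp
  obtain ⟨L₀, hL₀⟩ := Filter.eventually_atTop.1 hev
  refine ⟨δ, hδ0, κ1 / 2, by positivity, L₀ + 3, by omega, fun X L α hα hLL => ?_⟩
  obtain ⟨g1, g2, g3, g4⟩ := hL₀ L (by omega)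
  have hL0 : (0 : ℝ) < L := by linarith
  have hL1 : (1 : ℝ) < L := by linarith
  obtain ⟨y, hy⟩ : ∃ y : ℕ, y = ⌊(L : ℝ) ^ δ⌋₊ := ⟨_, rfl⟩
  have hy1 : (y : ℝ) ≤ (L : ℝ) ^ δ := by rw [hy]; exact Nat.floor_le (by positivity)
  have hy2 : (L : ℝ) ^ δ < y + 1 := by rw [hy]; exact Nat.lt_floor_add_one _
  have hy3 : z1 + 3 < y + 1 := by
    have : (z1 : ℝ) + 3 < y + 1 := by linarith
    exact_mod_cast this
  have hyK : (y : ℝ) ^ K ≤ (L : ℝ) ^ ((1 : ℝ) / 2) := by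
    calc (y : ℝ) ^ K ≤ ((L : ℝ) ^ δ) ^ K := pow_le_pow_left₀ (Nat.cast_nonneg _) hy1 K
      _ = (L : ℝ) ^ (δ * K) := by rw [← Real.rpow_natCast, ← Real.rpow_mul hL0.le]
      _ ≤ _ := by
        apply Real.rpow_le_rpow_of_exponent_le hL1.le
        rw [hδ, one_div_mul_eq_div, div_le_div_iff₀ (by positivity) (by norm_num)]
        linarith
  have hmy : m * y ^ K ≤ L := by
    have : (m : ℝ) * (y : ℝ) ^ K ≤ L := by
      calc (m : ℝ) * (y : ℝ) ^ K ≤ (L : ℝ) ^ ((1 : ℝ) / 2) * (L : ℝ) ^ ((1 : ℝ) / 2) :=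
            mul_le_mul g2 hyK (by positivity) (by positivity)
        _ = L := by
            rw [← Real.rpow_add hL0]
            norm_num
    exact_mod_cast this
  have hgood : ∀ p ∈ PS z1 y, rho H p ≤ c := by
    intro p hp
    rw [hc]
    exact (hzg z1 (by omega) p (mem_PS.1 hp).2 (mem_PS.1 hp).1.1).1
  have hlow := hsv z1 X L y α (by omega) (by omega) hα (by omega)
    (fun p t => (p : ℤ) ∣ H.eval t) (rho H) (by
      intro p hp a b hab
      have h1 := hab.trans (sub_dvd_eval_sub a b H)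
      constructor
      · intro h2
        have := dvd_sub h2 h1
        simpa using this
      · intro h2
        have := dvd_add h1 h2
        simpa using this) (fun p hp => ⟨by unfold rho; congr!, hgood p hp⟩) m a hm1
    (fun p hp hdv => by
      have := (hmp p (mem_PS.1 hp).2).1 hdv
      have := (mem_PS.1 hp).1.1
      omega) hmy
  have hprod := prod_low (c := c) (z := z1) (y := y) (ν := fun p => (rho H p : ℝ))
    (fun p hp => ⟨Nat.cast_nonneg _, by exact_mod_cast hgood p hp⟩) (by omega)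
  have hlow2 := hκ0' y (by omega)
  rw [← hH] at hlow2
  have hlL : 0 < Real.log L := Real.log_pos hL1
  have hly : 0 < Real.log y := Real.log_pos (by
    have : (3 : ℝ) ≤ y := by exact_mod_cast (by omega : 3 ≤ y)
    linarith)
  have hyL : Real.log y ≤ Real.log L := by
    apply Real.log_le_log
    · exact_mod_cast (by omega : 0 < y)
    · refine hy1.trans ?_
      calc (L : ℝ) ^ δ ≤ (L : ℝ) ^ (1 : ℝ) := by
            apply Real.rpow_le_rpow_of_exponent_le hL1.le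
            rw [hδ, div_le_one (by positivity)]
            have : (1 : ℝ) ≤ K := by exact_mod_cast hK
            linarith
        _ = L := Real.rpow_one _
  -- the main term
  have hmain : 2 * κ1 * (X / (Real.log L) ^ r) ≤
      (X : ℝ) / m * ∏ p ∈ PS z1 y, (1 - (rho H p : ℝ) / p) := by
    have h1 : κ0 * Real.exp (-4 * (c : ℝ) ^ 2) / (Real.log L) ^ r ≤
        ∏ p ∈ PS z1 y, (1 - (rho H p : ℝ) / p) := by
      refine le_trans ?_ hprod
      have e1 : Real.exp (-(∑ p ∈ PS z1 y, (rho H p : ℝ) / p) - 4 * (c : ℝ) ^ 2) =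
          Real.exp (-Sp (fun p => (rho H p : ℝ)) z1 y) * Real.exp (-4 * (c : ℝ) ^ 2) := by
        rw [← Real.exp_add]
        congr 1
        unfold Sp
        ring
      rw [e1]
      calc κ0 * Real.exp (-4 * (c : ℝ) ^ 2) / (Real.log L) ^ r
          ≤ κ0 * Real.exp (-4 * (c : ℝ) ^ 2) / (Real.log y) ^ r :=
            div_le_div_of_nonneg_left (by positivity) (pow_pos hly r)
              (pow_le_pow_left₀ hly.le hyL r)
        _ = κ0 / (Real.log y) ^ r * Real.exp (-4 * (c : ℝ) ^ 2) := by ring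
        _ ≤ _ := mul_le_mul_of_nonneg_right hlow2 (Real.exp_pos _).le
    calc 2 * κ1 * (X / (Real.log L) ^ r)
        = (X : ℝ) / m * (κ0 * Real.exp (-4 * (c : ℝ) ^ 2) / (Real.log L) ^ r) := by
          rw [hκ1]
          field_simp
      _ ≤ _ := mul_le_mul_of_nonneg_left h1 (by positivity)
  -- the error term
  have herr : 4 * ((X : ℝ) / L * (y : ℝ) ^ K) ≤ κ1 / 2 * (X / (Real.log L) ^ r) := by
    have h1 : (X : ℝ) / L * (y : ℝ) ^ K ≤ X / (L : ℝ) ^ ((1 : ℝ) / 2) := by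
      have e1 : (X : ℝ) / (L : ℝ) ^ ((1 : ℝ) / 2) = X / L * (L : ℝ) ^ ((1 : ℝ) / 2) := by
        have e2 : (L : ℝ) = (L : ℝ) ^ ((1 : ℝ) / 2) * (L : ℝ) ^ ((1 : ℝ) / 2) := by
          rw [← Real.rpow_add hL0]
          norm_num
        have e3 : 0 < (L : ℝ) ^ ((1 : ℝ) / 2) := Real.rpow_pos_of_pos hL0 _
        rw [eq_comm, div_mul_eq_mul_div, div_eq_div_iff hL0.ne' e3.ne']
        rw [mul_assoc, ← e2]
      rw [e1]
      exact mul_le_mul_of_nonneg_left hyK (by positivity)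
    have h2 : (X : ℝ) / (L : ℝ) ^ ((1 : ℝ) / 2) ≤ X / (8 / κ1 * (Real.log L) ^ r) :=
      div_le_div_of_nonneg_left (Nat.cast_nonneg _) (by positivity) g3
    calc 4 * ((X : ℝ) / L * (y : ℝ) ^ K) ≤ 4 * (X / (8 / κ1 * (Real.log L) ^ r)) := by linarith
      _ = _ := by
          field_simp
          ring
  have hcard : (((Icc 1 X).filter (fun i : ℕ => (m : ℤ) ∣ α i - a ∧
      ∀ p ∈ PS z1 y, ¬ (p : ℤ) ∣ H.eval (α i))).card : ℝ) ≤
      (((Icc 1 X).filter (fun i : ℕ => ∀ p : ℕ, p.Prime → (p : ℝ) ≤ (L : ℝ) ^ δ →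
          ¬ (p : ℤ) ∣ (∏ j, G j).eval (α i))).card : ℝ) := by
    rw [Nat.cast_le]
    apply card_le_card
    intro i hi
    rw [mem_filter] at hi ⊢
    refine ⟨hi.1, fun p hp hpL => ?_⟩
    rw [← hH]
    rcases Nat.lt_or_ge z1 p with h1 | h1
    · refine hi.2.2 p (mem_PS.2 ⟨⟨h1, ?_⟩, hp⟩)
      rw [hy]
      exact Nat.le_floor hpL
    · exact ha (α i) hi.2.1 p hp h1
  refine le_trans ?_ hcard
  have hlow3 : 1 / 2 * ((X : ℝ) / m * ∏ p ∈ PS z1 y, (1 - (rho H p : ℝ) / p)) -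
      4 * ((X : ℝ) / L * (y : ℝ) ^ K) ≤ (((Icc 1 X).filter (fun i : ℕ => (m : ℤ) ∣ α i - a ∧
      ∀ p ∈ PS z1 y, ¬ (p : ℤ) ∣ H.eval (α i))).card : ℝ) := by
    convert hlow
  refine le_trans ?_ hlow3
  linarith

end

end Pool.Agent.N870.SQ
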