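import Mathlib
import Pool.Agent.N193.PS.Floor
import Pool.Agent.N870.SQ.Fix

/-!
# The integer parts of smoothly varying functions have a level of distribution

Seat helper870.  The exponential sums are those of the library of helper193.
-/

set_option autoImplicit false

namespace Pool.Agent.N870.SQ

open Finset Filter Topology

open Pool.Agent.N193.PS (SV floor_sum log_pow_ev const_ev norm_neg_sum e_int')

open Pool.Agent.H469R2.NK (e norm_e e_add conj_e e_zero)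

/-- `f` is smoothly varying of index `c`: it is infinitely differentiable and positive for large
arguments, and `t ^ m f⁽ᵐ⁾(t) / f(t) → c (c - 1) ... (c - m + 1)` for every `m`. -/
def SmoothlyVarying (c : ℝ) (f : ℝ → ℝ) : Prop :=
  (∃ t₀ : ℝ, ∀ t > t₀, ContDiffAt ℝ ((⊤ : ℕ∞) : WithTop ℕ∞) f t ∧ 0 < f t) ∧
  ∀ m : ℕ, Tendsto (fun t => t ^ m * iteratedDeriv m f t / f t) atTop (𝓝 (∏ i ∈ range m, (c - i)))

lemma sv_of (c : ℝ) (hc : 0 < c) (hn : ∀ m : ℕ, c ≠ m) (f : ℝ → ℝ) (h : SmoothlyVarying c f) :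
    SV c (fun m => iteratedDeriv m f) := by
  obtain ⟨⟨t₀, h0⟩, hlim⟩ := h
  refine ⟨hc, hn, ⟨t₀ + 1, fun m t ht => ?_⟩, ?_, fun m => ?_⟩
  · have h1 := (h0 t (by linarith)).1
    have h2 : DifferentiableAt ℝ (iteratedDeriv m f) t := by
      rw [iteratedDeriv_eq_equiv_comp, LinearIsometryEquiv.comp_differentiableAt_iff]
      exact h1.differentiableAt_iteratedFDeriv (by exact_mod_cast WithTop.coe_lt_top m)
    show HasDerivAt (iteratedDeriv m f) (iteratedDeriv (m + 1) f t) t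
    rw [iteratedDeriv_succ]
    exact h2.hasDerivAt
  · filter_upwards [eventually_gt_atTop t₀] with t ht
    simp only [iteratedDeriv_zero]
    exact (h0 t ht).2
  · simpa only [iteratedDeriv_zero] using hlim m

lemma e_mul_nat (t : ℕ) (x : ℝ) : e (t * x) = e x ^ t := by
  induction t with
  | zero => simp [e_zero]
  | succ t ih =>
    rw [pow_succ, ← ih, ← e_add]
    congr 1
    push_cast
    ring

/-- the sum over the additive characters modulo `m` -/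
lemma char_sum (m : ℕ) (hm : 1 ≤ m) (a : ℤ) :
    ∑ t ∈ range m, e ((t / m : ℝ) * (a : ℝ)) = if (m : ℤ) ∣ a then (m : ℂ) else 0 := by
  have hm0 : (m : ℝ) ≠ 0 := by
    have : (0 : ℝ) < m := by exact_mod_cast hm
    exact this.ne'
  have h1 : ∀ t ∈ range m, e ((t / m : ℝ) * (a : ℝ)) = e ((a : ℝ) / m) ^ t := by
    intro t _
    rw [← e_mul_nat]
    congr 1
    ring
  rw [sum_congr rfl h1]
  split_ifs with h
  · obtain ⟨b, hb⟩ := h
    have h2 : e ((a : ℝ) / m) = 1 := by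
      rw [hb]
      push_cast
      rw [mul_div_cancel_left₀ _ hm0]
      exact e_int' b
    rw [h2]
    simp
  · have h2 : e ((a : ℝ) / m) ≠ 1 := by
      intro h3
      unfold Pool.Agent.H469R2.NK.e at h3
      rw [Complex.exp_eq_one_iff] at h3
      obtain ⟨b, hb⟩ := h3
      apply h
      refine ⟨b, ?_⟩
      have h4 : (((2 * Real.pi * ((a : ℝ) / m) : ℝ) : ℂ)) = b * (2 * Real.pi) := by
        have hI : Complex.I ≠ 0 := Complex.I_ne_zero
        apply mul_right_cancel₀ hI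
        rw [hb]
        ring
      have h5 : (2 * Real.pi * ((a : ℝ) / m) : ℝ) = b * (2 * Real.pi) := by exact_mod_cast h4
      have h6 : (a : ℝ) / m = b := by
        have hpi : (2 * Real.pi) ≠ 0 := by positivity
        apply mul_left_cancel₀ hpi
        rw [h5]
        ring
      rw [div_eq_iff hm0] at h6
      have h7 : (a : ℝ) = m * b := by rw [h6]; ring
      exact_mod_cast h7
    rw [geom_sum_eq h2]
    have h3 : e ((a : ℝ) / m) ^ m = 1 := by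
      rw [← e_mul_nat]
      have : (m : ℝ) * (a / m) = (a : ℤ) := by field_simp
      rw [this]
      exact e_int' a
    rw [h3, sub_self, zero_div]

/-- the members of a sequence in a residue class -/
lemma count_res (X m : ℕ) (hm : 1 ≤ m) (r : ℤ) (α : ℕ → ℤ) (E : ℝ) (hE0 : 0 ≤ E)
    (hE : ∀ t : ℕ, 1 ≤ t → t < m → ‖∑ n ∈ Icc 1 X, e ((t / m : ℝ) * (α n : ℝ))‖ ≤ E) :
    |(((Icc 1 X).filter (fun i : ℕ => (m : ℤ) ∣ α i - r)).card : ℝ) - X / m| ≤ E := by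
  classical
  have hm0 : (0 : ℝ) < m := by exact_mod_cast hm
  have h1 : (m : ℂ) * (((Icc 1 X).filter (fun i : ℕ => (m : ℤ) ∣ α i - r)).card : ℂ) =
      ∑ t ∈ range m, e (-((t / m : ℝ) * (r : ℝ))) *
        ∑ n ∈ Icc 1 X, e ((t / m : ℝ) * (α n : ℝ)) := by
    have h2 : ∀ n ∈ Icc 1 X, ∑ t ∈ range m, e ((t / m : ℝ) * ((α n - r : ℤ) : ℝ)) =
        if (m : ℤ) ∣ α n - r then (m : ℂ) else 0 := fun n _ => char_sum m hm (α n - r)
    rw [card_filter, Nat.cast_sum, mul_sum]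
    calc ∑ n ∈ Icc 1 X, (m : ℂ) * (((if (m : ℤ) ∣ α n - r then 1 else 0 : ℕ)) : ℂ)
        = ∑ n ∈ Icc 1 X, ∑ t ∈ range m, e ((t / m : ℝ) * ((α n - r : ℤ) : ℝ)) := by
          refine sum_congr rfl fun n hn => ?_
          rw [h2 n hn]
          split_ifs <;> simp
      _ = ∑ t ∈ range m, ∑ n ∈ Icc 1 X, e ((t / m : ℝ) * ((α n - r : ℤ) : ℝ)) := sum_comm
      _ = _ := by
          refine sum_congr rfl fun t _ => ?_
          rw [mul_sum]
          refine sum_congr rfl fun n _ => ?_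
          rw [← e_add]
          congr 1
          push_cast
          ring
  have h3 : range m = insert 0 (Ico 1 m) := by
    ext t
    simp only [mem_range, mem_insert, mem_Ico]
    omega
  rw [h3, sum_insert (by simp)] at h1
  have h4 : e (-(((0 : ℕ) / m : ℝ) * (r : ℝ))) * ∑ n ∈ Icc 1 X, e (((0 : ℕ) / m : ℝ) * (α n : ℝ)) =
      (X : ℂ) := by
    simp [e_zero]
  rw [h4] at h1
  have h5 : ‖∑ t ∈ Ico 1 m, e (-((t / m : ℝ) * (r : ℝ))) *
      ∑ n ∈ Icc 1 X, e ((t / m : ℝ) * (α n : ℝ))‖ ≤ m * E := by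
    refine (norm_sum_le _ _).trans ?_
    calc ∑ t ∈ Ico 1 m, ‖e (-((t / m : ℝ) * (r : ℝ))) * ∑ n ∈ Icc 1 X, e ((t / m : ℝ) * (α n : ℝ))‖
        ≤ ∑ t ∈ Ico 1 m, E := by
          refine sum_le_sum fun t ht => ?_
          rw [norm_mul, norm_e, one_mul]
          exact hE t (mem_Ico.1 ht).1 (mem_Ico.1 ht).2
      _ ≤ m * E := by
          rw [sum_const, Nat.card_Ico, nsmul_eq_mul]
          refine mul_le_mul_of_nonneg_right ?_ hE0
          exact_mod_cast Nat.sub_le _ _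
  set c := ((Icc 1 X).filter (fun i : ℕ => (m : ℤ) ∣ α i - r)).card with hc
  have h6 : ((((m : ℝ) * c - X : ℝ)) : ℂ) = ∑ t ∈ Ico 1 m, e (-((t / m : ℝ) * (r : ℝ))) *
      ∑ n ∈ Icc 1 X, e ((t / m : ℝ) * (α n : ℝ)) := by
    push_cast
    rw [h1]
    ring
  rw [← h6, Complex.norm_real, Real.norm_eq_abs] at h5
  have h7 : (c : ℝ) - X / m = ((m : ℝ) * c - X) / m := by
    field_simp
  rw [h7, abs_div, abs_of_pos hm0, div_le_iff₀ hm0]
  linarith

variable {c : ℝ} {φ : ℕ → ℝ → ℝ}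

/-- the exponential sums over the values at the rational frequencies -/
theorem sv_exp (h : SV c φ) : ∃ δ : ℝ, 0 < δ ∧ δ ≤ 1 ∧ ∀ᶠ x : ℕ in atTop, ∀ m : ℕ,
    (m : ℝ) ≤ (x : ℝ) ^ δ → ∀ t : ℕ, 1 ≤ t → t < m →
    ‖∑ n ∈ Icc 1 x, e ((t / m : ℝ) * (⌊φ 0 n⌋ : ℝ))‖ ≤ x / (x : ℝ) ^ δ := by
  obtain ⟨r, hr, σ, hσ, hσ2, C, hC, hfull⟩ := h.full
  have hr0 : (0 : ℝ) < r := by exact_mod_cast hr
  have hr1 : (1 : ℝ) ≤ r := by exact_mod_cast hr
  have hc := h.pos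
  obtain ⟨τ, hτ⟩ : ∃ τ : ℝ, τ = min (c / (8 * r)) (σ / 2) := ⟨_, rfl⟩
  have hτ0 : 0 < τ := by rw [hτ]; exact lt_min (by positivity) (by linarith)
  have hτ1 : τ ≤ c / (8 * r) := by rw [hτ]; exact min_le_left _ _
  have hτ2 : τ ≤ σ / 2 := by rw [hτ]; exact min_le_right _ _
  obtain ⟨δ1, hδ1⟩ : ∃ δ1 : ℝ, δ1 = min (1 / 50) (τ / 8) := ⟨_, rfl⟩
  have hδ10 : 0 < δ1 := by rw [hδ1]; exact lt_min (by norm_num) (by linarith)
  have hδ11 : δ1 ≤ 1 / 50 := by rw [hδ1]; exact min_le_left _ _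
  have hδ12 : δ1 ≤ τ / 8 := by rw [hδ1]; exact min_le_right _ _
  obtain ⟨δ, hδ⟩ : ∃ δ : ℝ, δ = min (c / 4) (δ1 / 2) := ⟨_, rfl⟩
  have hδ0 : 0 < δ := by rw [hδ]; exact lt_min (by linarith) (by linarith)
  have hδc : δ ≤ c / 4 := by rw [hδ]; exact min_le_left _ _
  have hδδ : δ ≤ δ1 / 2 := by rw [hδ]; exact min_le_right _ _
  refine ⟨δ, hδ0, by linarith, ?_⟩
  have hev := (tendsto_natCast_atTop_atTop (R := ℝ)).eventually
    ((h.poly_low (c / 2) (by linarith)).and ((log_pow_ev 1 (2 * C) τ (by positivity) hτ0).and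
      ((const_ev (128 * 8 + 1) (1 / 8 - 3 * δ1) (by linarith)).and
      ((const_ev (4 * (128 * 8 + 8)) (τ / 2) (by linarith)).and
      ((const_ev 20 (δ1 / 2) (by linarith)).and (eventually_ge_atTop (1 : ℝ)))))))
  filter_upwards [hfull, hev] with x hx hy m hm t ht htm
  obtain ⟨f1, f2, f3, f4, f5, f6⟩ := hy
  have hx0 : (0 : ℝ) < x := by linarith
  have hm0 : (0 : ℝ) < m := by exact_mod_cast (by omega : 0 < m)
  have hpδ1 : 1 ≤ (x : ℝ) ^ δ1 := Real.one_le_rpow f6 hδ10.le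
  obtain ⟨Q, hQ⟩ : ∃ Q : ℕ, Q = ⌈(x : ℝ) ^ δ1⌉₊ := ⟨_, rfl⟩
  have hQ1 : (x : ℝ) ^ δ1 ≤ Q := by rw [hQ]; exact Nat.le_ceil _
  have hQ2 : (Q : ℝ) ≤ 2 * (x : ℝ) ^ δ1 := by
    have : (Q : ℝ) < (x : ℝ) ^ δ1 + 1 := by rw [hQ]; exact Nat.ceil_lt_add_one (by positivity)
    linarith
  have hQ0 : (0 : ℝ) < Q := by linarith
  have hQ3 : 1 ≤ Q := by exact_mod_cast hQ0
  have hp3 : ((x : ℝ) ^ δ1) ^ 3 = (x : ℝ) ^ (3 * δ1) := by
    rw [← Real.rpow_natCast, ← Real.rpow_mul hx0.le]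
    congr 1
    push_cast
    ring
  have hQM : 128 * (Q : ℝ) ^ 3 ≤ 128 * 8 * (x : ℝ) ^ (3 * δ1) := by
    calc 128 * (Q : ℝ) ^ 3 ≤ 128 * (2 * (x : ℝ) ^ δ1) ^ 3 := by
          apply mul_le_mul_of_nonneg_left (pow_le_pow_left₀ hQ0.le hQ2 3) (by norm_num)
      _ = 128 * 8 * ((x : ℝ) ^ δ1) ^ 3 := by ring
      _ = _ := by rw [hp3]
  have hp31 : 1 ≤ (x : ℝ) ^ (3 * δ1) := Real.one_le_rpow f6 (by linarith)
  have hQM8 : 128 * 8 * (x : ℝ) ^ (3 * δ1) + 1 ≤ (x : ℝ) ^ ((1 : ℝ) / 8) := by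
    calc 128 * 8 * (x : ℝ) ^ (3 * δ1) + 1 ≤ (128 * 8 + 1) * (x : ℝ) ^ (3 * δ1) := by linarith
      _ ≤ (x : ℝ) ^ (1 / 8 - 3 * δ1) * (x : ℝ) ^ (3 * δ1) :=
          mul_le_mul_of_nonneg_right f3 (by positivity)
      _ = _ := by
          rw [← Real.rpow_add hx0]
          congr 1
          ring
  set θ : ℝ := (t : ℝ) / m with hθd
  have ht1 : (1 : ℝ) ≤ t := by exact_mod_cast ht
  have htm' : (t : ℝ) + 1 ≤ m := by exact_mod_cast htm
  have hθ0 : 1 / (m : ℝ) ≤ θ := div_le_div_of_nonneg_right ht1 hm0.le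
  have hθ1 : θ ≤ 1 - 1 / m := by
    rw [hθd, le_sub_iff_add_le, ← add_div, div_le_one hm0]
    exact htm'
  have hm1 : 0 < 1 / (m : ℝ) := by positivity
  -- the distance from the integers
  have hdist : ∀ k : ℤ, 1 / (m : ℝ) ≤ |θ + k| := by
    intro k
    rcases le_or_gt 0 k with h3 | h3
    · have h4 : (0 : ℝ) ≤ k := by exact_mod_cast h3
      rw [abs_of_nonneg (by linarith)]
      linarith
    · have h4 : (k : ℝ) ≤ -1 := by exact_mod_cast (by omega : k ≤ -1)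
      rw [abs_of_nonpos (by linarith)]
      linarith
  have hm2 : (x : ℝ) ^ (-δ) ≤ 1 / m := by
    rw [Real.rpow_neg hx0.le, ← one_div]
    exact div_le_div_of_nonneg_left (by norm_num) hm0 hm
  have hφ : (x : ℝ) ^ (c / 2) ≤ φ 0 x := by
    refine le_trans (le_of_eq ?_) f1
    congr 1
    ring
  have hφ0 : 0 < φ 0 x := lt_of_lt_of_le (Real.rpow_pos_of_pos hx0 _) hφ
  obtain ⟨E, hE⟩ : ∃ E : ℝ, E = (x : ℝ) ^ (1 - τ) := ⟨_, rfl⟩
  have hE0 : 0 ≤ E := by rw [hE]; positivity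
  have hfreq : ∀ s : ℝ, 1 / (m : ℝ) ≤ |s| → |s| ≤ (x : ℝ) ^ ((1 : ℝ) / 8) →
      ‖∑ n ∈ Icc 1 x, e (s * φ 0 n)‖ ≤ E := by
    intro s h1 h2
    have h3 : ‖∑ n ∈ Icc 1 x, e (s * φ 0 n)‖ = ‖∑ n ∈ Icc 1 x, e (|s| * φ 0 n)‖ := by
      rcases abs_choice s with h4 | h4
      · rw [h4]
      · rw [h4, norm_neg_sum]
    rw [h3]
    refine (hx |s| (by linarith) h2).trans ?_
    have h5 : (x : ℝ) ^ (c / 4) ≤ |s| * φ 0 x := by
      calc (x : ℝ) ^ (c / 4) ≤ (x : ℝ) ^ (-δ + c / 2) :=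
            Real.rpow_le_rpow_of_exponent_le f6 (by linarith)
        _ = (x : ℝ) ^ (-δ) * (x : ℝ) ^ (c / 2) := Real.rpow_add hx0 _ _
        _ ≤ |s| * φ 0 x := mul_le_mul (hm2.trans h1) hφ (by positivity) (abs_nonneg _)
    have h6 : (|s| * φ 0 x) ^ (-(1 / (r : ℝ))) ≤ (x : ℝ) ^ (-(2 * τ)) := by
      calc (|s| * φ 0 x) ^ (-(1 / (r : ℝ))) ≤ ((x : ℝ) ^ (c / 4)) ^ (-(1 / (r : ℝ))) := by
            apply Real.rpow_le_rpow_of_nonpos (by positivity) h5
            have : 0 < 1 / (r : ℝ) := by positivity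
            linarith
        _ = (x : ℝ) ^ ((c / 4) * (-(1 / (r : ℝ)))) := by rw [← Real.rpow_mul hx0.le]
        _ ≤ _ := by
            apply Real.rpow_le_rpow_of_exponent_le f6
            have : c / 4 * -(1 / (r : ℝ)) = -(2 * (c / (8 * r))) := by
              field_simp
              ring
            rw [this]
            linarith
    have h7 : (x : ℝ) ^ (1 - σ) ≤ x * (x : ℝ) ^ (-(2 * τ)) := by
      calc (x : ℝ) ^ (1 - σ) ≤ (x : ℝ) ^ (1 + -(2 * τ)) :=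
            Real.rpow_le_rpow_of_exponent_le f6 (by linarith)
        _ = _ := by rw [Real.rpow_add hx0, Real.rpow_one]
    have h8 : 0 ≤ Real.log x := Real.log_nonneg f6
    rw [pow_one] at f2
    calc C * (1 + Real.log x) * (x * (|s| * φ 0 x) ^ (-(1 / (r : ℝ))) + (x : ℝ) ^ (1 - σ))
        ≤ C * (1 + Real.log x) * (x * (x : ℝ) ^ (-(2 * τ)) + x * (x : ℝ) ^ (-(2 * τ))) := by
          refine mul_le_mul_of_nonneg_left (add_le_add ?_ h7) (by positivity)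
          exact mul_le_mul_of_nonneg_left h6 hx0.le
      _ = (2 * C * (1 + Real.log x)) * (x * (x : ℝ) ^ (-(2 * τ))) := by ring
      _ ≤ (x : ℝ) ^ τ * (x * (x : ℝ) ^ (-(2 * τ))) := mul_le_mul_of_nonneg_right f2 (by positivity)
      _ = E := by
          rw [hE, show (1 : ℝ) - τ = τ + (1 + -(2 * τ)) by ring, Real.rpow_add hx0, Real.rpow_add hx0,
            Real.rpow_one]
  have hMx : ∀ k : ℤ, |k| < (128 * Q ^ 3 : ℕ) → |(k : ℝ)| + 1 ≤ (x : ℝ) ^ ((1 : ℝ) / 8) := by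
    intro k hk
    have h1 : |(k : ℝ)| < 128 * (Q : ℝ) ^ 3 := by exact_mod_cast hk
    linarith
  have hmain := floor_sum (Icc 1 x) (fun n => φ 0 n) Q hQ3 θ (by
      rw [abs_of_nonneg (by linarith)]
      linarith) E hE0
    (fun k hk => by
      have h1 := hMx k hk
      have h2 : |θ + k| ≤ |(k : ℝ)| + 1 := by
        refine (abs_add_le _ _).trans ?_
        rw [abs_of_nonneg (by linarith : 0 ≤ θ)]
        linarith
      exact hfreq (θ + k) (hdist k) (h2.trans h1))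
    (fun k hk0 hk => by
      have h5 : |k| < ((128 * Q ^ 3 : ℕ) : ℤ) := by
        refine lt_of_lt_of_le hk ?_
        have : Q ≤ 128 * Q ^ 3 := by
          calc Q = 1 * Q ^ 1 := by ring
            _ ≤ 128 * Q ^ 3 := Nat.mul_le_mul (by norm_num) (Nat.pow_le_pow_right hQ3 (by norm_num))
        exact_mod_cast this
      have h1 := hMx k h5
      refine hfreq k ?_ (by linarith)
      have h6 : (1 : ℝ) ≤ |(k : ℝ)| := by
        have : 1 ≤ |k| := Int.one_le_abs hk0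
        exact_mod_cast this
      linarith)
  refine hmain.trans ?_
  rw [Nat.card_Icc, Nat.add_sub_cancel]
  have hfin : (x : ℝ) / (x : ℝ) ^ δ = (x : ℝ) ^ (1 - δ) := by
    rw [Real.rpow_sub hx0, Real.rpow_one]
  -- the second part
  have hp2 : 10 * ((x : ℝ) / Q) ≤ (x : ℝ) ^ (1 - δ) / 2 := by
    have h1 : (x : ℝ) / Q ≤ (x : ℝ) ^ (1 - δ1) := by
      rw [Real.rpow_sub hx0, Real.rpow_one]
      exact div_le_div_of_nonneg_left hx0.le (by positivity) hQ1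
    have h2 : 20 * (x : ℝ) ^ (1 - δ1) ≤ (x : ℝ) ^ (1 - δ) := by
      calc 20 * (x : ℝ) ^ (1 - δ1) ≤ (x : ℝ) ^ (δ1 / 2) * (x : ℝ) ^ (1 - δ1) :=
            mul_le_mul_of_nonneg_right f5 (by positivity)
        _ = (x : ℝ) ^ (δ1 / 2 + (1 - δ1)) := (Real.rpow_add hx0 _ _).symm
        _ ≤ _ := Real.rpow_le_rpow_of_exponent_le f6 (by linarith)
    linarith
  -- the first part
  have hp1 : (128 * (Q : ℝ) ^ 3 + 8) * E ≤ (x : ℝ) ^ (1 - δ) / 2 := by
    have h1 : 4 * ((128 * (Q : ℝ) ^ 3 + 8) * E) ≤ (x : ℝ) ^ (1 - δ) := by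
      calc 4 * ((128 * (Q : ℝ) ^ 3 + 8) * E)
          ≤ (4 * (128 * 8 + 8)) * ((x : ℝ) ^ (3 * δ1) * E) := by
            have : (128 * (Q : ℝ) ^ 3 + 8) * E ≤ ((128 * 8 + 8) * (x : ℝ) ^ (3 * δ1)) * E :=
              mul_le_mul_of_nonneg_right (by linarith) hE0
            linarith
        _ ≤ (x : ℝ) ^ (τ / 2) * ((x : ℝ) ^ (3 * δ1) * E) :=
            mul_le_mul_of_nonneg_right f4 (by positivity)
        _ = (x : ℝ) ^ (τ / 2 + (3 * δ1 + (1 - τ))) := by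
            rw [hE, Real.rpow_add hx0, Real.rpow_add hx0 (3 * δ1)]
        _ ≤ _ := Real.rpow_le_rpow_of_exponent_le f6 (by linarith)
    have h2 : 0 ≤ (128 * (Q : ℝ) ^ 3 + 8) * E := by positivity
    linarith
  rw [hfin]
  linarith

/-- **the integer parts of a smoothly varying function of non-integral index have a power level of
distribution** -/
theorem sv_adm (h : SV c φ) : ∃ (δ : ℝ) (B : ℕ), 0 < δ ∧ δ ≤ 1 ∧ ∀ᶠ x : ℕ in atTop,
    (x : ℝ) ^ δ ≤ ⌊(x : ℝ) ^ δ⌋₊ ^ 2 ∧ Adm B x ⌊(x : ℝ) ^ δ⌋₊ (fun n => ⌊φ 0 n⌋) := by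
  obtain ⟨δ, hδ0, hδ1, hexp⟩ := sv_exp h
  have hc := h.pos
  obtain ⟨n₀, hn₀⟩ := eventually_atTop.mp ((tendsto_natCast_atTop_atTop (R := ℝ)).eventually
    (h.poly_up.and h.fpos))
  obtain ⟨K, hK⟩ : ∃ K : ℝ, K = ∑ n ∈ range n₀, |φ 0 n| := ⟨_, rfl⟩
  have hK0 : 0 ≤ K := by rw [hK]; exact sum_nonneg fun _ _ => abs_nonneg _
  obtain ⟨B, hB⟩ : ∃ B : ℕ, B = ⌈2 * (c + 3) / δ⌉₊ := ⟨_, rfl⟩
  have hBd : 2 * (c + 3) ≤ δ * B := by
    have : 2 * (c + 3) / δ ≤ B := by rw [hB]; exact Nat.le_ceil _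
    rw [div_le_iff₀ hδ0] at this
    linarith
  refine ⟨δ, B, hδ0, hδ1, ?_⟩
  have hev := (tendsto_natCast_atTop_atTop (R := ℝ)).eventually
    ((const_ev 4 δ hδ0).and ((const_ev (K + 2) 1 one_pos).and (eventually_ge_atTop (1 : ℝ))))
  filter_upwards [hexp, hev] with x hx hy
  obtain ⟨f1, f2, f3⟩ := hy
  rw [Real.rpow_one] at f2
  have hx0 : (0 : ℝ) < x := by linarith
  obtain ⟨L, hL⟩ : ∃ L : ℕ, L = ⌊(x : ℝ) ^ δ⌋₊ := ⟨_, rfl⟩
  rw [← hL]
  have hL1 : (L : ℝ) ≤ (x : ℝ) ^ δ := by rw [hL]; exact Nat.floor_le (by positivity)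
  have hL2 : (x : ℝ) ^ δ < L + 1 := by rw [hL]; exact Nat.lt_floor_add_one _
  have hL3 : (3 : ℝ) < L := by linarith
  have hL4 : 2 ≤ L := by
    have : (3 : ℝ) < L := hL3
    have : 3 < L := by exact_mod_cast this
    omega
  have hLsq : (x : ℝ) ^ δ ≤ (L : ℝ) ^ 2 := by nlinarith
  refine ⟨hLsq, ⟨hL4, fun m hm hmL r => ?_, fun n hn => ?_⟩⟩
  · refine (count_res x m hm r (fun n => ⌊φ 0 n⌋) (x / (x : ℝ) ^ δ) (by positivity)
      fun t ht htm => ?_).trans ?_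
    · refine hx m ?_ t ht htm
      refine le_trans ?_ hL1
      exact_mod_cast hmL
    · exact div_le_div_of_nonneg_left hx0.le (by linarith) hL1
  · rw [mem_Icc] at hn
    have hn1 : (1 : ℝ) ≤ n := by exact_mod_cast hn.1
    have hnx : (n : ℝ) ≤ x := by exact_mod_cast hn.2
    have h1 : |φ 0 n| ≤ K + (x : ℝ) ^ (c + 2) := by
      rcases Nat.lt_or_ge n n₀ with h2 | h2
      · have h3 : |φ 0 n| ≤ K := by
          rw [hK]
          exact single_le_sum (f := fun n : ℕ => |φ 0 n|) (fun _ _ => abs_nonneg _) (mem_range.2 h2)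
        have : 0 ≤ (x : ℝ) ^ (c + 2) := by positivity
        linarith
      · obtain ⟨h3, h4⟩ := hn₀ n h2
        rw [abs_of_pos h4]
        have h5 : (n : ℝ) ^ (c + 2) ≤ (x : ℝ) ^ (c + 2) :=
          Real.rpow_le_rpow (by linarith) hnx (by linarith)
        linarith
    have h2 : ((⌊φ 0 n⌋.natAbs : ℕ) : ℝ) ≤ |φ 0 n| + 1 := by
      rw [Nat.cast_natAbs]
      push_cast
      have h3 := Int.floor_le (φ 0 n)
      have h4 := Int.lt_floor_add_one (φ 0 n)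
      rw [abs_le]
      constructor
      · have := neg_abs_le (φ 0 n)
        linarith
      · have := le_abs_self (φ 0 n)
        linarith
    have h3 : ((⌊φ 0 n⌋.natAbs : ℕ) : ℝ) ≤ (L : ℝ) ^ B := by
      have h4 : 1 ≤ (x : ℝ) ^ (c + 2) := Real.one_le_rpow f3 (by linarith)
      calc ((⌊φ 0 n⌋.natAbs : ℕ) : ℝ) ≤ K + (x : ℝ) ^ (c + 2) + 1 := by linarith
        _ ≤ (K + 2) * (x : ℝ) ^ (c + 2) := by nlinarith
        _ ≤ x * (x : ℝ) ^ (c + 2) := mul_le_mul_of_nonneg_right f2 (by positivity)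
        _ = (x : ℝ) ^ (c + 3) := by
            rw [show c + 3 = 1 + (c + 2) by ring, Real.rpow_add hx0 1 (c + 2), Real.rpow_one]
        _ ≤ (x : ℝ) ^ (δ / 2 * B) := Real.rpow_le_rpow_of_exponent_le f3 (by linarith)
        _ = ((x : ℝ) ^ (δ / 2)) ^ B := by rw [← Real.rpow_natCast, ← Real.rpow_mul hx0.le]
        _ ≤ (L : ℝ) ^ B := by
            refine pow_le_pow_left₀ (by positivity) ?_ B
            have h6 : ((x : ℝ) ^ (δ / 2)) ^ 2 ≤ (L : ℝ) ^ 2 := by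
              rw [← Real.rpow_natCast, ← Real.rpow_mul hx0.le]
              refine le_trans (le_of_eq ?_) hLsq
              congr 1
              push_cast
              ring
            exact (pow_le_pow_iff_left₀ (by positivity) (by positivity) (by norm_num)).1 h6
    exact_mod_cast h3

end Pool.Agent.N870.SQ
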