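import Mathlib
import Pool.Agent.N870.SQ.Fl
import Pool.Agent.N870.SQ.Low

/-!
# Moments along the integer parts of smoothly varying functions

Seat helper870.
-/

set_option autoImplicit false

namespace Pool.Agent.N870.SQ

open Finset Polynomial Filter Pool.Agent.TH841.PT

open Pool.Agent.TH841.TR.N870 (Rgh)

section

variable {r : ℕ}

open Classical in
/-- few members of the sequence are zeros of a given polynomial -/
lemma zerosA (Q : ℤ[X]) (hQ : Q ≠ 0) : ∃ K : ℝ, 0 ≤ K ∧ ∀ (X L : ℕ) (α : ℕ → ℤ), Lev X L α →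
    1 ≤ L → (((Icc 1 X).filter (fun i : ℕ => Q.eval (α i) = 0)).card : ℝ) ≤ K * (X / L) := by
  refine ⟨(Q.roots.toFinset.card : ℝ) * 2, by positivity, fun X L α hα hL => ?_⟩
  have h1 : (Icc 1 X).filter (fun i : ℕ => Q.eval (α i) = 0) ⊆
      Q.roots.toFinset.biUnion (fun x => (Icc 1 X).filter (fun i : ℕ => (L : ℤ) ∣ α i - x)) := by
    intro i hi
    rw [mem_filter] at hi
    rw [mem_biUnion]
    refine ⟨α i, ?_, mem_filter.2 ⟨hi.1, by rw [sub_self]; exact dvd_zero _⟩⟩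
    rw [Multiset.mem_toFinset, mem_roots hQ]
    exact hi.2
  have h2 : (((Icc 1 X).filter (fun i : ℕ => Q.eval (α i) = 0)).card : ℝ) ≤
      ∑ x ∈ Q.roots.toFinset, (((Icc 1 X).filter (fun i : ℕ => (L : ℤ) ∣ α i - x)).card : ℝ) := by
    have := (card_le_card h1).trans card_biUnion_le
    exact_mod_cast this
  refine h2.trans ?_
  have h3 : ∀ x ∈ Q.roots.toFinset,
      (((Icc 1 X).filter (fun i : ℕ => (L : ℤ) ∣ α i - x)).card : ℝ) ≤ 2 * (X / L) := by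
    intro x _
    have := (abs_le.1 (hα L hL le_rfl x)).2
    linarith
  refine (sum_le_sum h3).trans (le_of_eq ?_)
  rw [sum_const, nsmul_eq_mul]
  ring

open Classical in
/-- the lower bound without the zeros of a polynomial -/
theorem lowQ {G : Fin r → ℤ[X]} (hG : Irr G)
    (hadm : ∀ p : ℕ, p.Prime → ∃ m : ℕ, ∀ i, ¬ (p : ℤ) ∣ (G i).eval (m : ℤ)) (Q : ℤ[X])
    (hQ : Q ≠ 0) :
    ∃ δ : ℝ, 0 < δ ∧ ∃ κ : ℝ, 0 < κ ∧ ∃ L₀ : ℕ, 3 ≤ L₀ ∧ ∀ (X L : ℕ) (α : ℕ → ℤ), Lev X L α →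
      L₀ ≤ L → κ * (X / (Real.log L) ^ r) ≤
        (((Icc 1 X).filter (fun i : ℕ => Q.eval (α i) ≠ 0 ∧ ∀ p : ℕ, p.Prime →
          (p : ℝ) ≤ (L : ℝ) ^ δ → ¬ (p : ℤ) ∣ (∏ j, G j).eval (α i))).card : ℝ) := by
  obtain ⟨δ, hδ, κ, hκ, L₀, hL₀, h⟩ := lowA hG hadm
  obtain ⟨K, hK0, hK⟩ := zerosA Q hQ
  have hev : ∀ᶠ L : ℕ in atTop, K * (Real.log L) ^ r ≤ κ / 2 * L := by
    have h3 := (Real.isLittleO_pow_log_id_atTop (n := r)).bound
      (show (0 : ℝ) < κ / 2 / (K + 1) by positivity)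
    have h4 := (tendsto_natCast_atTop_atTop (R := ℝ)).eventually h3
    filter_upwards [h4, (tendsto_natCast_atTop_atTop (R := ℝ)).eventually_ge_atTop 3] with L g3 g4
    have hl0 : 0 ≤ Real.log L := Real.log_nonneg (by linarith)
    rw [Real.norm_of_nonneg (pow_nonneg hl0 _)] at g3
    simp only [id] at g3
    rw [Real.norm_of_nonneg (by linarith)] at g3
    calc K * (Real.log L) ^ r ≤ (K + 1) * (Real.log L) ^ r :=
          mul_le_mul_of_nonneg_right (by linarith) (pow_nonneg hl0 _)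
      _ ≤ (K + 1) * (κ / 2 / (K + 1) * L) := mul_le_mul_of_nonneg_left g3 (by linarith)
      _ = _ := by field_simp
  obtain ⟨L₁, hL₁⟩ := eventually_atTop.1 hev
  refine ⟨δ, hδ, κ / 2, by positivity, L₀ + L₁, by omega, fun X L α hα hL => ?_⟩
  have h1 := h X L α hα (by omega)
  have h2 := hK X L α hα (by omega)
  have h3 := hL₁ L (by omega)
  have hL0 : (0 : ℝ) < L := by exact_mod_cast (by omega : 0 < L)
  have hL1 : (1 : ℝ) < L := by exact_mod_cast (by omega : 1 < L)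
  have hl : 0 < Real.log L := Real.log_pos hL1
  have h4 : K * ((X : ℝ) / L) ≤ κ / 2 * (X / (Real.log L) ^ r) := by
    have h5 : K / L ≤ κ / 2 / (Real.log L) ^ r := by
      rw [div_le_div_iff₀ hL0 (pow_pos hl r)]
      exact h3
    calc K * ((X : ℝ) / L) = X * (K / L) := by ring
      _ ≤ X * (κ / 2 / (Real.log L) ^ r) := mul_le_mul_of_nonneg_left h5 (Nat.cast_nonneg _)
      _ = _ := by ring
  have h5 : (((Icc 1 X).filter (fun i : ℕ => ∀ p : ℕ, p.Prime → (p : ℝ) ≤ (L : ℝ) ^ δ →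
          ¬ (p : ℤ) ∣ (∏ j, G j).eval (α i))).card : ℝ) ≤
      (((Icc 1 X).filter (fun i : ℕ => Q.eval (α i) ≠ 0 ∧ ∀ p : ℕ, p.Prime →
          (p : ℝ) ≤ (L : ℝ) ^ δ → ¬ (p : ℤ) ∣ (∏ j, G j).eval (α i))).card : ℝ) +
      (((Icc 1 X).filter (fun i : ℕ => Q.eval (α i) = 0)).card : ℝ) := by
    have h6 : (Icc 1 X).filter (fun i : ℕ => ∀ p : ℕ, p.Prime → (p : ℝ) ≤ (L : ℝ) ^ δ →
          ¬ (p : ℤ) ∣ (∏ j, G j).eval (α i)) ⊆
        (Icc 1 X).filter (fun i : ℕ => Q.eval (α i) ≠ 0 ∧ ∀ p : ℕ, p.Prime →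
          (p : ℝ) ≤ (L : ℝ) ^ δ → ¬ (p : ℤ) ∣ (∏ j, G j).eval (α i)) ∪
        (Icc 1 X).filter (fun i : ℕ => Q.eval (α i) = 0) := by
      intro i hi
      rw [mem_filter] at hi
      rw [mem_union, mem_filter, mem_filter]
      by_cases h7 : Q.eval (α i) = 0
      · exact Or.inr ⟨hi.1, h7⟩
      · exact Or.inl ⟨hi.1, h7, hi.2⟩
    exact_mod_cast (card_le_card h6).trans (card_union_le _ _)
  linarith

end

section

open Pool.Agent.TH841.NF (EF Gen)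

open Pool.Agent.TH841.NF.D (HasDiv crk rk)

open Classical in
/-- **all the moments along the integer parts of a smoothly varying function** -/
theorem main_fl {c : ℝ} {φ : ℕ → ℝ → ℝ} (hφ : Pool.Agent.N193.PS.SV c φ) {g : ℕ}
    {G : Fin g → ℤ[X]} (hG : Irr G)
    (hadm : ∀ p : ℕ, p.Prime → ∃ m : ℕ, ∀ i, ¬ (p : ℤ) ∣ (G i).eval (m : ℤ)) {A B' e₁ e₂ e₃ : ℤ}
    (hE : 4 * A ^ 3 + 27 * B' ^ 2 ≠ 0)
    (he : ∀ x : ℤ, x ^ 3 + A * x + B' = (x - e₁) * (x - e₂) * (x - e₃))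
    (s : ℕ) (D₀ : ℤ[X]) (hD₀ : D₀ ≠ 0) (D : Fin s → ℤ[X]) (hD : ∀ i, D i ≠ 0) :
    ∃ δ : ℝ, 0 < δ ∧ ∃ κ : ℝ, 0 < κ ∧ ∀ j : ℕ, ∃ (C : ℝ) (X₀ : ℕ), ∀ X : ℕ, X₀ ≤ X →
      ∀ P : Finset ℕ, P = (Icc 1 X).filter (fun n : ℕ =>
        (D₀.eval ⌊φ 0 n⌋ ≠ 0 ∧ ∀ i, (D i).eval ⌊φ 0 n⌋ ≠ 0) ∧
        ∀ i, ∀ p : ℕ, p.Prime → (p : ℤ) ∣ (G i).eval ⌊φ 0 n⌋ → (X : ℝ) ^ δ < p) →
      κ * (X / (Real.log X) ^ g) ≤ (P.card : ℝ) ∧
      ∀ (F : ℕ → Type) [∀ n, Field (F n)] [∀ n, NumberField (F n)],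
      (∀ n ∈ P, Gen (F n) (fun i => (D i).eval ⌊φ 0 n⌋)) →
      ∀ W : ∀ n, WeierstrassCurve (F n),
      (∀ n, W n = EF ((D₀.eval ⌊φ 0 n⌋) ^ 2 * A) ((D₀.eval ⌊φ 0 n⌋) ^ 3 * B') (F n)) →
      (∀ n ∈ P, BddAbove {q | HasDiv (W n) q}) ∧
      ∑ n ∈ P, ((2 : ℝ) ^ (rk (W n) + crk (W n))) ^ j ≤ C * P.card ∧
      ∀ m : ℕ, ((P.filter (fun n => m ≤ rk (W n) + crk (W n))).card : ℝ) ≤
        C * P.card / 2 ^ (j * m) := by
  obtain ⟨δ₀, B, hδ₀, hδ₀1, hadmis⟩ := sv_adm hφ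
  set Q : ℤ[X] := D₀ * ∏ i, D i with hQ
  have hQne : Q ≠ 0 := mul_ne_zero hD₀ (prod_ne_zero_iff.2 fun i _ => hD i)
  obtain ⟨δ₁, hδ₁, κ₁, hκ₁, L₀, hL₀, hlow⟩ := lowQ hG hadm Q hQne
  obtain ⟨δ, hδ⟩ : ∃ δ : ℝ, δ = δ₀ * δ₁ / 2 := ⟨_, rfl⟩
  have hδ0 : 0 < δ := by rw [hδ]; positivity
  refine ⟨δ, hδ0, κ₁, hκ₁, fun j => ?_⟩
  obtain ⟨C, hC0, hC⟩ := mqA hG hE he s D₀ hD₀ D hD B δ hδ0 0 j
  obtain ⟨X₁, hX₁⟩ := eventually_atTop.1 (hadmis.and
    ((tendsto_natCast_atTop_atTop (R := ℝ)).eventually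
      ((Pool.Agent.N193.PS.const_ev ((L₀ : ℝ) + 1) δ₀ hδ₀).and (eventually_ge_atTop (3 : ℝ)))))
  refine ⟨C * (2 / δ₀) ^ g / κ₁, X₁, fun X hX P hP => ?_⟩
  obtain ⟨⟨hsq, hA⟩, g1, g2⟩ := hX₁ X hX
  obtain ⟨L, hL⟩ : ∃ L : ℕ, L = ⌊(X : ℝ) ^ δ₀⌋₊ := ⟨_, rfl⟩
  rw [← hL] at hsq hA
  have hX0 : (0 : ℝ) < X := by linarith
  have hX1 : (1 : ℝ) < X := by linarith
  have hL1 : (L : ℝ) ≤ (X : ℝ) ^ δ₀ := by rw [hL]; exact Nat.floor_le (by positivity)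
  have hL2 : (X : ℝ) ^ δ₀ < L + 1 := by rw [hL]; exact Nat.lt_floor_add_one _
  have hLL0 : L₀ ≤ L := by
    have : (L₀ : ℝ) < L + 1 := by linarith
    have : L₀ < L + 1 := by exact_mod_cast this
    omega
  have hLX : (L : ℝ) ≤ X := by
    refine hL1.trans ?_
    calc (X : ℝ) ^ δ₀ ≤ (X : ℝ) ^ (1 : ℝ) := Real.rpow_le_rpow_of_exponent_le hX1.le hδ₀1
      _ = X := Real.rpow_one _
  have hL0 : (0 : ℝ) < L := by exact_mod_cast (by omega : 0 < L)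
  have hL1' : (1 : ℝ) < L := by exact_mod_cast (by omega : 1 < L)
  have hlL : 0 < Real.log L := Real.log_pos hL1'
  have hlX : 0 < Real.log X := Real.log_pos hX1
  have hlLX : Real.log L ≤ Real.log X := Real.log_le_log hL0 hLX
  have hlXL : δ₀ / 2 * Real.log X ≤ Real.log L := by
    have h1 : Real.log ((X : ℝ) ^ δ₀) ≤ Real.log ((L : ℝ) ^ 2) :=
      Real.log_le_log (by positivity) hsq
    rw [Real.log_rpow hX0, Real.log_pow] at h1
    push_cast at h1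
    linarith
  -- the lower bound
  have hXδ : (X : ℝ) ^ δ ≤ (L : ℝ) ^ δ₁ := by
    calc (X : ℝ) ^ δ = ((X : ℝ) ^ δ₀) ^ (δ₁ / 2) := by
          rw [← Real.rpow_mul hX0.le, hδ]
          congr 1
          ring
      _ ≤ ((L : ℝ) ^ 2) ^ (δ₁ / 2) := Real.rpow_le_rpow (by positivity) hsq (by positivity)
      _ = (L : ℝ) ^ δ₁ := by
          rw [← Real.rpow_natCast, ← Real.rpow_mul hL0.le]
          congr 1
          push_cast
          ring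
  have hcard1 : κ₁ * (X / (Real.log X) ^ g) ≤ (P.card : ℝ) := by
    calc κ₁ * (X / (Real.log X) ^ g) ≤ κ₁ * (X / (Real.log L) ^ g) := by
          refine mul_le_mul_of_nonneg_left ?_ hκ₁.le
          exact div_le_div_of_nonneg_left hX0.le (pow_pos hlL g) (pow_le_pow_left₀ hlL.le hlLX g)
      _ ≤ _ := hlow X L _ hA.lev hLL0
      _ ≤ (P.card : ℝ) := by
          rw [Nat.cast_le, hP]
          apply card_le_card
          intro n hn
          rw [mem_filter] at hn ⊢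
          refine ⟨hn.1, ⟨?_, ?_⟩, fun i p hp hd => ?_⟩
          · have := hn.2.1
            rw [hQ, eval_mul] at this
            exact left_ne_zero_of_mul this
          · intro i
            have := hn.2.1
            rw [hQ, eval_mul, eval_prod] at this
            exact prod_ne_zero_iff.1 (right_ne_zero_of_mul this) i (mem_univ i)
          · by_contra hcon
            refine hn.2.2 p hp ((not_lt.1 hcon).trans hXδ) ?_
            rw [eval_prod]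
            exact hd.trans (dvd_prod_of_mem _ (mem_univ i))
  refine ⟨hcard1, fun F _ _ hF W hW => ?_⟩
  have hPmem : ∀ n ∈ P, n ∈ Icc 1 X ∧ (D₀.eval ⌊φ 0 n⌋ ≠ 0 ∧ ∀ i, (D i).eval ⌊φ 0 n⌋ ≠ 0) ∧
      ∀ i, ∀ p : ℕ, p.Prime → (p : ℤ) ∣ (G i).eval ⌊φ 0 n⌋ → (X : ℝ) ^ δ < p := by
    intro n hn
    rw [hP] at hn
    exact mem_filter.1 hn
  have hmain := hC X L (fun n => ⌊φ 0 n⌋) hA P (fun n hn => (hPmem n hn).1)
    (fun n hn => ⟨(hPmem n hn).2.1, fun p hp _ hpL hd => by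
      rw [eval_prod] at hd
      obtain ⟨i, _, hi⟩ := ((Nat.prime_iff_prime_int.1 hp).dvd_finsetProd_iff _).1 hd
      have h1 := (hPmem n hn).2.2 i p hp hi
      have h2 : (L : ℝ) ^ δ ≤ (X : ℝ) ^ δ := Real.rpow_le_rpow hL0.le hLX hδ0.le
      linarith⟩) F hF W hW
  have hbound : C * (X / (Real.log L) ^ g) ≤ C * (2 / δ₀) ^ g / κ₁ * P.card := by
    have h1 : (X : ℝ) / (Real.log L) ^ g ≤ (2 / δ₀) ^ g * (X / (Real.log X) ^ g) := by
      calc (X : ℝ) / (Real.log L) ^ g ≤ X / (δ₀ / 2 * Real.log X) ^ g :=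
            div_le_div_of_nonneg_left hX0.le (by positivity)
              (pow_le_pow_left₀ (by positivity) hlXL g)
        _ = _ := by
            rw [mul_pow, div_pow, div_pow]
            field_simp
    have h2 : (X : ℝ) / (Real.log X) ^ g ≤ 1 / κ₁ * P.card := by
      rw [one_div, inv_mul_eq_div, le_div_iff₀ hκ₁]
      linarith
    calc C * (X / (Real.log L) ^ g) ≤ C * ((2 / δ₀) ^ g * (1 / κ₁ * P.card)) := by
          refine mul_le_mul_of_nonneg_left (h1.trans ?_) hC0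
          exact mul_le_mul_of_nonneg_left h2 (by positivity)
      _ = _ := by ring
  refine ⟨hmain.1, hmain.2.1.trans hbound, fun m => (hmain.2.2 m).trans ?_⟩
  exact div_le_div_of_nonneg_right hbound (by positivity)

end

end Pool.Agent.N870.SQ
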