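import Mathlib
import Pool.Agent.TH841.PT.Cnt3G
import Pool.Agent.N870.SQ.Cnt

/-!
# The counting lemma for pencils at the members of a sequence
(adaptation of `Pool.Agent.TH841.PT.cnt3G`)
-/

set_option autoImplicit false

namespace Pool.Agent.N870.SQ

open Finset Polynomial Pool.Agent.W262.RK Pool.Agent.W307.RT Pool.Agent.W307.RS
open Pool.Agent.TH841.PT

open Pool.Agent.H474R2.PG (rho)

section

variable {J : Type} [Fintype J] [DecidableEq J]

/-- the element belongs to the set of the counting lemma -/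
lemma mem_SetA {cls : J → Fin 4} {a : Fin 3 → ℤ} {f : J → ℤ[X]} {z c : ℕ} (h : Gp a f z c)
    {G : ℤ[X]} {α : ℕ → ℤ} {X y Y : ℕ} (hzy : z < y) {s v u : J × Ty → ℕ}
    (hs : s ∈ Tup (J × Ty) z y)
    (hv : v ∈ Tup (J × Ty) z y) (hu : u ∈ Tup (J × Ty) y Y) {E : Finset ℕ} {t : ℕ}
    (ht : t ∈ Icc 1 X) (h0 : ∀ j, (f j).eval (α t) ≠ 0)
    (h1 : S1 z y (prt cls a f z (α t)) = s)
    (h2 : S2 z y (prt cls a f z (α t)) = v)
    (h3 : ∀ i, (u i : ℤ) ∣ prt cls a f z (α t) i)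
    (h4 : negx cls (fun l => (f l).eval (α t))
      (S1 z y (fun l => (f l).eval (α t))) = E)
    (hG : ∀ p ∈ PS z y, ¬ (p : ℤ) ∣ G.eval (α t)) :
    t ∈ SetA (∏ j, f j) G (tau cls a f) (sgm f) z y α X (∏ i, s i) (∏ i, v i) (∏ i, u i)
      (Est s v u) (P3 (clsI cls) s) E := by
  have e : (α t - 1) + ((1 : ℕ) : ℤ) = α t := by simp
  have key := mem_SetH' (N := α t - 1) (X := 1) (t := 1) (E := E) h hzy hs hv hu (by simp)
    (by rw [e]; exact h0) (by rw [e]; exact h1) (by rw [e]; exact h2) (by rw [e]; exact h3)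
    (by rw [e]; exact h4)
  unfold SetH at key
  unfold SetA
  simp only [mem_filter] at key ⊢
  rw [e] at key
  exact ⟨ht, key.2.1, key.2.2.1, key.2.2.2.1, key.2.2.2.2.1, key.2.2.2.2.2.1, hG⟩

/-- **the counting lemma**, with a second polynomial -/
theorem cnt3A (cls : J → Fin 4) {a : Fin 3 → ℤ} {f : J → ℤ[X]} {z c : ℕ}
    (h : Gp a f z c) {G : ℤ[X]} (hG2 : Good2 (∏ j, f j) G z c) :
    ∃ (C : ℝ) (K y0 : ℕ), 0 ≤ C ∧ 1 ≤ K ∧ ∀ (α : ℕ → ℤ) (X L y Y : ℕ), Lev X L α → y0 ≤ y → z < y → y ^ K ≤ L →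
    ∀ s v u : J × Ty → ℕ, s ∈ Tup (J × Ty) z y → v ∈ Tup (J × Ty) z y → u ∈ Tup (J × Ty) y Y →
    (∏ i, s i * v i * u i) ^ 8 ≤ L → ∀ (E : Finset ℕ) (T' : Finset ℕ),
    (∀ t ∈ T', t ∈ Icc 1 X ∧ (∀ j, (f j).eval (α t) ≠ 0) ∧
      S1 z y (prt cls a f z (α t)) = s ∧ S2 z y (prt cls a f z (α t)) = v ∧
      (∀ i, (u i : ℤ) ∣ prt cls a f z (α t) i) ∧
      negx cls (fun l => (f l).eval (α t))
        (S1 z y (fun l => (f l).eval (α t))) = E ∧
      ∀ p ∈ PS z y, ¬ (p : ℤ) ∣ G.eval (α t)) →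
    (T'.card : ℝ) ≤ C * X * (1 / 2) ^ (P3 (clsI cls) s).card *
      (∏ i, gp (rT cls a f z i) c (s i)) * (∏ i, gp (rT cls a f z i) c (v i) / v i) *
      (∏ i, (c : ℝ) ^ (u i).primeFactors.card / u i) *
      Real.exp (-Sp (fun p => rho (∏ j, f j) p) z y) *
      Real.exp (-Sp (fun p => rho G p) z y) := by
  obtain ⟨C, K, y0, hC0, hK, hC⟩ := cnta c z h.two
  refine ⟨C, K, y0, hC0, hK, fun α X L y Y hα hy0 hzy hyK s v u hs hv hu h8 E T' hT' => ?_⟩
  have hz2 := h.two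
  have h8' : ((∏ i, s i) * (∏ i, v i) * ∏ i, u i) ^ 8 ≤ L := by
    rwa [← prod_mul_distrib, ← prod_mul_distrib]
  have hP3 : P3 (clsI cls) s ⊆ (∏ i, s i).primeFactors := by
    unfold P3
    refine Nat.primeFactors_mono ?_ (prod_ne_zero_iff.2 fun i _ => Tup_ne hs i)
    exact prod_dvd_prod_of_subset _ _ _ (filter_subset _ _)
  have hmain := hC (∏ j, f j) G h.good hG2 (Finset (J × Ty)) (tau cls a f) (sgm f)
    (fun p _ _ t => tau_period cls a f p t)
    (fun p hp _ t => ⟨sgm_period f p t, sgm_pm f hp t⟩) α X L y Y hα hy0 hzy hyK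
    (∏ i, s i) (∏ i, v i) (∏ i, u i) (Pool.Agent.TH841.PT.Tup_prod_dvd hs)
    (Pool.Agent.TH841.PT.Tup_prod_dvd hv) (Pool.Agent.TH841.PT.Tup_prod_dvd hu) h8'
    (Est s v u) (P3 (clsI cls) s) E hP3
  have hsub : T' ⊆ SetA (∏ j, f j) G (tau cls a f) (sgm f) z y α X (∏ i, s i) (∏ i, v i)
      (∏ i, u i) (Est s v u) (P3 (clsI cls) s) E := by
    intro t ht
    obtain ⟨h1, h2, h3, h4, h5, h6, h7⟩ := hT' t ht
    exact mem_SetA h hzy hs hv hu h1 h2 h3 h4 h5 h6 h7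
  have hcard : (T'.card : ℝ) ≤ _ := le_trans (by exact_mod_cast card_le_card hsub) hmain
  refine hcard.trans ?_
  have hden : ∀ {y' : ℕ} {s' : J × Ty → ℕ} (_ : s' ∈ Tup (J × Ty) z y') (i : J × Ty) (p : ℕ),
      p ∈ (s' i).primeFactors → (0 : ℝ) < (p : ℝ) - c := by
    intro y' s' hs' i p hp
    have h1 := Tup_prime hs' (Nat.prime_of_mem_primeFactors hp) (Nat.dvd_of_mem_primeFactors hp)
    have h2 : (c : ℝ) < p := by exact_mod_cast (by omega : c < p)
    linarith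
  have e1 : ∏ p ∈ (∏ i, s i).primeFactors,
      (rhoT (∏ j, f j) (tau cls a f) p (Est s v u p) : ℝ) / ((p : ℝ) - c) ≤
      ∏ i, gp (rT cls a f z i) c (s i) := by
    rw [prod_primes hs]
    refine prod_le_prod (fun i _ => prod_nonneg fun p hp => div_nonneg (Nat.cast_nonneg _)
      (hden hs i p hp).le) fun i _ => ?_
    unfold gp
    refine prod_le_prod (fun p hp => div_nonneg (Nat.cast_nonneg _)
      (hden hs i p hp).le) fun p hp => ?_
    have hpp := Nat.prime_of_mem_primeFactors hp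
    have hpd := Nat.dvd_of_mem_primeFactors hp
    refine div_le_div_of_nonneg_right (rhoT_le hpp (Tup_prime hs hpp hpd).1 _ ?_)
      (hden hs i p hp).le
    exact mem_filter.2 ⟨mem_univ _, (hpd.mul_right _).mul_right _⟩
  have e2 : (∏ p ∈ (∏ i, v i).primeFactors,
      (rhoT (∏ j, f j) (tau cls a f) p (Est s v u p) : ℝ) / ((p : ℝ) - c)) / ((∏ i, v i : ℕ) : ℝ) ≤
      ∏ i, gp (rT cls a f z i) c (v i) / v i := by
    rw [prod_primes hv, Nat.cast_prod, ← prod_div_distrib]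
    refine prod_le_prod (fun i _ => div_nonneg (prod_nonneg fun p hp =>
      div_nonneg (Nat.cast_nonneg _) (hden hv i p hp).le) (Nat.cast_nonneg _)) fun i _ => ?_
    refine div_le_div_of_nonneg_right ?_ (Nat.cast_nonneg _)
    unfold gp
    refine prod_le_prod (fun p hp => div_nonneg (Nat.cast_nonneg _)
      (hden hv i p hp).le) fun p hp => ?_
    have hpp := Nat.prime_of_mem_primeFactors hp
    have hpd := Nat.dvd_of_mem_primeFactors hp
    refine div_le_div_of_nonneg_right (rhoT_le hpp (Tup_prime hv hpp hpd).1 _ ?_)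
      (hden hv i p hp).le
    exact mem_filter.2 ⟨mem_univ _, (hpd.mul_left _).mul_right _⟩
  have e3 : (∏ p ∈ (∏ i, u i).primeFactors,
      (rhoT (∏ j, f j) (tau cls a f) p (Est s v u p) : ℝ)) / ((∏ i, u i : ℕ) : ℝ) ≤
      ∏ i, (c : ℝ) ^ (u i).primeFactors.card / u i := by
    rw [prod_primes hu, Nat.cast_prod, ← prod_div_distrib]
    refine prod_le_prod (fun i _ => div_nonneg (prod_nonneg fun p hp =>
      Nat.cast_nonneg _) (Nat.cast_nonneg _)) fun i _ => ?_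
    refine div_le_div_of_nonneg_right ?_ (Nat.cast_nonneg _)
    rw [← prod_const]
    refine prod_le_prod (fun p hp => Nat.cast_nonneg _) fun p hp => ?_
    have hpp := Nat.prime_of_mem_primeFactors hp
    have hpd := Nat.dvd_of_mem_primeFactors hp
    have h1 := (Tup_prime hu hpp hpd).1
    exact rhoT_le_c h hpp (by omega) _
  have n1 : 0 ≤ ∏ p ∈ (∏ i, s i).primeFactors,
      (rhoT (∏ j, f j) (tau cls a f) p (Est s v u p) : ℝ) / ((p : ℝ) - c) := by
    rw [prod_primes hs]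
    exact prod_nonneg fun i _ => prod_nonneg fun p hp => div_nonneg (Nat.cast_nonneg _)
      (hden hs i p hp).le
  have n2 : 0 ≤ (∏ p ∈ (∏ i, v i).primeFactors,
      (rhoT (∏ j, f j) (tau cls a f) p (Est s v u p) : ℝ) / ((p : ℝ) - c)) /
        ((∏ i, v i : ℕ) : ℝ) := by
    rw [prod_primes hv]
    exact div_nonneg (prod_nonneg fun i _ => prod_nonneg fun p hp =>
      div_nonneg (Nat.cast_nonneg _) (hden hv i p hp).le) (Nat.cast_nonneg _)
  have n3 : 0 ≤ (∏ p ∈ (∏ i, u i).primeFactors,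
      (rhoT (∏ j, f j) (tau cls a f) p (Est s v u p) : ℝ)) / ((∏ i, u i : ℕ) : ℝ) :=
    div_nonneg (prod_nonneg fun _ _ => Nat.cast_nonneg _) (Nat.cast_nonneg _)
  refine mul_le_mul_of_nonneg_right ?_ (Real.exp_pos _).le
  refine mul_le_mul_of_nonneg_right ?_ (Real.exp_pos _).le
  refine mul_le_mul ?_ e3 n3 ?_
  · refine mul_le_mul ?_ e2 n2 ?_
    · exact mul_le_mul_of_nonneg_left e1 (by positivity)
    · exact mul_nonneg (by positivity) (n1.trans e1)
  · exact mul_nonneg (mul_nonneg (by positivity) (n1.trans e1)) (n2.trans e2)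


end

end Pool.Agent.N870.SQ
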