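import Mathlib
import Pool.Agent.Y723.PJ.Cnt
import Pool.Agent.N870.SQ.Cnt

/-!
# The counting lemma for Jacobians at the members of a sequence
(adaptation of `Pool.Agent.Y723.PJ.cntj`)
-/

set_option autoImplicit false

namespace Pool.Agent.N870.SQ

open Finset Polynomial Pool.Agent.W262.RK Pool.Agent.W307.RT Pool.Agent.W307.RS
open Pool.Agent.TH841.PT Pool.Agent.TH344.JG Pool.Agent.TH344.PJ Pool.Agent.Y723.PJ

open Pool.Agent.H474R2.PG (rho)

/-- the element belongs to the set of the counting lemma -/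
lemma mem_SetAJ {J : Type} [Fintype J] [DecidableEq J] {n : ℕ} {u : Fin n → ℤ[X]}
    {cls : J → PR n} {κ : PR n → ℤ} {f : J → ℤ[X]} {z c : ℕ}
    (h : GoodP κ f z c) {G : ℤ[X]}
    {α : ℕ → ℤ} {X y Y : ℕ} (hzy : z < y) {s v w : J × Bool → ℕ} (hs : s ∈ Tup (J × Bool) z y)
    (hv : v ∈ Tup (J × Bool) z y) (hw : w ∈ Tup (J × Bool) y Y) {t : ℕ}
    (ht : t ∈ Icc 1 X) (h0 : ∀ j, (f j).eval (α t) ≠ 0)
    (h1 : S1 z y (prJ u cls f z (α t)) = s)
    (h2 : S2 z y (prJ u cls f z (α t)) = v)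
    (h3 : ∀ i, (w i : ℤ) ∣ prJ u cls f z (α t) i)
    (hG : ∀ p ∈ PS z y, ¬ (p : ℤ) ∣ G.eval (α t)) :
    t ∈ SetA (∏ j, f j) G (tauJ u cls f) (fun _ _ => 1) z y α X (∏ i, s i) (∏ i, v i) (∏ i, w i)
      (EstJ s v w) ∅ ∅ := by
  have e : (α t - 1) + ((1 : ℕ) : ℤ) = α t := by simp
  have key := mem_SetHJ (N := α t - 1) (X := 1) (t := 1) (G := G) h hzy hs hv hw (by simp)
    (by rw [e]; exact h0) (by rw [e]; exact h1) (by rw [e]; exact h2) (by rw [e]; exact h3)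
    (by rw [e]; exact hG)
  unfold SetH at key
  unfold SetA
  simp only [mem_filter] at key ⊢
  rw [e] at key
  exact ⟨ht, key.2⟩

theorem cntJA (n : ℕ) (J : Type) [Fintype J] [DecidableEq J]
    (u : Fin n → ℤ[X]) (κ : PR n → ℤ) (cls : J → PR n) (f : J → ℤ[X]) (z c : ℕ) (G : ℤ[X])
    (h : GoodP κ f z c) (hG2 : Good2 (∏ j, f j) G z c) :
    ∃ (C : ℝ) (K y0 : ℕ), 0 ≤ C ∧ 1 ≤ K ∧ ∀ (α : ℕ → ℤ) (X L y Y : ℕ), Lev X L α → y0 ≤ y →
      z < y → y ^ K ≤ L →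
    ∀ s v w : J × Bool → ℕ, s ∈ Tup (J × Bool) z y → v ∈ Tup (J × Bool) z y →
    w ∈ Tup (J × Bool) y Y → (∏ i, s i * v i * w i) ^ 8 ≤ L → ∀ T' : Finset ℕ,
    (∀ t ∈ T', t ∈ Icc 1 X ∧ (∀ j, (f j).eval (α t) ≠ 0) ∧
      S1 z y (prJ u cls f z (α t)) = s ∧ S2 z y (prJ u cls f z (α t)) = v ∧
      (∀ i, (w i : ℤ) ∣ prJ u cls f z (α t) i) ∧
      ∀ p ∈ PS z y, ¬ (p : ℤ) ∣ G.eval (α t)) →
    (T'.card : ℝ) ≤ C * X * (∏ i, gp (rJ u cls f z i) c (s i)) *
      (∏ i, gp (rJ u cls f z i) c (v i) / v i) *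
      (∏ i, (c : ℝ) ^ (w i).primeFactors.card / w i) *
      Real.exp (-Sp (fun p => rho (∏ j, f j) p) z y) * Real.exp (-Sp (fun p => rho G p) z y) := by
  obtain ⟨C, K, y0, hC0, hK, hC⟩ := cnta c z h.two
  refine ⟨C, K, y0, hC0, hK, fun α X L y Y hα hy0 hzy hyK s v w hs hv hw h8 T' hT' => ?_⟩
  have hz2 := h.two
  have h8' : ((∏ i, s i) * (∏ i, v i) * ∏ i, w i) ^ 8 ≤ L := by
    rwa [← prod_mul_distrib, ← prod_mul_distrib]
  have hmain := hC (∏ j, f j) G h.good hG2 (Finset (J × Bool)) (tauJ u cls f) (fun _ _ => 1)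
    (fun p _ _ t => tauJ_period u cls f p t)
    (fun p hp _ t => ⟨rfl, Or.inl rfl⟩) α X L y Y hα hy0 hzy hyK
    (∏ i, s i) (∏ i, v i) (∏ i, w i) (Pool.Agent.TH841.PT.Tup_prod_dvd hs) (Pool.Agent.TH841.PT.Tup_prod_dvd hv) (Pool.Agent.TH841.PT.Tup_prod_dvd hw) h8'
    (EstJ s v w) ∅ ∅ (empty_subset _)
  have hsub : T' ⊆ SetA (∏ j, f j) G (tauJ u cls f) (fun _ _ => 1) z y α X (∏ i, s i)
      (∏ i, v i) (∏ i, w i) (EstJ s v w) ∅ ∅ := by
    intro t ht
    obtain ⟨h1, h2, h3, h4, h5, h7⟩ := hT' t ht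
    exact mem_SetAJ h hzy hs hv hw h1 h2 h3 h4 h5 h7
  have hcard : (T'.card : ℝ) ≤ _ := le_trans (by exact_mod_cast card_le_card hsub) hmain
  refine hcard.trans ?_
  rw [card_empty, pow_zero, mul_one]
  have hden : ∀ {y' : ℕ} {s' : J × Bool → ℕ} (_ : s' ∈ Tup (J × Bool) z y') (i : J × Bool)
      (p : ℕ), p ∈ (s' i).primeFactors → (0 : ℝ) < (p : ℝ) - c := by
    intro y' s' hs' i p hp
    have h1 := Tup_prime hs' (Nat.prime_of_mem_primeFactors hp) (Nat.dvd_of_mem_primeFactors hp)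
    have h2 : (c : ℝ) < p := by exact_mod_cast (by omega : c < p)
    linarith
  have e1 : ∏ p ∈ (∏ i, s i).primeFactors,
      (rhoT (∏ j, f j) (tauJ u cls f) p (EstJ s v w p) : ℝ) / ((p : ℝ) - c) ≤
      ∏ i, gp (rJ u cls f z i) c (s i) := by
    rw [prod_primes hs]
    refine prod_le_prod (fun i _ => prod_nonneg fun p hp => div_nonneg (Nat.cast_nonneg _)
      (hden hs i p hp).le) fun i _ => ?_
    unfold gp
    refine prod_le_prod (fun p hp => div_nonneg (Nat.cast_nonneg _)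
      (hden hs i p hp).le) fun p hp => ?_
    have hpp := Nat.prime_of_mem_primeFactors hp
    have hpd := Nat.dvd_of_mem_primeFactors hp
    refine div_le_div_of_nonneg_right (rhoTJ_le hpp (Tup_prime hs hpp hpd).1 _ ?_)
      (hden hs i p hp).le
    exact mem_filter.2 ⟨mem_univ _, (hpd.mul_right _).mul_right _⟩
  have e2 : (∏ p ∈ (∏ i, v i).primeFactors,
      (rhoT (∏ j, f j) (tauJ u cls f) p (EstJ s v w p) : ℝ) / ((p : ℝ) - c)) /
        ((∏ i, v i : ℕ) : ℝ) ≤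
      ∏ i, gp (rJ u cls f z i) c (v i) / v i := by
    rw [prod_primes hv, Nat.cast_prod, ← prod_div_distrib]
    refine prod_le_prod (fun i _ => div_nonneg (prod_nonneg fun p hp =>
      div_nonneg (Nat.cast_nonneg _) (hden hv i p hp).le) (Nat.cast_nonneg _)) fun i _ => ?_
    refine div_le_div_of_nonneg_right ?_ (Nat.cast_nonneg _)
    unfold gp
    refine prod_le_prod (fun p hp => div_nonneg (Nat.cast_nonneg _)
      (hden hv i p hp).le) fun p hp => ?_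
    have hpp := Nat.prime_of_mem_primeFactors hp
    have hpd := Nat.dvd_of_mem_primeFactors hp
    refine div_le_div_of_nonneg_right (rhoTJ_le hpp (Tup_prime hv hpp hpd).1 _ ?_)
      (hden hv i p hp).le
    exact mem_filter.2 ⟨mem_univ _, (hpd.mul_left _).mul_right _⟩
  have e3 : (∏ p ∈ (∏ i, w i).primeFactors,
      (rhoT (∏ j, f j) (tauJ u cls f) p (EstJ s v w p) : ℝ)) / ((∏ i, w i : ℕ) : ℝ) ≤
      ∏ i, (c : ℝ) ^ (w i).primeFactors.card / w i := by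
    rw [prod_primes hw, Nat.cast_prod, ← prod_div_distrib]
    refine prod_le_prod (fun i _ => div_nonneg (prod_nonneg fun p hp =>
      Nat.cast_nonneg _) (Nat.cast_nonneg _)) fun i _ => ?_
    refine div_le_div_of_nonneg_right ?_ (Nat.cast_nonneg _)
    rw [← prod_const]
    refine prod_le_prod (fun p hp => Nat.cast_nonneg _) fun p hp => ?_
    have hpp := Nat.prime_of_mem_primeFactors hp
    have hpd := Nat.dvd_of_mem_primeFactors hp
    have h1 := (Tup_prime hw hpp hpd).1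
    exact rhoTJ_le_c h hpp (by omega) _
  have n1 : 0 ≤ ∏ p ∈ (∏ i, s i).primeFactors,
      (rhoT (∏ j, f j) (tauJ u cls f) p (EstJ s v w p) : ℝ) / ((p : ℝ) - c) := by
    rw [prod_primes hs]
    exact prod_nonneg fun i _ => prod_nonneg fun p hp => div_nonneg (Nat.cast_nonneg _)
      (hden hs i p hp).le
  have n2 : 0 ≤ (∏ p ∈ (∏ i, v i).primeFactors,
      (rhoT (∏ j, f j) (tauJ u cls f) p (EstJ s v w p) : ℝ) / ((p : ℝ) - c)) /
        ((∏ i, v i : ℕ) : ℝ) := by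
    rw [prod_primes hv]
    exact div_nonneg (prod_nonneg fun i _ => prod_nonneg fun p hp =>
      div_nonneg (Nat.cast_nonneg _) (hden hv i p hp).le) (Nat.cast_nonneg _)
  have n3 : 0 ≤ (∏ p ∈ (∏ i, w i).primeFactors,
      (rhoT (∏ j, f j) (tauJ u cls f) p (EstJ s v w p) : ℝ)) / ((∏ i, w i : ℕ) : ℝ) :=
    div_nonneg (prod_nonneg fun _ _ => Nat.cast_nonneg _) (Nat.cast_nonneg _)
  refine mul_le_mul_of_nonneg_right ?_ (Real.exp_pos _).le
  refine mul_le_mul_of_nonneg_right ?_ (Real.exp_pos _).le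
  refine mul_le_mul ?_ e3 n3 ?_
  · refine mul_le_mul ?_ e2 n2 ?_
    · exact mul_le_mul_of_nonneg_left e1 (by positivity)
    · exact mul_nonneg (by positivity) (n1.trans e1)
  · exact mul_nonneg (mul_nonneg (by positivity) (n1.trans e1)) (n2.trans e2)

end Pool.Agent.N870.SQ
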