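import Mathlib
import Pool.Agent.Y723.PJ.Avg
import Pool.Agent.N870.SQ.CntJ

/-!
# The moments of the 2-Selmer groups of Jacobians at the members of a sequence
(adaptation of `Pool.Agent.Y723.PJ.avgb_of`)
-/

set_option autoImplicit false

namespace Pool.Agent.N870.SQ

open Finset Polynomial Pool.Agent.W262.RK Pool.Agent.W307.RT Pool.Agent.W307.RS
open Pool.Agent.TH841.PT Pool.Agent.TH344.JG Pool.Agent.TH344.PJ Pool.Agent.TH344.PW
open Pool.Agent.TH344.JG.AvgJ Pool.Agent.TH344.JG.Sub11 Pool.Agent.Y723.PJ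

open Pool.Agent.H474R2.PG (rho)

/-- the parameters: the sequence, its length, its level, and a set of indices -/
structure PrmJ {J : Type} (B : ℕ) (f : J → ℤ[X]) (G : ℤ[X]) (z : ℕ) where
  α : ℕ → ℤ
  X : ℕ
  L : ℕ
  T : Finset ℕ
  hL : 1 ≤ L
  hα : Lev X L α
  hB : ∀ t ∈ Icc 1 X, (α t).natAbs ≤ L ^ B
  hT : T ⊆ Icc 1 X
  hT' : ∀ t ∈ T, (∀ j, (f j).eval (α t) ≠ 0) ∧ Sft G z L (α t)

/-- PJ-AVG: the weighted moments over short intervals, over the arguments where a second polynomial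
has no small prime factors. -/
theorem avgJA (hant : ANTX) (hrs : RSP) (hrv : RVP) (hru : RUP) (hgd : GDP) :
  ∀ (g k B : ℕ) (J : Type) [Fintype J] [DecidableEq J]
  (u : Fin (2 * g + 1) → ℤ[X]) (κ : PR (2 * g + 1) → ℤ) (cls : J → PR (2 * g + 1))
  (f : J → ℤ[X]) (T : Finset (J → ℝ)), 1 ≤ g → 1 ≤ k → Pn u κ cls f →
  (∀ t ∈ T, ∀ j, 0 < t j) → MAKB u κ cls f k T →
  ∀ G : ℤ[X], Squarefree (((∏ j, f j) * G).map (Int.castRingHom ℚ)) →
    ∃ z0 : ℕ, ∀ z, z0 ≤ z → ∃ C2 : ℝ, ∀ (X L : ℕ) (α : ℕ → ℤ), 1 ≤ L → Lev X L α →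
      (∀ t ∈ Icc 1 X, (α t).natAbs ≤ L ^ B) →
      ∀ T' : Finset ℕ, T' ⊆ Icc 1 X → (∀ t ∈ T', (∀ j, (f j).eval (α t) ≠ 0) ∧
        Sft G z L (α t)) →
      ∑ t ∈ T', ((SelJ (fun i => (u i).eval (α t))).ncard : ℝ) ^ k *
        Pool.Agent.TH344.DT.rho T (omf f (α t)) ≤
          C2 * (X * Real.exp (-Sp (fun p => (rho G p : ℝ)) z L)) := by
  classical
  intro g κ' B J _ _ u κ cls f T hg hκ' hP hT hM G hDG
  have hDG0 : (∏ j, f j) * G ≠ 0 := by
    intro h0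
    rw [h0, Polynomial.map_zero] at hDG
    exact not_squarefree_zero hDG
  set c := ((∏ j, f j) * G).natDegree + 1 with hc
  have hcc : (∏ j, f j).natDegree + 1 ≤ c := by
    rw [hc, natDegree_mul (left_ne_zero_of_mul hDG0) (right_ne_zero_of_mul hDG0)]
    omega
  obtain ⟨z0, hz0⟩ := hM c hcc
  obtain ⟨zg, hzg⟩ := hgd _ hDG
  refine ⟨z0 + zg, fun z hz => ?_⟩
  obtain ⟨hG, C', hC'⟩ := hz0 z (by omega)
  have hDGz : GoodD ((∏ j, f j) * G) z c := by
    intro p hp hzp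
    obtain ⟨h1, h2⟩ := hzg z (by omega) p hp hzp
    exact ⟨h1.trans (by omega), h2⟩
  have hG2 := (good2_of hDGz).2
  have hz4 := hG.four
  have hz2 := hG.two
  have hc1 := hG.one
  obtain ⟨Cc, K, y0, hC0, hK1, hcn⟩ := cntJA (2 * g + 1) J u κ cls f z c G hG hG2
  obtain ⟨CR, hCR0, hCR⟩ := rnkb g J u κ cls f z c hg hP hG
  obtain ⟨At, hAt0, hAt⟩ := tail_le (z := z) (by omega)
  obtain ⟨Kd, m, hKd⟩ := eval_le_all f
  have hDD : 1 ≤ DDJ T := one_le_DDJ hT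
  have hDD0 : 0 < DDJ T := by linarith
  set B' : ℕ := B * m + 1 with hB'
  set y1 : ℕ := y0 + Kd + 3 with hy1
  obtain ⟨e, he⟩ : ∃ e : ℝ, e = 2 ^ (2 * g + 1) := ⟨_, rfl⟩
  have he1 : 1 ≤ e := by rw [he]; exact one_le_pow₀ (by norm_num)
  have he0 : 0 < e := by linarith
  obtain ⟨b, hb⟩ : ∃ b : ℝ, b = e ^ κ' := ⟨_, rfl⟩
  have hb1 : 1 ≤ b := by rw [hb]; exact one_le_pow₀ he1
  have hb2 : (2 : ℝ) ^ κ' ≤ b := by
    rw [hb, he]
    refine pow_le_pow_left₀ (by norm_num) ?_ κ'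
    calc (2 : ℝ) = 2 ^ 1 := by norm_num
      _ ≤ 2 ^ (2 * g + 1) := pow_le_pow_right₀ (by norm_num) (by omega)
  have hbD : 1 ≤ b * DDJ T := one_le_mul_of_one_le_of_one_le hb1 hDD
  -- the summand
  let r : ℤ → ℝ := fun w => ((SelJ (fun i => (u i).eval w)).ncard : ℝ) ^ κ' *
    Pool.Agent.TH344.DT.rho T (omf f w)
  have hr0 : ∀ w, 0 ≤ r w := fun w => mul_nonneg (by positivity) (rjn hT _)
  suffices key : ∃ C2 : ℝ, ∀ θ : PrmJ B f G z, ∑ t ∈ θ.T, r (θ.α t) ≤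
        C2 * ((θ.X : ℝ) * Real.exp (-Sp (fun p => (rho G p : ℝ)) z θ.L)) by
    obtain ⟨C2, hC2⟩ := key
    exact ⟨C2, fun X L α hL hα hB T hT hT' => hC2 ⟨α, X, L, T, hL, hα, hB, hT, hT'⟩⟩
  set GG : (J × Bool → ℕ) → ℝ := fun s => (NV (adJ cls) s (Eneg s) : ℝ) ^ κ' *
    Pool.Agent.TH344.DT.rho T (om2 s) with hGdef
  have hG0 : ∀ s, 0 ≤ GG s := fun s => mul_nonneg (by positivity) (rjn hT _)
  have hcz : c ≤ z := by omega
  have hgn : ∀ {y' : ℕ} {s : J × Bool → ℕ} (_ : s ∈ Tup (J × Bool) z y') (i : J × Bool),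
      0 ≤ gp (rJ u cls f z i) c (s i) := fun hs i =>
    gp_nonneg (rJ_nonneg u cls f z i) hcz ((Pool.Agent.W405.RK2.mem_Tup.1 hs).1 i)
  refine hant (J × Bool) ℕ (PrmJ B f G z)
    (fun θ => θ.T)
    (fun θ => θ.L) (fun θ t => prJ u cls f z (θ.α t))
    (fun θ => (θ.X : ℝ) * Real.exp (-Sp (fun p => (rho G p : ℝ)) z θ.L)) z
    (fun y => Real.exp (Sp (fun p => rho (∏ j, f j) p) z y))
    (fun s => GG s * ∏ i, gp (rJ u cls f z i) c (s i))
    (fun v => ∏ i, ((b * DDJ T) ^ (v i).primeFactors.card * (gp (rJ u cls f z i) c (v i) / v i)))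
    (fun w => ∏ i, ((c : ℝ) ^ (w i).primeFactors.card / (w i : ℝ)))
    (fun θ t => r (θ.α t))
    (Cc * (CR ^ κ' * DDJ T ^ (Fintype.card J * z)) * Real.exp (c * At))
    (((e ^ (B' * Fintype.card J)) ^ κ' * DDJ T ^ (Fintype.card J * B')) * Real.exp c) (K + 2) y1
    (by omega) (fun y _ => Real.exp_pos _)
    (fun θ => θ.hL) (fun θ => by positivity) (fun X0 => ?_) (fun θ t ht => ?_)
    (fun θ t => hr0 _) (by positivity)
    (one_le_mul_of_one_le_of_one_le (one_le_mul_of_one_le_of_one_le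
      (one_le_pow₀ (one_le_pow₀ he1)) (one_le_pow₀ hDD))
      (Real.one_le_exp (Nat.cast_nonneg _))) (by omega)
    (fun y s hs => ⟨?_, ?_⟩) (fun y Y hzy w hw => ?_) (fun lam hlam => ?_)
    (fun lam hlam => ?_) (fun lam hlam => ?_) ?_
  · -- small scales
    refine ⟨(∑ n ∈ Icc (-((X0 : ℤ) ^ B)) ((X0 : ℤ) ^ B), r n) *
      Real.exp (Sp (fun p => (rho G p : ℝ)) z X0), ?_⟩
    rintro ⟨α, X, L, T, hL, hα, hB, hT, hT'⟩ hle
    simp only at hL hα hB hT hT' hle ⊢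
    have hX0 : L ^ B ≤ X0 ^ B := Nat.pow_le_pow_left hle B
    have h1 : ∀ t ∈ T, r (α t) ≤ ∑ n ∈ Icc (-((X0 : ℤ) ^ B)) ((X0 : ℤ) ^ B), r n := by
      intro t ht
      refine single_le_sum (f := r) (fun _ _ => hr0 _) ?_
      rw [mem_Icc]
      have h1 : ((α t).natAbs : ℤ) ≤ (X0 : ℤ) ^ B := by exact_mod_cast (hB t (hT ht)).trans hX0
      omega
    have h2 : ∑ t ∈ T, r (α t) ≤
        (X : ℝ) * ∑ n ∈ Icc (-((X0 : ℤ) ^ B)) ((X0 : ℤ) ^ B), r n := by
      refine (sum_le_sum h1).trans ?_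
      rw [sum_const, nsmul_eq_mul]
      refine mul_le_mul_of_nonneg_right ?_ (sum_nonneg fun _ _ => hr0 _)
      have := card_le_card hT
      rw [Nat.card_Icc, Nat.add_sub_cancel] at this
      exact_mod_cast this
    have h3 : 0 ≤ ∑ n ∈ Icc (-((X0 : ℤ) ^ B)) ((X0 : ℤ) ^ B), r n :=
      sum_nonneg fun _ _ => hr0 _
    have h5 : Sp (fun p => (rho G p : ℝ)) z L ≤ Sp (fun p => (rho G p : ℝ)) z X0 := by
      unfold Sp
      refine sum_le_sum_of_subset_of_nonneg ?_ fun p _ _ =>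
        div_nonneg (Nat.cast_nonneg _) (Nat.cast_nonneg _)
      intro p hp
      have := mem_PS'.1 hp
      exact mem_PS'.2 ⟨⟨this.1.1, this.1.2.trans hle⟩, this.2⟩
    have h6 : (1 : ℝ) ≤ Real.exp (Sp (fun p => (rho G p : ℝ)) z X0) *
        Real.exp (-Sp (fun p => (rho G p : ℝ)) z L) := by
      rw [← Real.exp_add]
      exact Real.one_le_exp (by linarith)
    calc ∑ t ∈ T, r (α t) ≤ (X : ℝ) * ∑ n ∈ Icc (-((X0 : ℤ) ^ B)) ((X0 : ℤ) ^ B), r n := h2
      _ ≤ ((X : ℝ) * ∑ n ∈ Icc (-((X0 : ℤ) ^ B)) ((X0 : ℤ) ^ B), r n) *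
          (Real.exp (Sp (fun p => (rho G p : ℝ)) z X0) *
            Real.exp (-Sp (fun p => (rho G p : ℝ)) z L)) :=
          le_mul_of_one_le_right (mul_nonneg (Nat.cast_nonneg _) h3) h6
      _ = _ := by ring
  · exact prJ_Gd hG (θ.hT' t ht).1
  · exact mul_nonneg (hG0 s) (prod_nonneg fun i _ => hgn hs i)
  · exact prod_nonneg fun i _ => mul_nonneg (by positivity)
      (div_nonneg (hgn hs i) (Nat.cast_nonneg _))
  · exact prod_nonneg fun i _ => by positivity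
  · -- the first sum
    obtain ⟨A, hA⟩ := hrs (J × Bool) z c (rJ u cls f z) GG
      (fun y => C' * Real.exp (Sp (fun p => rho (∏ j, f j) p) z y)) (b * DDJ T) lam (by omega)
      (fun i p => ⟨rJ_nonneg u cls f z i p, rJ_le hG i p⟩) hbD hlam hG0
      (fun y hy s e' hse => growthB hT (fun j l => adj (cls j) (cls l)) κ' z y (by omega) b hb2
        s e' hse)
      (fun y hy => by
        refine le_trans (le_of_eq ?_) (hC' y hy)
        refine sum_congr rfl fun s _ => ?_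
        rw [hGdef]
        show (NV (adJ cls) s (Eneg s) : ℝ) ^ κ' * Pool.Agent.TH344.DT.rho T (om2 s) * _ =
          (NV (adJ cls) s (Eneg s) : ℝ) ^ κ' * _ * Pool.Agent.TH344.DT.rho T (om2 s)
        ring)
    refine ⟨A * C', fun y hy => ?_⟩
    have := hA y hy
    rw [mul_assoc]
    exact this
  · exact hrv (J × Bool) z c (rJ u cls f z) (b * DDJ T) lam (by omega)
      (fun i p => ⟨rJ_nonneg u cls f z i p, rJ_le hG i p⟩) hbD hlam
  · exact hru (J × Bool) (c : ℝ) lam (by exact_mod_cast hc1) hlam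
  -- the local majorant
  rintro ⟨α, X, L, T0, hL1, hα, hB, hT0, hTT⟩ y Y k hy0 hzy hyK hk s hs v hv w hw h8 T' hT' hval
  simp only at hL1 hα hB hT0 hTT hyK hk h8 hT' hval ⊢
  have hy00 : y0 ≤ y := by omega
  have hyX : y ≤ L := le_trans (Nat.le_self_pow (by omega) y) hyK
  have hyK' : y ^ K ≤ L := (Nat.pow_le_pow_right (by omega) (by omega)).trans hyK
  have hy2 : y ^ 2 ≤ L := (Nat.pow_le_pow_right (by omega) (by omega)).trans hyK
  obtain ⟨W, hW⟩ : ∃ W : ℝ, W = (CR ^ κ' * DDJ T ^ (Fintype.card J * z)) *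
      ((e ^ (B' * Fintype.card J)) ^ κ' * DDJ T ^ (Fintype.card J * B')) ^ k *
      (∏ i, (b * DDJ T) ^ (v i).primeFactors.card) * GG s := ⟨_, rfl⟩
  have hW0 : 0 ≤ W := by
    rw [hW]
    exact mul_nonneg (by positivity) (hG0 s)
  have h1 : ∀ t ∈ T', r (α t) ≤ W := by
    intro t ht
    have htT := hT' ht
    have ht1 := hT0 htT
    have ht0 := (hTT t htT).1
    obtain ⟨hts, htv, _⟩ := hval t ht
    have hsize : ∀ j, ((f j).eval (α t)).natAbs ≤ L ^ B' := by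
      intro j
      calc ((f j).eval (α t)).natAbs ≤ Kd * (L ^ B) ^ m :=
            hKd _ _ (Nat.one_le_pow _ _ hL1) (hB t ht1) j
        _ ≤ L * (L ^ B) ^ m := Nat.mul_le_mul_right _ (by omega)
        _ = L ^ B' := by rw [hB', ← pow_mul]; ring
    have hr := (hCR y L k B' (α t) ht0 hsize hL1 (by omega) hk).2
    have hρ := rho_omf (u := u) (cls := cls) (z := z) (y := y) hT ht0 hsize hk
    rw [hts, htv, ← he] at hr
    rw [hts, htv] at hρ
    have hr' := pow_le_pow_left₀ (Nat.cast_nonneg _) hr κ'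
    refine (mul_le_mul hr' hρ (rjn hT _) (by positivity)).trans (le_of_eq ?_)
    rw [hW, hb, hGdef]
    have e1 : ∏ i, (e ^ κ' * DDJ T) ^ (v i).primeFactors.card =
        (∏ i, e ^ (v i).primeFactors.card) ^ κ' *
          DDJ T ^ (∑ i, (v i).primeFactors.card) := by
      simp only [mul_pow]
      rw [prod_mul_distrib, prod_pow_eq_pow_sum, prod_pow_eq_pow_sum, prod_pow_eq_pow_sum,
        ← pow_mul, ← pow_mul, mul_comm κ']
    rw [e1]
    simp only [mul_pow, ← pow_mul, pow_add]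
    ring
  set SG : ℝ := Real.exp (-Sp (fun p => (rho G p : ℝ)) z L) with hSG
  have hGc : ∀ p : ℕ, p.Prime → z < p → rho G p ≤ c := fun p hp hzp =>
    (Nat.le_add_left _ _).trans (hG2 p hp hzp).1
  have hexpG := exp_G hGc hzy (hAt y L k hzy hk)
  have h3 : (T'.card : ℝ) ≤ Cc * X * (∏ i, gp (rJ u cls f z i) c (s i)) *
      (∏ i, gp (rJ u cls f z i) c (v i) / v i) *
      (∏ i, (c : ℝ) ^ (w i).primeFactors.card / w i) *
      Real.exp (-Sp (fun p => rho (∏ j, f j) p) z y) *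
      (Real.exp (c * At) * (Real.exp c) ^ k * SG) := by
    refine (hcn α X L y Y hα hy00 hzy hyK' s v w hs hv hw h8 T' fun t ht => ?_).trans ?_
    · have htT := hT' ht
      obtain ⟨hts, htv, htu⟩ := hval t ht
      refine ⟨hT0 htT, (hTT t htT).1, hts, htv, htu, fun p hp => ?_⟩
      have hp' := mem_PS'.1 hp
      exact (hTT t htT).2 p hp'.2 hp'.1.1 ((Nat.pow_le_pow_left hp'.1.2 2).trans hy2)
    · refine mul_le_mul_of_nonneg_left hexpG ?_
      have n1 : 0 ≤ ∏ i, gp (rJ u cls f z i) c (s i) := prod_nonneg fun i _ => hgn hs i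
      have n2 : 0 ≤ ∏ i, gp (rJ u cls f z i) c (v i) / v i :=
        prod_nonneg fun i _ => div_nonneg (hgn hv i) (Nat.cast_nonneg _)
      have n3 : 0 ≤ ∏ i, (c : ℝ) ^ (w i).primeFactors.card / w i :=
        prod_nonneg fun i _ => by positivity
      positivity
  calc ∑ t ∈ T', r (α t) ≤ ∑ _t ∈ T', W := sum_le_sum h1
    _ = (T'.card : ℝ) * W := by rw [sum_const, nsmul_eq_mul]
    _ ≤ _ := mul_le_mul_of_nonneg_right h3 hW0
    _ = _ := by
        rw [hW, Real.exp_neg (Sp (fun p => (rho (∏ j, f j) p : ℝ)) z y),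
          prod_mul_distrib (f := fun i => (b * DDJ T) ^ (v i).primeFactors.card),
          mul_pow ((e ^ (B' * Fintype.card J)) ^ κ' * DDJ T ^ (Fintype.card J * B'))]
        ring

end Pool.Agent.N870.SQ
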