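import Mathlib
import Pool.Agent.N870.SQ.AvgJ
import Pool.Agent.N870.SQ.Main
import Pool.Agent.Y723.PJ.Fin

/-!
# Moments in one-parameter families of Jacobians along sequences

Seat helper870.
-/

set_option autoImplicit false

namespace Pool.Agent.N870.SQ

open Finset Polynomial Filter Pool.Agent.W262.RK Pool.Agent.TH841.PT Pool.Agent.TH344.JG
open Pool.Agent.TH344.PJ Pool.Agent.TH344.PW Pool.Agent.Y723.PJ

open Pool.Agent.TH841.TR.N870 (Rgh)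

open Pool.Agent.H474R2.PG (rho)

/-- the moments, over the indices where a second polynomial has no small prime factors -/
theorem penJ {g k : ℕ} (B : ℕ) {J : Type} [Fintype J] [DecidableEq J]
    {u : Fin (2 * g + 1) → ℤ[X]} {κ : PR (2 * g + 1) → ℤ} {cls : J → PR (2 * g + 1)}
    {f : J → ℤ[X]} (hg : 1 ≤ g) (hk : 1 ≤ k) (hP : Pn u κ cls f)
    (hbal : BalS adj (fun c => (univ.filter (fun j => cls j = c)).card) (2 ^ k))
    (G : ℤ[X]) (hG : Squarefree (((∏ j, f j) * G).map (Int.castRingHom ℚ))) :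
    ∃ z0 : ℕ, ∀ z, z0 ≤ z → ∃ C2 : ℝ, ∀ (X L : ℕ) (α : ℕ → ℤ), 1 ≤ L → Lev X L α →
      (∀ t ∈ Icc 1 X, (α t).natAbs ≤ L ^ B) →
      ∀ T' : Finset ℕ, T' ⊆ Icc 1 X → (∀ t ∈ T', (∀ j, (f j).eval (α t) ≠ 0) ∧
        Sft G z L (α t)) →
      ∑ t ∈ T', ((SelJ (fun i => (u i).eval (α t))).ncard : ℝ) ^ k ≤
          C2 * (X * Real.exp (-Sp (fun p => (rho G p : ℝ)) z L)) := by
  obtain ⟨z0, hz0⟩ := avgJA antx RSPf.rsp RVU.rvp RVU.rup GDPf.gdp g k B J u κ cls f ∅ hg hk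
    hP (fun t ht => absurd ht (notMem_empty t)) (mak_bal ats MergeF.merge twg GDPf.gdp hP hbal) G hG
  refine ⟨z0, fun z hz => ?_⟩
  obtain ⟨C2, hC2⟩ := hz0 z hz
  refine ⟨C2, fun X L α hL hα hB T' hT' h => ?_⟩
  refine le_trans (le_of_eq (sum_congr rfl fun t _ => ?_)) (hC2 X L α hL hα hB T' hT' h)
  rw [rho_empty, mul_one]

variable {g k : ℕ} {J : Type} [Fintype J] [DecidableEq J] {u : Fin (2 * g + 1) → ℤ[X]}
  {κ : PR (2 * g + 1) → ℤ} {cls : J → PR (2 * g + 1)} {f : J → ℤ[X]} {r : ℕ} {G : Fin r → ℤ[X]}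

/-- the moments over sifted arguments -/
theorem jacA_sft (B : ℕ) (hg : 1 ≤ g) (hk : 1 ≤ k) (hP : Pn u κ cls f)
    (hbal : BalS adj (fun c => (univ.filter (fun j => cls j = c)).card) (2 ^ k))
    (hall : Irr (Sum.elim f G)) :
    ∃ z₀ : ℕ, ∀ z, z₀ ≤ z → ∃ C : ℝ, 0 ≤ C ∧ ∀ (X L : ℕ) (α : ℕ → ℤ), Adm B X L α →
      LeA (fun t => ((SelJ (fun i => (u i).eval t)).ncard : ℝ) ^ k)
        (fun t => (∀ j, (f j).eval t ≠ 0) ∧ Sft (∏ i, G i) z L t) α X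
        (C * (X / (Real.log L) ^ r)) := by
  classical
  have hG : Irr G := ⟨fun i => hall.irr (Sum.inr i), fun i => hall.deg (Sum.inr i),
    fun i l h => hall.assoc (Sum.inr i) (Sum.inr l) (fun h' => h (Sum.inr.inj h'))⟩
  have hsq : Squarefree (((∏ j, f j) * ∏ i, G i).map (Int.castRingHom ℚ)) := by
    have := hall.sqf
    rw [Fintype.prod_sum_type] at this
    exact this
  obtain ⟨z1, hz1⟩ := penJ B hg hk hP hbal (∏ i, G i) hsq
  obtain ⟨z2, hz2⟩ := exp_prod GDPf.gdp hG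
  refine ⟨z1 + z2, fun z hz => ?_⟩
  obtain ⟨C1, hC1⟩ := hz1 z (by omega)
  obtain ⟨C2, hC20, hC2⟩ := hz2 z (by omega)
  refine ⟨|C1| * C2, by positivity, fun X L α hA T hT hT' => ?_⟩
  have hX0 : (0 : ℝ) ≤ X := Nat.cast_nonneg _
  have hL2 := hA.two
  refine (hC1 X L α (by omega) hA.lev hA.bd T hT hT').trans ?_
  calc C1 * (X * Real.exp (-Sp (fun p => (rho (∏ i, G i) p : ℝ)) z L))
      ≤ |C1| * (X * Real.exp (-Sp (fun p => (rho (∏ i, G i) p : ℝ)) z L)) :=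
        mul_le_mul_of_nonneg_right (le_abs_self _) (by positivity)
    _ ≤ |C1| * (X * (C2 / (Real.log L) ^ r)) :=
        mul_le_mul_of_nonneg_left (mul_le_mul_of_nonneg_left (hC2 L hL2) hX0) (abs_nonneg _)
    _ = _ := by ring

/-- **the moments at the rough values of a sequence** -/
theorem jacA (hg : 1 ≤ g) (hk : 1 ≤ k) (hP : Pn u κ cls f)
    (hbal : BalS adj (fun c => (univ.filter (fun j => cls j = c)).card) (2 ^ k))
    (hall : Irr (Sum.elim f G)) (B : ℕ) (δ : ℝ) (hδ : 0 < δ) (z : ℕ) :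
    ∃ C : ℝ, 0 ≤ C ∧ ∀ (X L : ℕ) (α : ℕ → ℤ), Adm B X L α →
      LeA (fun t => ((SelJ (fun i => (u i).eval t)).ncard : ℝ) ^ k)
        (fun t => (∀ j, (f j).eval t ≠ 0) ∧ Rgh (∏ i, G i) z ((L : ℝ) ^ δ) t) α X
        (C * (X / (Real.log L) ^ r)) := by
  refine rough_of_sftA _ (fun t => ∀ j, (f j).eval t ≠ 0) G
    (fun B => jacA_sft B hg hk hP hbal hall) (fun B => ?_) B δ hδ z
  have hall0 : Irr (Sum.elim f (fun i : Fin 0 => (i.elim0 : ℤ[X]))) := by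
    refine ⟨?_, ?_, ?_⟩
    · rintro (x | x)
      · exact hP.irr.irr x
      · exact x.elim0
    · rintro (x | x)
      · exact hP.irr.deg x
      · exact x.elim0
    · rintro (x | x) (y | y) hne has
      · exact hP.irr.assoc x y (fun h => hne (by rw [h])) has
      · exact y.elim0
      · exact x.elim0
      · exact x.elim0
  obtain ⟨z₀, hz₀⟩ := jacA_sft B hg hk hP hbal hall0
  obtain ⟨C, hC0, hC⟩ := hz₀ z₀ le_rfl
  refine ⟨C, hC0, fun X L α hA => ?_⟩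
  have h1 := hC X L α hA
  simp only [pow_zero, div_one] at h1
  refine h1.mono (fun t ht => ⟨ht, fun p hp _ _ hdv => ?_⟩) le_rfl
  simp only [univ_eq_empty, prod_empty, eval_one] at hdv
  exact (Nat.prime_iff_prime_int.1 hp).not_dvd_one hdv

open Classical in
/-- **the moments along the integer parts of a smoothly varying function**, for a function `S` with
bounded averages over the rough values of sequences -/
theorem fl_of {c : ℝ} {φ : ℕ → ℝ → ℝ} (hφ : Pool.Agent.N193.PS.SV c φ)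
    (hG : Irr G)
    (hadm : ∀ p : ℕ, p.Prime → ∃ m : ℕ, ∀ i, ¬ (p : ℤ) ∣ (G i).eval (m : ℤ))
    (S : ℤ → ℝ) (Qp : ℤ → Prop) (Q : ℤ[X]) (hQ : Q ≠ 0) (hQp : ∀ t, Q.eval t ≠ 0 → Qp t)
    (hS : ∀ (B : ℕ) (δ : ℝ), 0 < δ → ∃ C : ℝ, 0 ≤ C ∧ ∀ (X L : ℕ) (α : ℕ → ℤ), Adm B X L α →
      LeA S (fun t => Qp t ∧ Rgh (∏ i, G i) 0 ((L : ℝ) ^ δ) t) α X (C * (X / (Real.log L) ^ r))) :
    ∃ δ : ℝ, 0 < δ ∧ ∃ κ : ℝ, 0 < κ ∧ ∃ (C : ℝ) (X₀ : ℕ), ∀ X : ℕ, X₀ ≤ X →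
      ∀ P : Finset ℕ, P = (Icc 1 X).filter (fun n : ℕ => Qp ⌊φ 0 n⌋ ∧
        ∀ i, ∀ p : ℕ, p.Prime → (p : ℤ) ∣ (G i).eval ⌊φ 0 n⌋ → (X : ℝ) ^ δ < p) →
      κ * (X / (Real.log X) ^ r) ≤ (P.card : ℝ) ∧ ∑ n ∈ P, S ⌊φ 0 n⌋ ≤ C * P.card := by
  obtain ⟨δ₀, B', hδ₀, hδ₀1, hadmis⟩ := sv_adm hφ
  obtain ⟨δ₁, hδ₁, κ₁, hκ₁, L₀, hL₀, hlow⟩ := lowQ hG hadm Q hQ
  obtain ⟨δ, hδ⟩ : ∃ δ : ℝ, δ = δ₀ * δ₁ / 2 := ⟨_, rfl⟩
  have hδ0 : 0 < δ := by rw [hδ]; positivity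
  refine ⟨δ, hδ0, κ₁, hκ₁, ?_⟩
  obtain ⟨C, hC0, hC⟩ := hS B' δ hδ0
  obtain ⟨X₁, hX₁⟩ := eventually_atTop.1 (hadmis.and
    ((tendsto_natCast_atTop_atTop (R := ℝ)).eventually
      ((Pool.Agent.N193.PS.const_ev ((L₀ : ℝ) + 1) δ₀ hδ₀).and (eventually_ge_atTop (3 : ℝ)))))
  refine ⟨C * (2 / δ₀) ^ r / κ₁, X₁, fun X hX P hP => ?_⟩
  obtain ⟨⟨hsq, hA⟩, g1, g2⟩ := hX₁ X hX
  obtain ⟨L, hL⟩ : ∃ L : ℕ, L = ⌊(X : ℝ) ^ δ₀⌋₊ := ⟨_, rfl⟩
  rw [← hL] at hsq hA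
  have hX0 : (0 : ℝ) < X := by linarith
  have hX1 : (1 : ℝ) < X := by linarith
  have hL1 : (L : ℝ) ≤ (X : ℝ) ^ δ₀ := by rw [hL]; exact Nat.floor_le (by positivity)
  have hL2 : (X : ℝ) ^ δ₀ < L + 1 := by rw [hL]; exact Nat.lt_floor_add_one _
  have hLL0 : L₀ ≤ L := by
    have : (L₀ : ℝ) < L + 1 := by linarith
    have : L₀ < L + 1 := by exact_mod_cast this
    omega
  have hLX : (L : ℝ) ≤ X := by
    refine hL1.trans ?_
    calc (X : ℝ) ^ δ₀ ≤ (X : ℝ) ^ (1 : ℝ) := Real.rpow_le_rpow_of_exponent_le hX1.le hδ₀1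
      _ = X := Real.rpow_one _
  have hL0 : (0 : ℝ) < L := by exact_mod_cast (by omega : 0 < L)
  have hL1' : (1 : ℝ) < L := by exact_mod_cast (by omega : 1 < L)
  have hlL : 0 < Real.log L := Real.log_pos hL1'
  have hlX : 0 < Real.log X := Real.log_pos hX1
  have hlLX : Real.log L ≤ Real.log X := Real.log_le_log hL0 hLX
  have hlXL : δ₀ / 2 * Real.log X ≤ Real.log L := by
    have h1 : Real.log ((X : ℝ) ^ δ₀) ≤ Real.log ((L : ℝ) ^ 2) :=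
      Real.log_le_log (by positivity) hsq
    rw [Real.log_rpow hX0, Real.log_pow] at h1
    push_cast at h1
    linarith
  -- the lower bound
  have hXδ : (X : ℝ) ^ δ ≤ (L : ℝ) ^ δ₁ := by
    calc (X : ℝ) ^ δ = ((X : ℝ) ^ δ₀) ^ (δ₁ / 2) := by
          rw [← Real.rpow_mul hX0.le, hδ]
          congr 1
          ring
      _ ≤ ((L : ℝ) ^ 2) ^ (δ₁ / 2) := Real.rpow_le_rpow (by positivity) hsq (by positivity)
      _ = (L : ℝ) ^ δ₁ := by
          rw [← Real.rpow_natCast, ← Real.rpow_mul hL0.le]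
          congr 1
          push_cast
          ring
  have hcard1 : κ₁ * (X / (Real.log X) ^ r) ≤ (P.card : ℝ) := by
    calc κ₁ * (X / (Real.log X) ^ r) ≤ κ₁ * (X / (Real.log L) ^ r) := by
          refine mul_le_mul_of_nonneg_left ?_ hκ₁.le
          exact div_le_div_of_nonneg_left hX0.le (pow_pos hlL r) (pow_le_pow_left₀ hlL.le hlLX r)
      _ ≤ _ := hlow X L _ hA.lev hLL0
      _ ≤ (P.card : ℝ) := by
          rw [Nat.cast_le, hP]
          apply card_le_card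
          intro n hn
          rw [mem_filter] at hn ⊢
          refine ⟨hn.1, hQp _ hn.2.1, fun i p hp hd => ?_⟩
          by_contra hcon
          refine hn.2.2 p hp ((not_lt.1 hcon).trans hXδ) ?_
          rw [eval_prod]
          exact hd.trans (dvd_prod_of_mem _ (mem_univ i))
  refine ⟨hcard1, ?_⟩
  have hPmem : ∀ n ∈ P, n ∈ Icc 1 X ∧ Qp ⌊φ 0 n⌋ ∧
      ∀ i, ∀ p : ℕ, p.Prime → (p : ℤ) ∣ (G i).eval ⌊φ 0 n⌋ → (X : ℝ) ^ δ < p := by
    intro n hn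
    rw [hP] at hn
    exact mem_filter.1 hn
  have hbound : C * (X / (Real.log L) ^ r) ≤ C * (2 / δ₀) ^ r / κ₁ * P.card := by
    have h1 : (X : ℝ) / (Real.log L) ^ r ≤ (2 / δ₀) ^ r * (X / (Real.log X) ^ r) := by
      calc (X : ℝ) / (Real.log L) ^ r ≤ X / (δ₀ / 2 * Real.log X) ^ r :=
            div_le_div_of_nonneg_left hX0.le (by positivity)
              (pow_le_pow_left₀ (by positivity) hlXL r)
        _ = _ := by
            rw [mul_pow, div_pow, div_pow]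
            field_simp
    have h2 : (X : ℝ) / (Real.log X) ^ r ≤ 1 / κ₁ * P.card := by
      rw [one_div, inv_mul_eq_div, le_div_iff₀ hκ₁]
      linarith
    calc C * (X / (Real.log L) ^ r) ≤ C * ((2 / δ₀) ^ r * (1 / κ₁ * P.card)) := by
          refine mul_le_mul_of_nonneg_left (h1.trans ?_) hC0
          exact mul_le_mul_of_nonneg_left h2 (by positivity)
      _ = _ := by ring
  refine (hC X L (fun n => ⌊φ 0 n⌋) hA P (fun n hn => (hPmem n hn).1) (fun n hn => ?_)).trans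
    hbound
  obtain ⟨h6, h7, h8⟩ := hPmem n hn
  refine ⟨h7, fun p hp _ hpL hd => ?_⟩
  rw [eval_prod] at hd
  obtain ⟨i, _, hi⟩ := ((Nat.prime_iff_prime_int.1 hp).dvd_finsetProd_iff _).1 hd
  have h1 := h8 i p hp hi
  have h2 : (L : ℝ) ^ δ ≤ (X : ℝ) ^ δ := Real.rpow_le_rpow hL0.le hLX hδ0.le
  linarith

end Pool.Agent.N870.SQ
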