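import Mathlib
import Pool.Agent.N870.SQ.Avg3
import Pool.Agent.N870.SQ.Main
import Pool.Agent.TH841.TR.Fin2

/-!
# Averages of 2-Selmer groups in pencils along sequences with a level of distribution

Seat helper870.
-/

set_option autoImplicit false

namespace Pool.Agent.N870.SQ

open Finset Polynomial Filter Pool.Agent.W262.RK Pool.Agent.TH841.PT Pool.Agent.TH841.TR

open Pool.Agent.TH841.TR.N870 (Rgh)

open Pool.Agent.H474R2.PG (rho)

open Pool.Agent.W307.SE (SN SelR SN_nonneg)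

variable {n : Fin 3 → ℕ} {r : ℕ} {G : Fin r → ℤ[X]}

/-- sifted arguments, along a sequence -/
theorem penA_sft (hG : Irr G) (a : Fin 3 → ℤ) (f : ∀ k : Fin 3, Fin (n k) → ℤ[X])
    (ha : ∀ k, a k ≠ 0) (hf : Irr (fp f))
    (hU : Pool.Agent.TH841.TR.UP a f 0 - Pool.Agent.TH841.TR.UP a f 1 =
      Pool.Agent.TH841.TR.UP a f 2)
    (hGf : ∀ i k j, ¬ Associated (f k j) (G i))
    (D : ℤ[X]) (hD : D ≠ 0) (hDf : ∀ k i, ¬ f k i ∣ D) (hDG : ∀ i, ¬ G i ∣ D)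
    (hB : Bal D a f) (B : ℕ) :
    ∃ z₀ : ℕ, ∀ z, z₀ ≤ z → ∃ C : ℝ, 0 ≤ C ∧ ∀ (X L : ℕ) (α : ℕ → ℤ), Adm B X L α →
      LeA (fun t => SN ((D * Pool.Agent.TH841.TR.UP a f 0).eval t)
          ((D * Pool.Agent.TH841.TR.UP a f 1).eval t))
        (fun t => (∀ k, (D * Pool.Agent.TH841.TR.UP a f k).eval t ≠ 0) ∧ Sft (∏ i, G i) z L t)
        α X (C * (X / (Real.log L) ^ r)) := by
  classical
  obtain ⟨m, g, a', D₂, ha', hf', hF', hfac, hgD⟩ :=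
    Pool.Agent.TH841.TR.reduce a f ha hf hU D hD hDf
  have hP : ∀ k, Polynomial.C (a' k) * ∏ l ∈ fs (Pool.Agent.TH841.TR.allc n m) k,
      Pool.Agent.TH841.TR.allf g f l = Pool.Agent.TH841.TR.FP a' g f k := by
    intro k
    rw [Pool.Agent.TH841.TR.prod_allc]
    unfold Pool.Agent.TH841.TR.FP
    rw [mul_assoc]
    rfl
  have hV : ∀ k t, Fval (Pool.Agent.TH841.TR.allc n m) a'
      (fun l => (Pool.Agent.TH841.TR.allf g f l).eval t) k =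
      (Pool.Agent.TH841.TR.FP a' g f k).eval t := by
    intro k t
    rw [← hP k, eval_mul, eval_C, eval_prod]
    rfl
  have hall : Irr (Sum.elim (Pool.Agent.TH841.TR.allf g f) G) := by
    refine irr_sum hf' hG ?_
    rintro (x | i) l has
    · exact hGf l x.1 x.2 has
    · exact hDG l (has.symm.dvd.trans (hgD i))
  have hsq : Squarefree (mQ ((∏ j, Pool.Agent.TH841.TR.allf g f j) * ∏ i, G i)) := by
    have := hall.sqf
    rw [Fintype.prod_sum_type] at this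
    exact this
  obtain ⟨sp, hT, hS⟩ := tri_of hB hfac
  obtain ⟨z1, hz1⟩ := avgXA SelXf.selx antx RSPf.rsp RVU.rvp RVU.rup SubT.subt GDPf.gdp
    (Pool.Agent.TH841.TR.allc n m) a' (Pool.Agent.TH841.TR.allf g f) B ha'
    (mk EULf.eul COMBf.combx (Pool.Agent.TH841.TR.allc n m) a' (Pool.Agent.TH841.TR.allf g f) sp
      ha' hf' hT hS)
    (by rw [hP, hP, hP]; exact hF') (∏ i, G i) hsq
  obtain ⟨z2, hz2⟩ := exp_prod GDPf.gdp hG
  refine ⟨z1 + z2, fun z hz => ?_⟩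
  obtain ⟨C1, hC1⟩ := hz1 z (by omega)
  obtain ⟨C2, hC20, hC2⟩ := hz2 z (by omega)
  simp only [hV] at hC1
  refine ⟨|C1| * C2, by positivity, fun X L α hA T hTX hTT => ?_⟩
  have hX0 : (0 : ℝ) ≤ X := Nat.cast_nonneg _
  have hL2 := hA.two
  have h1 : ∑ t ∈ T, SN ((D * Pool.Agent.TH841.TR.UP a f 0).eval (α t))
      ((D * Pool.Agent.TH841.TR.UP a f 1).eval (α t)) ≤
      ∑ t ∈ T, SN ((Pool.Agent.TH841.TR.FP a' g f 0).eval (α t))
        ((Pool.Agent.TH841.TR.FP a' g f 1).eval (α t)) := by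
    refine sum_le_sum fun t ht => ?_
    have ht' := (hTT t ht).1 0
    rw [hfac, eval_mul, eval_pow] at ht'
    have hw : D₂.eval (α t) ≠ 0 := fun h0 => ht' (by rw [h0]; ring)
    rw [hfac, hfac, eval_mul, eval_mul, eval_pow, SN_sq hw]
  refine h1.trans ((hC1 X L α (by omega) hA.lev hA.bd T hTX ?_).trans ?_)
  · intro t ht
    refine ⟨fun j => ?_, (hTT t ht).2⟩
    obtain ⟨k, hk⟩ : ∃ k, j ∈ fs (Pool.Agent.TH841.TR.allc n m) k := by
      unfold fs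
      rcases j with ⟨k, i⟩ | i
      · exact ⟨k, mem_filter.2 ⟨mem_univ _, Or.inl rfl⟩⟩
      · exact ⟨0, mem_filter.2 ⟨mem_univ _, Or.inr rfl⟩⟩
    have h2 := (hTT t ht).1 k
    rw [hfac, ← hP k, eval_mul, eval_mul, eval_prod] at h2
    exact (prod_ne_zero_iff.1 (right_ne_zero_of_mul (left_ne_zero_of_mul h2))) j hk
  · calc C1 * (X * Real.exp (-Sp (fun p => (rho (∏ i, G i) p : ℝ)) z L))
        ≤ |C1| * (X * Real.exp (-Sp (fun p => (rho (∏ i, G i) p : ℝ)) z L)) :=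
          mul_le_mul_of_nonneg_right (le_abs_self _) (by positivity)
      _ ≤ |C1| * (X * (C2 / (Real.log L) ^ r)) :=
          mul_le_mul_of_nonneg_left (mul_le_mul_of_nonneg_left (hC2 L hL2) hX0) (abs_nonneg _)
      _ = _ := by ring

/-- **the average in a pencil, at the rough values of a sequence** -/
theorem penA (hG : Irr G) (a : Fin 3 → ℤ) (f : ∀ k : Fin 3, Fin (n k) → ℤ[X])
    (ha : ∀ k, a k ≠ 0) (hf : Irr (fp f))
    (hU : Pool.Agent.TH841.TR.UP a f 0 - Pool.Agent.TH841.TR.UP a f 1 =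
      Pool.Agent.TH841.TR.UP a f 2)
    (hGf : ∀ i k j, ¬ Associated (f k j) (G i))
    (D : ℤ[X]) (hD : D ≠ 0) (hDf : ∀ k i, ¬ f k i ∣ D) (hDG : ∀ i, ¬ G i ∣ D)
    (hB : Bal D a f) (B : ℕ) (δ : ℝ) (hδ : 0 < δ) (z : ℕ) :
    ∃ C : ℝ, 0 ≤ C ∧ ∀ (X L : ℕ) (α : ℕ → ℤ), Adm B X L α →
      LeA (fun t => SN ((D * Pool.Agent.TH841.TR.UP a f 0).eval t)
          ((D * Pool.Agent.TH841.TR.UP a f 1).eval t))
        (fun t => (∀ k, (D * Pool.Agent.TH841.TR.UP a f k).eval t ≠ 0) ∧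
          Rgh (∏ i, G i) z ((L : ℝ) ^ δ) t)
        α X (C * (X / (Real.log L) ^ r)) := by
  refine rough_of_sftA _ (fun t => ∀ k, (D * Pool.Agent.TH841.TR.UP a f k).eval t ≠ 0) G
    (fun B => penA_sft hG a f ha hf hU hGf D hD hDf hDG hB B) (fun B => ?_) B δ hδ z
  obtain ⟨z₀, hz₀⟩ := penA_sft irr_zero a f ha hf hU (fun i => i.elim0) D hD hDf
    (fun i => i.elim0) hB B
  obtain ⟨C, hC0, hC⟩ := hz₀ z₀ le_rfl
  refine ⟨C, hC0, fun X L α hA => ?_⟩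
  have h1 := hC X L α hA
  simp only [pow_zero, div_one] at h1
  refine h1.mono (fun t ht => ⟨ht, fun p hp _ _ hdv => ?_⟩) le_rfl
  simp only [univ_eq_empty, prod_empty, eval_one] at hdv
  exact (Nat.prime_iff_prime_int.1 hp).not_dvd_one hdv

section

open Pool.Agent.TH841.NF (EF Gen)

open Pool.Agent.TH841.NF.D (HasDiv crk rk)

open Classical in
/-- ranks and Tate-Shafarevich groups over varying multiquadratic fields (adaptation of `conclF`) -/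
theorem conclN {s : ℕ} (P : Finset ℕ) (A B e1 e2 e3 : ℕ → ℤ) (d : ℕ → Fin s → ℤ) (Q : ℝ)
    (hE : ∀ t ∈ P, 4 * A t ^ 3 + 27 * B t ^ 2 ≠ 0)
    (he : ∀ t ∈ P, ∀ x : ℤ, x ^ 3 + A t * x + B t = (x - e1 t) * (x - e2 t) * (x - e3 t))
    (hd : ∀ t ∈ P, ∀ i, d t i ≠ 0)
    (hsum : ∀ T : Finset (Fin s), ∑ t ∈ P, SN ((e2 t - e1 t) * ∏ i ∈ T, d t i)
      ((e3 t - e1 t) * ∏ i ∈ T, d t i) ≤ Q)
    (F : ℕ → Type) [∀ t, Field (F t)] [∀ t, NumberField (F t)]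
    (hF : ∀ t ∈ P, Gen (F t) (d t)) (W : ∀ t, WeierstrassCurve (F t))
    (hW : ∀ t, W t = EF (A t) (B t) (F t)) :
    (∀ t ∈ P, BddAbove {q | HasDiv (W t) q}) ∧
      ∑ t ∈ P, ((2 : ℝ) ^ (rk (W t) + crk (W t))) ^ ((1 : ℝ) / 2 ^ s) ≤ Q ∧
      ∀ n : ℕ, ((P.filter (fun t => n ≤ rk (W t) + crk (W t))).card : ℝ) ≤
        Q / ((2 : ℝ) ^ n) ^ ((1 : ℝ) / 2 ^ s) := by
  refine Pool.Agent.TH841.NF.famR P F W (fun t => ∏ T : Finset (Fin s),
    SN ((e2 t - e1 t) * ∏ i ∈ T, d t i) ((e3 t - e1 t) * ∏ i ∈ T, d t i)) _ (by positivity) _ ?_ ?_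
  · intro t ht q hq
    rw [hW t] at hq ⊢
    have hne : ∀ T : Finset (Fin s), ∏ i ∈ T, d t i ≠ 0 := fun T =>
      prod_ne_zero_iff.2 fun i _ => hd t ht i
    refine Pool.Agent.TH841.NF.one_field (d := d t) (hF t ht) (hd t ht) (hE t ht) _ ?_ ?_ hq
    · intro T
      have h1 := Pool.Agent.TH639.SL.sel_tw (hE t ht) (he t ht) (hne T)
      have h2 := Pool.Agent.TH841.SH.bd_selR (Pool.Agent.TH639.SL.disc_tw (hne T) (hE t ht))
        (Pool.Agent.TH639.SL.roots_tw (he t ht) _) h1.1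
      exact ⟨h2.1, h2.2.trans h1.2⟩
    · intro T
      exact Pool.Agent.W307.RG.fin_tw (hE t ht) (he t ht) (hne T)
  · have hc : (Fintype.card (Finset (Fin s)) : ℝ) = 2 ^ s := by
      rw [Fintype.card_finset, Fintype.card_fin]
      push_cast
      rfl
    calc ∑ t ∈ P, (∏ T : Finset (Fin s), SN ((e2 t - e1 t) * ∏ i ∈ T, d t i)
          ((e3 t - e1 t) * ∏ i ∈ T, d t i)) ^ ((1 : ℝ) / 2 ^ s)
        ≤ ∑ t ∈ P, ∑ T : Finset (Fin s), ((1 : ℝ) / 2 ^ s) *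
          SN ((e2 t - e1 t) * ∏ i ∈ T, d t i) ((e3 t - e1 t) * ∏ i ∈ T, d t i) := by
          refine sum_le_sum fun t _ => ?_
          have := prod_rpow_one (fun T : Finset (Fin s) => SN ((e2 t - e1 t) * ∏ i ∈ T, d t i)
            ((e3 t - e1 t) * ∏ i ∈ T, d t i)) (fun T => SN_nonneg _ _)
          rwa [hc] at this
      _ = ∑ T : Finset (Fin s), ((1 : ℝ) / 2 ^ s) *
          ∑ t ∈ P, SN ((e2 t - e1 t) * ∏ i ∈ T, d t i) ((e3 t - e1 t) * ∏ i ∈ T, d t i) := by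
          rw [sum_comm]
          refine sum_congr rfl fun T _ => ?_
          rw [mul_sum]
      _ ≤ ∑ T : Finset (Fin s), ((1 : ℝ) / 2 ^ s) * Q :=
          sum_le_sum fun T _ => mul_le_mul_of_nonneg_left (hsum T) (by positivity)
      _ = Q := by
          rw [sum_const, card_univ, nsmul_eq_mul, hc]
          field_simp

open Classical in
/-- **pencils over varying fields along the integer parts of smoothly varying functions** -/
theorem pen_fl {c : ℝ} {φ : ℕ → ℝ → ℝ} (hφ : Pool.Agent.N193.PS.SV c φ) {g : ℕ}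
    {G : Fin g → ℤ[X]} (hG : Irr G)
    (hadm : ∀ p : ℕ, p.Prime → ∃ m : ℕ, ∀ i, ¬ (p : ℤ) ∣ (G i).eval (m : ℤ))
    (a : Fin 3 → ℤ) (f : ∀ k : Fin 3, Fin (n k) → ℤ[X])
    (ha : ∀ k, a k ≠ 0) (hf : Irr (fp f))
    (hU : Pool.Agent.TH841.TR.UP a f 0 - Pool.Agent.TH841.TR.UP a f 1 =
      Pool.Agent.TH841.TR.UP a f 2)
    (hGf : ∀ i k j, ¬ Associated (f k j) (G i))
    (s : ℕ) (D₀ : ℤ[X]) (hD₀ : D₀ ≠ 0) (hDf₀ : ∀ k i, ¬ f k i ∣ D₀) (hDG₀ : ∀ i, ¬ G i ∣ D₀)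
    (D : Fin s → ℤ[X]) (hD : ∀ i, D i ≠ 0) (hDf : ∀ l k i, ¬ f k i ∣ D l)
    (hDG : ∀ l i, ¬ G i ∣ D l)
    (A B e1 e2 e3 : ℤ[X])
    (he : ∀ t x : ℤ, x ^ 3 + A.eval t * x + B.eval t =
      (x - e1.eval t) * (x - e2.eval t) * (x - e3.eval t))
    (h12 : e2 - e1 = D₀ * Pool.Agent.TH841.TR.UP a f 0)
    (h13 : e3 - e1 = D₀ * Pool.Agent.TH841.TR.UP a f 1)
    (hB : ∀ T : Finset (Fin s), Bal (D₀ * ∏ i ∈ T, D i) a f) :
    ∃ δ : ℝ, 0 < δ ∧ ∃ κ : ℝ, 0 < κ ∧ ∃ (C : ℝ) (X₀ : ℕ), ∀ X : ℕ, X₀ ≤ X →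
      ∀ P : Finset ℕ, P = (Icc 1 X).filter (fun n : ℕ =>
        ((∀ k, (D₀ * Pool.Agent.TH841.TR.UP a f k).eval ⌊φ 0 n⌋ ≠ 0) ∧
          ∀ i, (D i).eval ⌊φ 0 n⌋ ≠ 0) ∧
        ∀ i, ∀ p : ℕ, p.Prime → (p : ℤ) ∣ (G i).eval ⌊φ 0 n⌋ → (X : ℝ) ^ δ < p) →
      κ * (X / (Real.log X) ^ g) ≤ (P.card : ℝ) ∧
      ∀ (F : ℕ → Type) [∀ n, Field (F n)] [∀ n, NumberField (F n)],
      (∀ n ∈ P, Gen (F n) (fun i => (D i).eval ⌊φ 0 n⌋)) →
      ∀ W : ∀ n, WeierstrassCurve (F n),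
      (∀ n, W n = EF (A.eval ⌊φ 0 n⌋) (B.eval ⌊φ 0 n⌋) (F n)) →
      (∀ n ∈ P, BddAbove {q | HasDiv (W n) q}) ∧
      ∑ n ∈ P, ((2 : ℝ) ^ (rk (W n) + crk (W n))) ^ ((1 : ℝ) / 2 ^ s) ≤ C * P.card ∧
      ∀ m : ℕ, ((P.filter (fun n => m ≤ rk (W n) + crk (W n))).card : ℝ) ≤
        C * P.card / ((2 : ℝ) ^ m) ^ ((1 : ℝ) / 2 ^ s) := by
  obtain ⟨δ₀, B', hδ₀, hδ₀1, hadmis⟩ := sv_adm hφ
  have hne : ∀ T : Finset (Fin s), D₀ * ∏ i ∈ T, D i ≠ 0 := fun T =>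
    mul_ne_zero hD₀ (prod_ne_zero_iff.2 fun i _ => hD i)
  have hUne : ∀ k, Pool.Agent.TH841.TR.UP a f k ≠ 0 := fun k => by
    unfold Pool.Agent.TH841.TR.UP
    exact mul_ne_zero (by simpa using ha k) (prod_ne_zero_iff.2 fun i _ => (hf.irr ⟨k, i⟩).ne_zero)
  set Q : ℤ[X] := (∏ k, D₀ * Pool.Agent.TH841.TR.UP a f k) * ∏ i, D i with hQ
  have hQne : Q ≠ 0 := mul_ne_zero (prod_ne_zero_iff.2 fun k _ => mul_ne_zero hD₀ (hUne k))
    (prod_ne_zero_iff.2 fun i _ => hD i)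
  obtain ⟨δ₁, hδ₁, κ₁, hκ₁, L₀, hL₀, hlow⟩ := lowQ hG hadm Q hQne
  obtain ⟨δ, hδ⟩ : ∃ δ : ℝ, δ = δ₀ * δ₁ / 2 := ⟨_, rfl⟩
  have hδ0 : 0 < δ := by rw [hδ]; positivity
  refine ⟨δ, hδ0, κ₁, hκ₁, ?_⟩
  choose C hC0 hC using fun T : Finset (Fin s) => penA hG a f ha hf hU hGf
    (D₀ * ∏ i ∈ T, D i)
    (hne T) (fun k i => prod_ndvd (hf.irr ⟨k, i⟩) (hDf₀ k i) (fun l => hDf l k i) T)
    (fun i => prod_ndvd (hG.irr i) (hDG₀ i) (fun l => hDG l i) T) (hB T) B' δ hδ0 0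
  have hCs : 0 ≤ ∑ T, C T := sum_nonneg fun T _ => hC0 T
  obtain ⟨X₁, hX₁⟩ := eventually_atTop.1 (hadmis.and
    ((tendsto_natCast_atTop_atTop (R := ℝ)).eventually
      ((Pool.Agent.N193.PS.const_ev ((L₀ : ℝ) + 1) δ₀ hδ₀).and (eventually_ge_atTop (3 : ℝ)))))
  refine ⟨(∑ T, C T) * (2 / δ₀) ^ g / κ₁, X₁, fun X hX P hP => ?_⟩
  obtain ⟨⟨hsq, hA⟩, g1, g2⟩ := hX₁ X hX
  obtain ⟨L, hL⟩ : ∃ L : ℕ, L = ⌊(X : ℝ) ^ δ₀⌋₊ := ⟨_, rfl⟩
  rw [← hL] at hsq hA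
  have hX0 : (0 : ℝ) < X := by linarith
  have hX1 : (1 : ℝ) < X := by linarith
  have hL1 : (L : ℝ) ≤ (X : ℝ) ^ δ₀ := by rw [hL]; exact Nat.floor_le (by positivity)
  have hL2 : (X : ℝ) ^ δ₀ < L + 1 := by rw [hL]; exact Nat.lt_floor_add_one _
  have hLL0 : L₀ ≤ L := by
    have : (L₀ : ℝ) < L + 1 := by linarith
    have : L₀ < L + 1 := by exact_mod_cast this
    omega
  have hLX : (L : ℝ) ≤ X := by
    refine hL1.trans ?_
    calc (X : ℝ) ^ δ₀ ≤ (X : ℝ) ^ (1 : ℝ) := Real.rpow_le_rpow_of_exponent_le hX1.le hδ₀1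
      _ = X := Real.rpow_one _
  have hL0 : (0 : ℝ) < L := by exact_mod_cast (by omega : 0 < L)
  have hL1' : (1 : ℝ) < L := by exact_mod_cast (by omega : 1 < L)
  have hlL : 0 < Real.log L := Real.log_pos hL1'
  have hlX : 0 < Real.log X := Real.log_pos hX1
  have hlLX : Real.log L ≤ Real.log X := Real.log_le_log hL0 hLX
  have hlXL : δ₀ / 2 * Real.log X ≤ Real.log L := by
    have h1 : Real.log ((X : ℝ) ^ δ₀) ≤ Real.log ((L : ℝ) ^ 2) :=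
      Real.log_le_log (by positivity) hsq
    rw [Real.log_rpow hX0, Real.log_pow] at h1
    push_cast at h1
    linarith
  -- the lower bound
  have hXδ : (X : ℝ) ^ δ ≤ (L : ℝ) ^ δ₁ := by
    calc (X : ℝ) ^ δ = ((X : ℝ) ^ δ₀) ^ (δ₁ / 2) := by
          rw [← Real.rpow_mul hX0.le, hδ]
          congr 1
          ring
      _ ≤ ((L : ℝ) ^ 2) ^ (δ₁ / 2) := Real.rpow_le_rpow (by positivity) hsq (by positivity)
      _ = (L : ℝ) ^ δ₁ := by
          rw [← Real.rpow_natCast, ← Real.rpow_mul hL0.le]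
          congr 1
          push_cast
          ring
  have hcard1 : κ₁ * (X / (Real.log X) ^ g) ≤ (P.card : ℝ) := by
    calc κ₁ * (X / (Real.log X) ^ g) ≤ κ₁ * (X / (Real.log L) ^ g) := by
          refine mul_le_mul_of_nonneg_left ?_ hκ₁.le
          exact div_le_div_of_nonneg_left hX0.le (pow_pos hlL g) (pow_le_pow_left₀ hlL.le hlLX g)
      _ ≤ _ := hlow X L _ hA.lev hLL0
      _ ≤ (P.card : ℝ) := by
          rw [Nat.cast_le, hP]
          apply card_le_card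
          intro n hn
          rw [mem_filter] at hn ⊢
          have h5 := hn.2.1
          rw [hQ, eval_mul, eval_prod, eval_prod] at h5
          refine ⟨hn.1, ⟨?_, ?_⟩, fun i p hp hd => ?_⟩
          · intro k
            exact prod_ne_zero_iff.1 (left_ne_zero_of_mul h5) k (mem_univ k)
          · intro i
            exact prod_ne_zero_iff.1 (right_ne_zero_of_mul h5) i (mem_univ i)
          · by_contra hcon
            refine hn.2.2 p hp ((not_lt.1 hcon).trans hXδ) ?_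
            rw [eval_prod]
            exact hd.trans (dvd_prod_of_mem _ (mem_univ i))
  refine ⟨hcard1, fun F _ _ hF W hW => ?_⟩
  have hPmem : ∀ n ∈ P, n ∈ Icc 1 X ∧
      ((∀ k, (D₀ * Pool.Agent.TH841.TR.UP a f k).eval ⌊φ 0 n⌋ ≠ 0) ∧
        ∀ i, (D i).eval ⌊φ 0 n⌋ ≠ 0) ∧
      ∀ i, ∀ p : ℕ, p.Prime → (p : ℤ) ∣ (G i).eval ⌊φ 0 n⌋ → (X : ℝ) ^ δ < p := by
    intro n hn
    rw [hP] at hn
    exact mem_filter.1 hn
  have hbound : (∑ T, C T) * (X / (Real.log L) ^ g) ≤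
      (∑ T, C T) * (2 / δ₀) ^ g / κ₁ * P.card := by
    have h1 : (X : ℝ) / (Real.log L) ^ g ≤ (2 / δ₀) ^ g * (X / (Real.log X) ^ g) := by
      calc (X : ℝ) / (Real.log L) ^ g ≤ X / (δ₀ / 2 * Real.log X) ^ g :=
            div_le_div_of_nonneg_left hX0.le (by positivity)
              (pow_le_pow_left₀ (by positivity) hlXL g)
        _ = _ := by
            rw [mul_pow, div_pow, div_pow]
            field_simp
    have h2 : (X : ℝ) / (Real.log X) ^ g ≤ 1 / κ₁ * P.card := by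
      rw [one_div, inv_mul_eq_div, le_div_iff₀ hκ₁]
      linarith
    calc (∑ T, C T) * (X / (Real.log L) ^ g) ≤
        (∑ T, C T) * ((2 / δ₀) ^ g * (1 / κ₁ * P.card)) := by
          refine mul_le_mul_of_nonneg_left (h1.trans ?_) hCs
          exact mul_le_mul_of_nonneg_left h2 (by positivity)
      _ = _ := by ring
  have hQ' : ∀ T : Finset (Fin s), ∑ t ∈ P,
      SN (((D₀ * ∏ i ∈ T, D i) * Pool.Agent.TH841.TR.UP a f 0).eval ⌊φ 0 t⌋)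
        (((D₀ * ∏ i ∈ T, D i) * Pool.Agent.TH841.TR.UP a f 1).eval ⌊φ 0 t⌋) ≤
      (∑ T, C T) * (2 / δ₀) ^ g / κ₁ * P.card := by
    intro T
    have h5 : C T ≤ ∑ T, C T := single_le_sum (f := C) (fun T _ => hC0 T) (mem_univ T)
    refine (hC T X L (fun n => ⌊φ 0 n⌋) hA P (fun n hn => (hPmem n hn).1) (fun n hn => ?_)).trans
      ((mul_le_mul_of_nonneg_right h5 (by positivity)).trans hbound)
    obtain ⟨h6, h7, h8⟩ := hPmem n hn
    refine ⟨fun k h0 => ?_, fun p hp _ hpL hd => ?_⟩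
    · rw [eval_mul, eval_mul, eval_prod] at h0
      have h3 := h7.1 k
      rw [eval_mul] at h3
      rcases mul_eq_zero.1 h0 with h4 | h4
      · rcases mul_eq_zero.1 h4 with h5 | h5
        · exact left_ne_zero_of_mul h3 h5
        · obtain ⟨i, _, hi⟩ := prod_eq_zero_iff.1 h5
          exact h7.2 i hi
      · exact right_ne_zero_of_mul h3 h4
    · rw [eval_prod] at hd
      obtain ⟨i, _, hi⟩ := ((Nat.prime_iff_prime_int.1 hp).dvd_finsetProd_iff _).1 hd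
      have h1 := h8 i p hp hi
      have h2 : (L : ℝ) ^ δ ≤ (X : ℝ) ^ δ := Real.rpow_le_rpow hL0.le hLX hδ0.le
      linarith
  have hd1 : ∀ t, e2.eval t - e1.eval t = (D₀ * Pool.Agent.TH841.TR.UP a f 0).eval t := fun t => by
    rw [← h12, eval_sub]
  have hd2 : ∀ t, e3.eval t - e1.eval t = (D₀ * Pool.Agent.TH841.TR.UP a f 1).eval t := fun t => by
    rw [← h13, eval_sub]
  have hd3 : ∀ t, e2.eval t - e3.eval t = (D₀ * Pool.Agent.TH841.TR.UP a f 2).eval t := fun t => by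
    rw [← hU, mul_sub, eval_sub, ← hd1, ← hd2]
    ring
  refine conclN P (fun t => A.eval ⌊φ 0 t⌋) (fun t => B.eval ⌊φ 0 t⌋) (fun t => e1.eval ⌊φ 0 t⌋)
    (fun t => e2.eval ⌊φ 0 t⌋) (fun t => e3.eval ⌊φ 0 t⌋) (fun t i => (D i).eval ⌊φ 0 t⌋) _
    (fun t ht => ?_)
    (fun t _ => he _) (fun t ht => (hPmem t ht).2.1.2) (fun T => ?_) F hF W hW
  · have h0 := (hPmem t ht).2.1.1
    refine disc_of (he _) ?_ ?_ ?_
    · rw [hd1]
      exact h0 0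
    · rw [hd2]
      exact h0 1
    · rw [hd3]
      exact h0 2
  · refine le_trans (le_of_eq (sum_congr rfl fun t _ => ?_)) (hQ' T)
    rw [hd1, hd2]
    simp only [eval_mul, eval_prod]
    congr 1 <;> ring

end

end Pool.Agent.N870.SQ
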